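import Pool.Agent.H90.STAT.FulC

/-!
# The digits of the time of a family given the line and the window
-/

set_option autoImplicit false

namespace Pool.TRC31

open Finset Real
open Pool.Agent.H49.Ent Pool.Agent.H32.Dense Pool.STK Pool.KS3 Pool.KA Pool.KSAT Pool.K2S Pool.PB
  Pool.GEN
open Pool.FLF (Fam.sub)

variable {m J : ℕ}

/-- The digits `w, …, w + L` of the time, as a floor. -/
theorem floor_time {F : Fam m J} {w L : ℕ} (hw : w + L ≤ J) (ω : F.Ω) :
    ⌊(2 : ℝ) ^ (w + L) * (F.t ω - (F.T1 w ω : ℝ) / 2 ^ w)⌋ =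
      ((F.T ω / 2 ^ (J - (w + L)) % 2 ^ L : ℕ) : ℤ) := by
  obtain ⟨s, rfl⟩ : ∃ s, J = w + L + s := ⟨J - (w + L), by omega⟩
  have e0 : w + L + s - (w + L) = s := by omega
  have e1 : w + L + s - w = L + s := by omega
  rw [e0]
  have h1 : F.T1 w ω = F.T ω / 2 ^ s / 2 ^ L := by
    unfold Fam.T1
    rw [e1, Nat.div_div_eq_div_mul, ← pow_add, add_comm s L]
  have h2 := Nat.div_add_mod (F.T ω / 2 ^ s) (2 ^ L)
  have h3 := Nat.div_add_mod (F.T ω) (2 ^ s)
  have h4 : F.T ω % 2 ^ s < 2 ^ s := Nat.mod_lt _ (by positivity)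
  rw [h1]
  set N : ℕ := F.T ω / 2 ^ s with hN
  set a : ℕ := N / 2 ^ L with ha
  set b : ℕ := N % 2 ^ L with hb
  set c : ℕ := F.T ω % 2 ^ s with hc
  have h5 : (2 : ℝ) ^ (w + L) * (F.t ω - (a : ℝ) / 2 ^ w) = (b : ℝ) + c / 2 ^ s := by
    unfold Fam.t
    have h6 : (F.T ω : ℝ) = 2 ^ s * (2 ^ L * a + b) + c := by
      rw [← h3, ← h2]
      push_cast
      ring
    rw [h6]
    have p1 : (2 : ℝ) ^ w ≠ 0 := by positivity
    have p2 : (2 : ℝ) ^ L ≠ 0 := by positivity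
    have p3 : (2 : ℝ) ^ s ≠ 0 := by positivity
    rw [pow_add, pow_add, pow_add]
    field_simp
    ring
  rw [h5]
  have h7 : (0 : ℝ) ≤ c / 2 ^ s := by positivity
  have h8 : (c : ℝ) / 2 ^ s < 1 := by
    rw [div_lt_one (by positivity)]
    exact_mod_cast h4
  rw [Int.floor_eq_iff]
  constructor
  · push_cast
    linarith
  · push_cast
    linarith

/-- **TimeF.** The digits of the time are almost uniform given the line with the window. -/
theorem timeF {F : Fam m J} {B : F.Ω → Prop} (hB : 0 < Pe F.p B) {e₀ : ℝ}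
    (ht : (Fam.sub F B hB).Tm e₀) {w L : ℕ} (hw : w + L ≤ J) :
    (L : ℝ) * Real.log 2 - e₀ ≤ CH (Pool.Agent.H49.Ent.cond F.p B True)
      (fun ω => ⌊(2 : ℝ) ^ (w + L) * (F.t ω - (F.T1 w ω : ℝ) / 2 ^ w)⌋) (slam F w) := by
  have hq := isLaw_cond F.isLaw hB
  have h1 : (J : ℝ) * Real.log 2 - e₀ ≤ CH (Pool.Agent.H49.Ent.cond F.p B True) F.T
      (fun ω => (F.l ω, F.Z ω)) :=
    le_trans ht (le_of_eq (Pool.FLF.sub_CH (F := F) (A := B) (hA := hB) F.T
      (fun ω => (F.l ω, F.Z ω))))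
  have h2 := Pool.BFL.RAT.time_dig hq F.T (fun ω => (F.l ω, F.Z ω)) F.tim
    (Nat.le_add_right w L) hw h1
  have h3 : ((w + L : ℕ) : ℝ) - w = L := by push_cast; ring
  have h4 : w + L - w = L := by omega
  rw [h3, h4] at h2
  refine h2.trans ((CH_mono_left hq.nonneg fun ω ω' _ _ e => ?_).trans
    (CH_mono_cond hq.nonneg fun ω ω' _ _ e => ?_))
  · simp only [Prod.mk.injEq] at e
    have e1 := e.1
    rw [floor_time hw, floor_time hw] at e1
    exact_mod_cast e1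
  · simp only [Prod.mk.injEq] at e
    show (F.l ω, F.Z ω, F.T1 w ω) = (F.l ω', F.Z ω', F.T1 w ω')
    rw [e.1.1, e.1.2]
    have e2 : F.T1 w ω = F.T1 w ω' := e.2
    rw [e2]

end Pool.TRC31
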