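import Pool.Agent.H64.STAT.Rows

/-!
# Row TRW: transport along a walk
-/

set_option autoImplicit false

namespace Pool.STAT

open Finset MvPolynomial
open Pool.BFL (Pl CB)

theorem trw_pow_le {K K' : ℕ} {R : ℝ} (hR : 1 ≤ R) (h : K ≤ K') :
    (K : ℝ) * R ^ K ≤ (K' : ℝ) * R ^ K' := by
  have h1 : (K : ℝ) ≤ K' := by exact_mod_cast h
  have h2 : R ^ K ≤ R ^ K' := pow_le_pow_right₀ hR h
  exact mul_le_mul h1 h2 (by positivity) (by positivity)

theorem flow_zeroT {c : ℕ} (d : Fin c → ℕ) (ξ : Fin c → Pl c) (i : Fin c) :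
    flow d ξ 0 i = X i := by
  unfold flow
  rw [Finset.sum_eq_single 0]
  · simp
  · intro r _ hr
    simp [hr]
  · intro h
    simp at h

theorem hfl_zeroT {c : ℕ} (j : ℕ) (ξ : Fin c → Pl c) (b : Pl c) : hfl j ξ b 0 = 0 := by
  unfold hfl
  exact Finset.sum_eq_zero fun r _ => by simp

theorem trw_of (h3 : Flw3Stmt) (h4 : Flw4Stmt) (h5 : Flw5Stmt) : TrwStmt := by
  intro c j N d hd hj
  obtain ⟨K4, hK4⟩ := h4 c j d hd hj
  induction N with
  | zero =>
    refine ⟨1, ?_⟩
    intro R δ hR hδ _ ξ b s u f y _ _ _ _ _ _ _ _ hu hy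
    have h1 : δ ≤ ((1 : ℕ) : ℝ) * R ^ 1 * δ := by
      rw [Nat.cast_one, one_mul, pow_one]
      nlinarith
    refine ⟨fun i => ?_, ?_⟩
    · have h2 : wT d 0 ξ i = 0 := rfl
      rw [h2, map_zero, sub_zero]
      exact (hu i).trans h1
    · have h2 : wH d j 0 ξ b = 0 := rfl
      rw [h2, map_zero, sub_zero]
      exact hy.trans h1
  | succ N ih =>
    obtain ⟨K, hK⟩ := ih
    -- the radius `R' = A R ^ A`
    set A : ℕ := K4 + K + 1 with hA
    refine ⟨K4 * A ^ K4 * (1 + K) + K + A * K4 + K + 1 + A, ?_⟩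
    intro R δ hR hδ hδ1 ξ b s u f y hξ hb hξR hbR hs hu huf hff huN hy
    have hR0 : 0 < R := lt_of_lt_of_le one_pos hR
    obtain ⟨e1, e2⟩ := hK R δ hR hδ hδ1 (fun a => ξ a.succ) (fun a => b a.succ)
      (fun a => s a.succ) (fun a => u (a + 1)) (fun a => f (a + 1)) y (fun a => hξ _)
      (fun a => hb _) (fun a i => hξR _ i) (fun a => hbR _) (fun a => hs _)
      (fun a ha i => hu (a + 1) (by omega) i)
      (fun a i => by simpa using huf a.succ i) (fun a => by simpa using hff a.succ)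
      (fun i => huN i) hy
    set v : Fin c → ℝ := fun k => eval (fun a : Fin N => s a.succ)
      (wT d N (fun a => ξ a.succ) k) with hv
    set z : Fin c → ℝ := fun k => eval (u 0) (flow d (ξ 0) (-s 0) k) with hz
    set R' : ℝ := (A : ℝ) * R ^ A with hR'
    have hA1 : (1 : ℝ) ≤ A := by
      have : 1 ≤ A := by omega
      exact_mod_cast this
    have hRA : R ≤ R ^ A := by
      calc R = R ^ 1 := (pow_one R).symm
        _ ≤ R ^ A := pow_le_pow_right₀ hR (by omega)
    have hRR' : R ≤ R' := by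
      rw [hR']
      nlinarith
    have hR'1 : 1 ≤ R' := hR.trans hRR'
    have hs0 : |(-s 0)| ≤ 1 := by
      rw [abs_neg]
      exact hs 0
    -- bounds for `z`
    have hzb : ∀ i, |z i| ≤ R' := by
      intro i
      have h1 := (hK4 R 0 (-s 0) hR le_rfl hs0 (ξ 0) (b 0) (u 0) (u 0) (hξ 0) (hb 0) (hξR 0)
        (hbR 0) (hu 0 (by omega)) (hu 0 (by omega)) (fun i => by simp)).1 i
      exact h1.trans (trw_pow_le hR (by omega))
    have hvb : ∀ i, |v i| ≤ R' := by
      intro i
      have h1 := e1 i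
      have h2 := hu 1 (by omega) i
      have h3 : |v i| ≤ R + K * R ^ K * δ := by
        have h4 : |v i| ≤ |u (0 + 1) i| + |u (0 + 1) i - v i| := by
          have := abs_sub_abs_le_abs_sub (v i) (u (0 + 1) i)
          rw [abs_sub_comm] at this
          linarith
        have h5 : |u (0 + 1) i| ≤ R := by simpa using h2
        linarith
      have h4 : (K : ℝ) * R ^ K * δ ≤ K * R ^ A := by
        have h5 : R ^ K ≤ R ^ A := pow_le_pow_right₀ hR (by omega)
        have h6 : (0 : ℝ) ≤ K * R ^ K := by positivity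
        calc (K : ℝ) * R ^ K * δ ≤ K * R ^ K * 1 := mul_le_mul_of_nonneg_left hδ1 h6
          _ = K * R ^ K := mul_one _
          _ ≤ K * R ^ A := mul_le_mul_of_nonneg_left h5 (by positivity)
      have h5 : R' = (K4 : ℝ) * R ^ A + K * R ^ A + R ^ A := by
        rw [hR', hA]
        push_cast
        ring
      have h6 : (0 : ℝ) ≤ K4 * R ^ A := by positivity
      linarith
    -- the distance of `z` and `v`
    set δ' : ℝ := (1 + K * R ^ K) * δ with hδ'
    have hδ'0 : 0 ≤ δ' := by positivity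
    have hzv : ∀ i, |z i - v i| ≤ δ' := by
      intro i
      have h1 := e1 i
      have h2 := huf 0 i
      have h3 : |z i - v i| ≤ |u (0 + 1) i - z i| + |u (0 + 1) i - v i| := by
        have h4 : z i - v i = -(u (0 + 1) i - z i) + (u (0 + 1) i - v i) := by ring
        rw [h4]
        refine (abs_add_le _ _).trans ?_
        rw [abs_neg]
      have h4 : |u (0 + 1) i - z i| ≤ δ := by simpa using h2
      rw [hδ']
      linarith
    obtain ⟨-, g2, g3⟩ := hK4 R' δ' (s 0) hR'1 hδ'0 (hs 0) (ξ 0) (b 0) z v (hξ 0) (hb 0)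
      (fun i k => (hξR 0 i k).trans hRR') (fun k => (hbR 0 k).trans hRR') hzb hvb hzv
    -- the constant
    set E : ℕ := K4 * A ^ K4 * (1 + K) + K + A * K4 + K + 1 + A with hE
    have hbig : (K4 : ℝ) * R' ^ K4 * δ' ≤ (K4 * A ^ K4 * (1 + K) : ℕ) * R ^ E * δ := by
      have h1 : R' ^ K4 = (A : ℝ) ^ K4 * R ^ (A * K4) := by
        rw [hR', mul_pow, ← pow_mul]
      have h2 : 1 + (K : ℝ) * R ^ K ≤ (1 + K) * R ^ K := by
        have : (1 : ℝ) ≤ R ^ K := one_le_pow₀ hR
        nlinarith [Nat.cast_nonneg (α := ℝ) K]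
      have h3 : R ^ (A * K4) * R ^ K ≤ R ^ E := by
        rw [← pow_add]
        exact pow_le_pow_right₀ hR (by omega)
      rw [h1, hδ']
      have h4 : (0 : ℝ) ≤ K4 * (A ^ K4 * R ^ (A * K4)) := by positivity
      calc (K4 : ℝ) * (A ^ K4 * R ^ (A * K4)) * ((1 + K * R ^ K) * δ)
          ≤ (K4 : ℝ) * (A ^ K4 * R ^ (A * K4)) * (((1 + K) * R ^ K) * δ) := by
            refine mul_le_mul_of_nonneg_left ?_ h4
            exact mul_le_mul_of_nonneg_right h2 hδ
        _ = (K4 * A ^ K4 * (1 + K) : ℕ) * (R ^ (A * K4) * R ^ K) * δ := by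
            push_cast
            ring
        _ ≤ (K4 * A ^ K4 * (1 + K) : ℕ) * R ^ E * δ := by
            refine mul_le_mul_of_nonneg_right ?_ hδ
            exact mul_le_mul_of_nonneg_left h3 (by positivity)
    have hRE : (1 : ℝ) ≤ R ^ E := one_le_pow₀ hR
    obtain ⟨q1, q2⟩ := h5 c j N d ξ b s
    refine ⟨fun i => ?_, ?_⟩
    · -- the base coordinates
      have h1 : u 0 i = eval z (flow d (ξ 0) (s 0) i) := by
        have h6 := (h3 c j d (ξ 0) (b 0) (-s 0) (s 0) (u 0) hd hj (hξ 0) (hb 0)).1 i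
        rw [neg_add_cancel, flow_zeroT, eval_X] at h6
        exact h6.symm
      rw [q1 i, h1]
      refine (g2 i).trans (hbig.trans ?_)
      refine mul_le_mul_of_nonneg_right (mul_le_mul_of_nonneg_right ?_ (by positivity)) hδ
      have : K4 * A ^ K4 * (1 + K) ≤ E := by omega
      exact_mod_cast this
    · -- the height
      have h1 := (h3 c j d (ξ 0) (b 0) (-s 0) (s 0) (u 0) hd hj (hξ 0) (hb 0)).2
      rw [neg_add_cancel, hfl_zeroT, map_zero] at h1
      have h2 := hff 0
      have h6 : y - f 0 - eval s (wH d j (N + 1) ξ b) =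
          (y - f (0 + 1) - eval (fun a : Fin N => s a.succ)
            (wH d j N (fun a => ξ a.succ) (fun a => b a.succ))) +
          (f (0 + 1) - f 0 + eval (u 0) (hfl j (ξ 0) (b 0) (-s 0))) +
          (eval z (hfl j (ξ 0) (b 0) (s 0)) - eval v (hfl j (ξ 0) (b 0) (s 0))) := by
        rw [q2]
        have h7 : eval z (hfl j (ξ 0) (b 0) (s 0)) = -eval (u 0) (hfl j (ξ 0) (b 0) (-s 0)) := by
          linarith
        rw [h7]
        ring
      have h8 : |f (0 + 1) - f 0 + eval (u 0) (hfl j (ξ 0) (b 0) (-s 0))| ≤ δ := by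
        simpa using h2
      rw [h6]
      refine (abs_add_le _ _).trans ((add_le_add ((abs_add_le _ _).trans
        (add_le_add e2 h8)) g3).trans ?_)
      have h9 : (K : ℝ) * R ^ K * δ ≤ K * R ^ E * δ := by
        refine mul_le_mul_of_nonneg_right (mul_le_mul_of_nonneg_left ?_ (by positivity)) hδ
        exact pow_le_pow_right₀ hR (by omega)
      have h10 : δ ≤ 1 * R ^ E * δ := by nlinarith
      have h11 : ((K4 * A ^ K4 * (1 + K) : ℕ) : ℝ) * R ^ E * δ + K * R ^ E * δ + 1 * R ^ E * δ ≤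
          E * R ^ E * δ := by
        have h12 : ((K4 * A ^ K4 * (1 + K) : ℕ) : ℝ) + K + 1 ≤ E := by
          have : K4 * A ^ K4 * (1 + K) + K + 1 ≤ E := by omega
          exact_mod_cast this
        have h13 : 0 ≤ R ^ E * δ := by positivity
        nlinarith
      linarith

end Pool.STAT
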