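import Pool.Agent.H34.BFL.Pick

/-!
# The upper bound for the entropy of the end point of a walk
-/

set_option autoImplicit false

namespace Pool.STAT

open Finset Real
open Pool.Agent.H49.Ent Pool.Agent.H32.Dense Pool.STK Pool.KS3
open Pool.Agent.H34.BFL

/-- The entropy of the cells of the end point (base coordinates and height above the sheet), if the
rows of the height are not full given the base cells. -/
theorem upper {c : ℕ} {W : Type} [Fintype W] {μ : W → ℝ} (hμ : IsLaw μ) (XT : W → Fin c → ℝ)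
    (Yc : W → Fin c → ℤ) (h f : W → ℝ) (U P : ℕ) (E LY V R : ℝ) (hPU : P ≤ U) (hE : 0 ≤ E)
    (hXT : ∀ w w', 0 < μ w → 0 < μ w' → Yc w = Yc w' → ∀ i, |XT w i - XT w' i| ≤ E / 2 ^ U)
    (hf : ∀ w w', 0 < μ w → 0 < μ w' → Yc w = Yc w' → |f w - f w'| ≤ E / 2 ^ U)
    (hY : ∀ w w', 0 < μ w → 0 < μ w' → ∀ i, |((Yc w i - Yc w' i : ℤ) : ℝ)| ≤ LY)
    (hV : ∀ w w', 0 < μ w → 0 < μ w' → Yc w = Yc w' → |h w - h w'| ≤ V)
    (hR : ∀ w, 0 < μ w → (Set.ncard {k : ℤ | ∃ w', 0 < μ w' ∧ Yc w' = Yc w ∧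
      ⌊h w'⌋ = ⌊h w⌋ ∧ k = ⌊(2 : ℝ) ^ P * h w'⌋} : ℝ) ≤ Real.exp R)
    (Z : W → Fin (c + 1) → ℤ) (hZT : ∀ w, 0 < μ w → ∀ i : Fin c,
      Z w i.castSucc = ⌊(2 : ℝ) ^ U * XT w i⌋)
    (hZN : ∀ w, 0 < μ w → Z w (Fin.last c) = ⌊(2 : ℝ) ^ U * (h w - f w)⌋) :
    H μ Z ≤ c * Real.log (2 * LY + 1) + (Real.log (2 * (V + 1) + 1) + R + 2) +
      Real.log (2 * (2 ^ (U - P) + 2 * E + 1) + 1) + (c + 1) * Real.log (2 * (E + 1) + 1) := by
  classical
  have hp := hμ.nonneg
  have h2U : (0 : ℝ) < 2 ^ U := by positivity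
  -- a representative of the sheet
  obtain ⟨bs, hbs⟩ : ∃ bs : (Fin c → ℤ) → ℝ, ∀ w, 0 < μ w → |bs (Yc w) - f w| ≤ E / 2 ^ U := by
    refine ⟨fun y => if hy : ∃ w, 0 < μ w ∧ Yc w = y then f hy.choose else 0, ?_⟩
    intro w hw
    have hy : ∃ w', 0 < μ w' ∧ Yc w' = Yc w := ⟨w, hw, rfl⟩
    dsimp only
    rw [dif_pos hy]
    exact hf _ _ hy.choose_spec.1 hw hy.choose_spec.2
  obtain ⟨X, hX⟩ : ∃ X : W → ℤ, X = fun w => ⌊(2 : ℝ) ^ P * (h w - bs (Yc w))⌋ := ⟨_, rfl⟩
  -- the rows of the height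
  have h1 : CH μ X Yc ≤ Real.log (2 * (V + 1) + 1) + R + 2 := by
    have h2 := rows_le hμ h Yc bs P 0 V R hV (by
      intro w hw
      refine le_trans (le_of_eq ?_) (hR w hw)
      simp only [pow_zero, one_mul])
    rw [pow_zero, one_mul] at h2
    rw [hX]
    exact h2
  have h3 : CH μ (fun w => Z w (Fin.last c)) (fun w => (X w, Yc w)) ≤
      Real.log (2 * (2 ^ (U - P) + 2 * E + 1) + 1) := by
    have h4 := CH_le_int hp hμ.sum_one (fun w => Z w (Fin.last c)) (fun w => (X w, Yc w))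
      (fun _ => 2 ^ (U - P) + 2 * E + 1) (by
        intro w w' hw hw' e
        obtain ⟨e1, e2⟩ := Prod.ext_iff.mp e
        simp only at e1 e2
        rw [hZN w hw, hZN w' hw']
        refine (floor_sub_le _ _).trans ?_
        rw [hX] at e1
        simp only at e1
        have h5 := Int.abs_sub_lt_one_of_floor_eq_floor e1
        have h6 := hbs w hw
        have h7 := hbs w' hw'
        have e3 : (2 : ℝ) ^ U = 2 ^ (U - P) * 2 ^ P := by
          rw [← pow_add]
          congr 1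
          omega
        have e4 : (2 : ℝ) ^ U * (h w - f w) - 2 ^ U * (h w' - f w') =
            2 ^ (U - P) * (2 ^ P * (h w - bs (Yc w)) - 2 ^ P * (h w' - bs (Yc w'))) +
            2 ^ U * (bs (Yc w) - f w) - 2 ^ U * (bs (Yc w') - f w') := by
          rw [e3]
          ring
        have h8 : |(2 : ℝ) ^ (U - P) * (2 ^ P * (h w - bs (Yc w)) -
            2 ^ P * (h w' - bs (Yc w')))| ≤ 2 ^ (U - P) := by
          rw [abs_mul, abs_of_pos (by positivity : (0 : ℝ) < 2 ^ (U - P))]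
          exact mul_le_of_le_one_right (by positivity) h5.le
        have h9 : ∀ x : ℝ, |x| ≤ E / 2 ^ U → |2 ^ U * x| ≤ E := by
          intro x hx
          rw [abs_mul, abs_of_pos h2U]
          have := mul_le_mul_of_nonneg_left hx h2U.le
          have e5 : (2 : ℝ) ^ U * (E / 2 ^ U) = E := by field_simp
          linarith
        have h10 := h9 _ h6
        have h11 := h9 _ h7
        rw [e4]
        rw [abs_le] at h8 h10 h11
        have h12 : |2 ^ (U - P) * (2 ^ P * (h w - bs (Yc w)) - 2 ^ P * (h w' - bs (Yc w'))) +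
            2 ^ U * (bs (Yc w) - f w) - 2 ^ U * (bs (Yc w') - f w')| ≤ 2 ^ (U - P) + 2 * E := by
          rw [abs_le]
          constructor <;> linarith [h8.1, h8.2, h10.1, h10.2, h11.1, h11.2]
        linarith)
    rwa [Ex_const hμ.sum_one] at h4
  have h4 : CH μ Z (fun w => (Z w (Fin.last c), X w, Yc w)) ≤
      (c + 1 : ℕ) * Real.log (2 * (E + 1) + 1) := by
    have h5 := CH_le_vec hp hμ.sum_one Z (fun w => (Z w (Fin.last c), X w, Yc w))
      (fun _ => E + 1) (by
        intro w w' hw hw' e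
        obtain ⟨e1, e2⟩ := Prod.ext_iff.mp e
        obtain ⟨e2, e3⟩ := Prod.ext_iff.mp e2
        simp only at e1 e2 e3
        intro k
        refine Fin.lastCases ?_ (fun i => ?_) k
        · rw [e1, sub_self, Int.cast_zero, abs_zero]
          linarith
        · rw [hZT w hw, hZT w' hw']
          refine (floor_sub_le _ _).trans ?_
          have h6 := hXT w w' hw hw' e3 i
          rw [← mul_sub, abs_mul, abs_of_pos h2U]
          have := mul_le_mul_of_nonneg_left h6 h2U.le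
          have e5 : (2 : ℝ) ^ U * (E / 2 ^ U) = E := by field_simp
          linarith)
    rwa [Ex_const hμ.sum_one] at h5
  have h5 : H μ Yc ≤ c * Real.log (2 * LY + 1) := by
    exact H_vec_le hμ Yc LY fun w w' a b k => hY w w' a b k
  have h6 : H μ Z ≤ H μ (fun w => (Z w, Yc w)) :=
    H_mono hp (fun w w' _ _ e => (Prod.ext_iff.mp e).1)
  have h7 : H μ (fun w => (Z w, Yc w)) = CH μ Z Yc + H μ Yc := by
    unfold CH
    ring
  have h8 := CH_le_add hp Z X Yc
  have h9 := CH_le_add hp Z (fun w => Z w (Fin.last c)) (fun w => (X w, Yc w))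
  push_cast at h4
  linarith

end Pool.STAT
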