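import Pool.Agent.H31.STAT.WalkDet
import Pool.Agent.H31.STAT.Upper
import Pool.Agent.H39.BFL.Walk
import Pool.Agent.H39.BFL.KvL

/-!
# The weighted core, theorem (A): COUNT
-/

set_option autoImplicit false

namespace Pool.STAT

open Finset Real MvPolynomial
open Pool.Agent.H49.Ent Pool.Agent.H32.Dense Pool.STK Pool.KS3
open Pool.BFL (Pl CB Pb P2 MC alt)
open Pool.Agent.H39.BFL
open Pool.Agent.H34.BFL (pick Pb_le_add)

theorem lin_large (A b : ℝ) (hb : 0 < b) : ∃ U₀ : ℕ, ∀ U : ℕ, U₀ ≤ U → A ≤ b * U := by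
  obtain ⟨U₀, hU₀⟩ := exists_nat_ge (A / b)
  refine ⟨U₀, fun U hU => ?_⟩
  have h1 : A / b ≤ U := hU₀.trans (by exact_mod_cast hU)
  rw [div_le_iff₀ hb] at h1
  linarith only [h1]

/-- The numerical part of the upper bound. -/
theorem upper_num (c K2 KT : ℕ) (C₀ a BX : ℝ) (hC₀ : 1 ≤ C₀) (hBX : 0 ≤ BX) :
    ∃ C₂ : ℝ, ∀ (U P : ℕ) (θ τ' : ℝ), P ≤ U → 0 ≤ θ → 0 ≤ τ' →
      c * Real.log (2 * (2 * C₀ * 2 ^ U + 2 * C₀) + 1) +
      (Real.log (2 * ((2 * (BX * (K2 * Real.exp θ ^ K2) + KT * Real.exp θ ^ KT *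
        (Real.exp θ / 2 ^ U)) + 2 * C₀ * Real.exp θ / 2 ^ U) + 1) + 1) +
        ((1 - a) * P * Real.log 2 + θ) + 2) +
      Real.log (2 * (2 ^ (U - P) + 2 * (2 * C₀ * Real.exp θ) + 1) + 1) +
      (c + 1) * Real.log (2 * (2 * C₀ * Real.exp θ + 1) + 1) ≤
      (c + 1) * (U * Real.log 2) - a * P * Real.log 2 + C₂ + (K2 + KT + c + 4) * θ := by
  refine ⟨c * Real.log (9 * C₀) + Real.log (4 * (BX * K2 + KT) + 4 * C₀ + 3) + 2 +
    Real.log (13 * C₀) + (c + 1) * Real.log (7 * C₀), ?_⟩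
  intro U P θ τ' hPU hθ hτ'
  have hc0 : (0 : ℝ) ≤ c := Nat.cast_nonneg c
  have hK2 : (0 : ℝ) ≤ K2 := Nat.cast_nonneg K2
  have hKT : (0 : ℝ) ≤ KT := Nat.cast_nonneg KT
  have h2U1 : (1 : ℝ) ≤ 2 ^ U := one_le_pow₀ (by norm_num)
  have h2U : (0 : ℝ) < 2 ^ U := by positivity
  have he1 : 1 ≤ Real.exp θ := Real.one_le_exp hθ
  have he0 : 0 < Real.exp θ := Real.exp_pos θ
  -- (1)
  have h1 : Real.log (2 * (2 * C₀ * 2 ^ U + 2 * C₀) + 1) ≤ Real.log (9 * C₀) + U * Real.log 2 := by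
    have e : Real.log (9 * C₀) + U * Real.log 2 = Real.log (9 * C₀ * 2 ^ U) := by
      rw [Real.log_mul (x := 9 * C₀) (y := 2 ^ U) (by positivity) (by positivity), Real.log_pow]
    rw [e]
    refine Real.log_le_log (by positivity) ?_
    nlinarith only [hC₀, h2U1]
  -- (2)
  have h2 : Real.log (2 * ((2 * (BX * (K2 * Real.exp θ ^ K2) + KT * Real.exp θ ^ KT *
        (Real.exp θ / 2 ^ U)) + 2 * C₀ * Real.exp θ / 2 ^ U) + 1) + 1) ≤
      Real.log (4 * (BX * K2 + KT) + 4 * C₀ + 3) + (K2 + KT + 1) * θ := by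
    have e : Real.log (4 * (BX * K2 + KT) + 4 * C₀ + 3) + (K2 + KT + 1) * θ =
        Real.log ((4 * (BX * K2 + KT) + 4 * C₀ + 3) * Real.exp θ ^ (K2 + KT + 1)) := by
      rw [Real.log_mul (by positivity) (by positivity), Real.log_pow, Real.log_exp]
      push_cast
      ring
    rw [e]
    refine Real.log_le_log (by positivity) ?_
    have a1 : Real.exp θ ^ K2 ≤ Real.exp θ ^ (K2 + KT + 1) :=
      pow_le_pow_right₀ he1 (by omega)
    have a2 : Real.exp θ ^ KT * Real.exp θ ≤ Real.exp θ ^ (K2 + KT + 1) := by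
      rw [← pow_succ]
      exact pow_le_pow_right₀ he1 (by omega)
    have a3 : Real.exp θ ≤ Real.exp θ ^ (K2 + KT + 1) := by
      calc Real.exp θ = Real.exp θ ^ 1 := (pow_one _).symm
        _ ≤ _ := pow_le_pow_right₀ he1 (by omega)
    have a4 : (1 : ℝ) ≤ Real.exp θ ^ (K2 + KT + 1) := one_le_pow₀ he1
    have a5 : Real.exp θ ^ KT * (Real.exp θ / 2 ^ U) ≤ Real.exp θ ^ KT * Real.exp θ :=
      mul_le_mul_of_nonneg_left (div_le_self he0.le h2U1) (by positivity)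
    have a6 : 2 * C₀ * Real.exp θ / 2 ^ U ≤ 2 * C₀ * Real.exp θ :=
      div_le_self (by positivity) h2U1
    have b1 : BX * (K2 * Real.exp θ ^ K2) ≤ BX * (K2 * Real.exp θ ^ (K2 + KT + 1)) :=
      mul_le_mul_of_nonneg_left (mul_le_mul_of_nonneg_left a1 hK2) hBX
    have b2 : KT * Real.exp θ ^ KT * (Real.exp θ / 2 ^ U) ≤
        KT * Real.exp θ ^ (K2 + KT + 1) := by
      rw [mul_assoc]
      exact mul_le_mul_of_nonneg_left (a5.trans a2) hKT
    have b3 : 2 * C₀ * Real.exp θ / 2 ^ U ≤ 2 * C₀ * Real.exp θ ^ (K2 + KT + 1) :=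
      a6.trans (mul_le_mul_of_nonneg_left a3 (by positivity))
    have e2 : (4 * (BX * K2 + KT) + 4 * C₀ + 3) * Real.exp θ ^ (K2 + KT + 1) =
        4 * (BX * (K2 * Real.exp θ ^ (K2 + KT + 1))) + 4 * (KT * Real.exp θ ^ (K2 + KT + 1)) +
        2 * (2 * C₀ * Real.exp θ ^ (K2 + KT + 1)) + 3 * Real.exp θ ^ (K2 + KT + 1) := by ring
    rw [e2]
    linarith only [he1, a3, b1, b2, b3]
  -- (3)
  have h3 : Real.log (2 * (2 ^ (U - P) + 2 * (2 * C₀ * Real.exp θ) + 1) + 1) ≤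
      Real.log (13 * C₀) + θ + ((U : ℝ) - P) * Real.log 2 := by
    have e : Real.log (13 * C₀) + θ + ((U : ℝ) - P) * Real.log 2 =
        Real.log (13 * C₀ * Real.exp θ * 2 ^ (U - P)) := by
      rw [Real.log_mul (x := 13 * C₀ * Real.exp θ) (y := 2 ^ (U - P)) (by positivity)
        (by positivity), Real.log_mul (x := 13 * C₀) (by positivity) he0.ne',
        Real.log_pow, Real.log_exp, Nat.cast_sub hPU]
    rw [e]
    refine Real.log_le_log (by positivity) ?_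
    have a1 : (1 : ℝ) ≤ 2 ^ (U - P) := one_le_pow₀ (by norm_num)
    have a2 : 1 ≤ C₀ * Real.exp θ := by nlinarith only [hC₀, he1]
    have a3 : 2 ^ (U - P) ≤ C₀ * Real.exp θ * 2 ^ (U - P) :=
      le_mul_of_one_le_left (by positivity) a2
    have a4 : C₀ * Real.exp θ ≤ C₀ * Real.exp θ * 2 ^ (U - P) :=
      le_mul_of_one_le_right (by positivity) a1
    have e2 : 13 * C₀ * Real.exp θ * 2 ^ (U - P) = 13 * (C₀ * Real.exp θ * 2 ^ (U - P)) := by ring
    rw [e2]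
    nlinarith only [a1, a3, a4]
  -- (4)
  have h4 : Real.log (2 * (2 * C₀ * Real.exp θ + 1) + 1) ≤ Real.log (7 * C₀) + θ := by
    have e : Real.log (7 * C₀) + θ = Real.log (7 * C₀ * Real.exp θ) := by
      rw [Real.log_mul (by positivity) he0.ne', Real.log_exp]
    rw [e]
    refine Real.log_le_log (by positivity) ?_
    nlinarith only [hC₀, he1]
  have h5 := mul_le_mul_of_nonneg_left h1 hc0
  have h6 := mul_le_mul_of_nonneg_left h4 (by positivity : (0 : ℝ) ≤ (c : ℝ) + 1)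
  nlinarith only [h2, h3, h5, h6]

theorem cnt_of (h1 : Flw1Stmt) (h2 : Flw2Stmt) (hT : TrwStmt) (hF : FibStmt) : CntStmt := by
  classical
  intro c j N d C₀ a ρ hN hC₀ ha hρ hρ1
  by_cases hdj : (∀ i, 1 ≤ d i) ∧ 1 ≤ j
  swap
  · refine ⟨1, one_pos, fun η hη => ⟨1, one_pos, 0, ?_⟩⟩
    intro U m _ _ Ω G B 𝔅 𝒱 _ p g bk β V tm pT pN ΘT FN ξT ξN yc hC _ _
    exact absurd ⟨hC.d_pos, hC.j_pos⟩ hdj
  obtain ⟨hd, hj⟩ := hdj
  have hl2 : 0 < Real.log 2 := Real.log_pos (by norm_num)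
  obtain ⟨D, hD⟩ : ∃ D : ℕ, D = (∑ i, d i) + j := ⟨_, rfl⟩
  have hDi : ∀ i, d i ≤ D := fun i => by
    have := Finset.single_le_sum (f := d) (fun i _ => Nat.zero_le _) (Finset.mem_univ i)
    omega
  obtain ⟨C₁, hC₁, hF1⟩ := hF (c + 1) N D C₀ hN hC₀
  obtain ⟨κ, hκ⟩ : ∃ κ : ℝ, κ = min 1 (a * ρ * Real.log 2 / (4 * C₁)) := ⟨_, rfl⟩
  have hκ0 : 0 < κ := by rw [hκ]; exact lt_min one_pos (by positivity)
  have hκ1 : κ ≤ 1 := by rw [hκ]; exact min_le_left _ _
  have hκ2 : C₁ * κ ≤ a * ρ * Real.log 2 / 4 := by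
    have h3 : κ ≤ a * ρ * Real.log 2 / (4 * C₁) := by rw [hκ]; exact min_le_right _ _
    rw [le_div_iff₀ (by positivity)] at h3
    linarith only [h3]
  obtain ⟨τF, hτF, UF, hF2⟩ := hF1 κ hκ0 hκ1
  obtain ⟨K2, hK2⟩ := h2 c j N d hd hj
  obtain ⟨KT, hKT⟩ := walk_det (c := c) (j := j) hT d hd hj N hN
  obtain ⟨BX, hBX⟩ : ∃ BX : ℝ, BX = ((Pool.Agent.H36.KBX.bx N D).card : ℝ) := ⟨_, rfl⟩
  have hBX0 : 0 ≤ BX := by rw [hBX]; positivity
  obtain ⟨C₂, hC₂⟩ := upper_num c K2 KT C₀ a BX hC₀ hBX0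
  refine ⟨κ, hκ0, ?_⟩
  intro η hη
  obtain ⟨M, hM⟩ : ∃ M : ℝ, M = (K2 : ℝ) + KT + c + 4 := ⟨_, rfl⟩
  have hM0 : 0 < M := by rw [hM]; positivity
  have hN1 : (1 : ℝ) ≤ N := by exact_mod_cast hN
  -- the constant `τ`
  obtain ⟨τ, hτ⟩ : ∃ τ : ℝ, τ = min (min (τF / (2 * (K2 + KT + 1))) (τF * η / (16 * N)))
    (min (min (η / (2 * (N + 1))) (Real.log 2)) (a * ρ * Real.log 2 / (4 * M))) := ⟨_, rfl⟩
  have hτ0 : 0 < τ := by
    rw [hτ]
    refine lt_min (lt_min (by positivity) (by positivity)) (lt_min (lt_min (by positivity) hl2)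
      (by positivity))
  have t1 : (K2 + KT + 1) * τ ≤ τF / 2 := by
    have h3 : τ ≤ τF / (2 * (K2 + KT + 1)) := by
      rw [hτ]; exact (min_le_left _ _).trans (min_le_left _ _)
    rw [le_div_iff₀ (by positivity)] at h3
    linarith only [h3]
  have t2 : 8 * N * τ / η ≤ τF / 2 := by
    have h3 : τ ≤ τF * η / (16 * N) := by
      rw [hτ]; exact (min_le_left _ _).trans (min_le_right _ _)
    rw [le_div_iff₀ (by positivity)] at h3
    rw [div_le_iff₀ hη]
    linarith only [h3]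
  have t3 : (N + 1) * τ ≤ η / 2 := by
    have h3 : τ ≤ η / (2 * (N + 1)) := by
      rw [hτ]; exact (min_le_right _ _).trans ((min_le_left _ _).trans (min_le_left _ _))
    rw [le_div_iff₀ (by positivity)] at h3
    linarith only [h3]
  have t4 : τ ≤ Real.log 2 := by
    rw [hτ]; exact (min_le_right _ _).trans ((min_le_left _ _).trans (min_le_right _ _))
  have t5 : M * τ ≤ a * ρ * Real.log 2 / 4 := by
    have h3 : τ ≤ a * ρ * Real.log 2 / (4 * M) := by
      rw [hτ]; exact (min_le_right _ _).trans (min_le_right _ _)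
    rw [le_div_iff₀ (by positivity)] at h3
    linarith only [h3]
  obtain ⟨U1, hU1⟩ := exp_large (max (K2 : ℝ) (KT + 1)) (τF / 2) (by positivity)
  obtain ⟨U2, hU2⟩ := lin_large (4 * (3 * N + 1) / η) (τF / 2) (by positivity)
  obtain ⟨U3, hU3⟩ := lin_large (a * Real.log 2 + C₂ + 1) (a * ρ * Real.log 2 / 4)
    (by positivity)
  refine ⟨τ, hτ0, max UF (max U1 (max U2 U3)), ?_⟩
  intro U m hU hmU Ω G B 𝔅 𝒱 _ p g bk β V tm pT pN ΘT FN ξT ξN yc hC hyc hcount
  have hUF : UF ≤ U := le_trans (le_max_left _ _) hU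
  have hUU1 : U1 ≤ U := le_trans (le_trans (le_max_left _ _) (le_max_right _ _)) hU
  have hUU2 : U2 ≤ U := le_trans (le_trans (le_max_left _ _) (le_trans (le_max_right _ _)
    (le_max_right _ _))) hU
  have hUU3 : U3 ≤ U := le_trans (le_trans (le_max_right _ _) (le_trans (le_max_right _ _)
    (le_max_right _ _))) hU
  obtain ⟨θ, hθ⟩ : ∃ θ : ℝ, θ = τ * U := ⟨_, rfl⟩
  rw [← hθ] at hC hcount
  have hU0 : (0 : ℝ) ≤ U := Nat.cast_nonneg U
  have hθ0 : 0 ≤ θ := by rw [hθ]; positivity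
  have h2m : (0 : ℝ) < 2 ^ m := by positivity
  have h2U : (0 : ℝ) < 2 ^ U := by positivity
  have h2Ue : (2 : ℝ) ^ U = Real.exp (U * Real.log 2) := by
    rw [← Real.rpow_natCast, Real.rpow_def_of_pos (by norm_num), mul_comm]
  have hθU : Real.exp θ ≤ 2 ^ U := by
    rw [h2Ue, hθ]
    refine Real.exp_le_exp.2 ?_
    have := mul_le_mul_of_nonneg_right t4 hU0
    linarith only [this]
  obtain ⟨W, instW, q, z, hMC⟩ := Pool.Agent.H67.BFL.mch_thm Ω (G ⊕ B) p (alt g bk) (2 * N - 1)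
    hC.isLaw
  refine ⟨W, instW, q, z, hMC, ?_⟩
  have hq := hMC.isLaw
  have hq0 := hq.nonneg
  by_contra hcon
  push Not at hcon
  -- positivity, labels
  have hpos : ∀ i ≤ 2 * N - 1, ∀ w, 0 < q w → 0 < p (z i w) :=
    fun i hi w hw => (hMC.marg i hi).pos hq0 hw
  have hβc := beta_const hMC hC.bk_β hC.g_β
  have hg : ∀ w, 0 < q w → ∀ a < N, g (z (2 * a) w) = g (z (2 * a + 1) w) :=
    fun w hw a ha => same_g hMC hw (by omega) (by omega)
  have hb : ∀ w, 0 < q w → ∀ a, a + 1 < N → bk (z (2 * a + 1) w) = bk (z (2 * a + 2) w) :=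
    fun w hw a ha => same_bk hMC hw (by omega) (by omega)
  -- the lengths
  set S : W → Fin N → ℤ := fun w a => tm (z (2 * a + 1) w) - tm (z (2 * a) w) with hS
  set S' : W → Fin N → ℤ := fun w a => if |S w a| ≤ 2 ^ m then S w a else 0 with hS'
  have hSS : ∀ w, 0 < q w → S' w = S w := by
    intro w hw
    funext a
    simp only [hS']
    rw [if_pos]
    exact hC.tm_g _ _ (hg w hw a a.2)
  have hS'le : ∀ w a, |S' w a| ≤ 2 ^ m := by
    intro w a
    simp only [hS']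
    split_ifs with h
    · exact h
    · rw [abs_zero]
      positivity
  set v : W → (Fin N → 𝒱) × B := fun w => ((fun a : Fin N => V (z (2 * a) w)), bk (z 0 w)) with hv
  have hWLE := wle_thm Ω G B 𝔅 𝒱 W p g bk β V tm N q z (m * Real.log 2 - θ) θ hC.isLaw (by omega)
    hMC hC.bk_β hC.g_β hC.bk_tm hC.timeFull hC.indep
  have hCH : CH q S' v = CH q S v := by
    refine CH_congr hq0 ?_ ?_ (fun _ _ _ _ e => e) (fun _ _ _ _ e => e)
    · intro w w' hw hw' e
      rw [← hSS w hw, ← hSS w' hw']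
      exact (Prod.ext_iff.mp e).1
    · intro w w' hw hw' e
      rw [hSS w hw, hSS w' hw']
      exact (Prod.ext_iff.mp e).1
  have hHs : N * (m * Real.log 2) - (2 * N) * θ ≤ CH q S' v := by
    rw [hCH]
    refine le_trans ?_ hWLE
    nlinarith only [hθ0]
  -- the events
  obtain ⟨Gd, hGd⟩ : ∃ Gd : W → Prop, Gd = fun w =>
    (∀ a : Fin N, TrL d j U m C₀ θ bk β V tm ΘT FN ξT ξN (z (2 * a) w)
      (z (2 * a + 1) w)) ∧ Own U θ bk pT pN ΘT FN (z (2 * N - 1) w) := ⟨_, rfl⟩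
  obtain ⟨KK, hKK⟩ : ∃ KK : W → Prop, KK = fun w =>
    ¬ Flat d j (lgT β V ξT N z w) (lgN β V ξN N z w) (Real.exp (-(κ * U))) := ⟨_, rfl⟩
  have hPG : Pb q (fun w => ¬ Gd w) ≤ η / 2 := by
    rw [hGd]
    exact (gd_prob hC hMC).trans t3
  have hPK : η ≤ Pb q KK := by
    have h3 := Pb_le_add hq0 (fun _ => True)
      (fun w => Flat d j (lgT β V ξT N z w) (lgN β V ξN N z w) (Real.exp (-(κ * U))))
    have h4 : Pb q (fun _ : W => True) = 1 := by
      unfold Pb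
      simp only [if_true]
      exact hq.sum_one
    rw [h4] at h3
    simp only [and_true] at h3
    rw [hKK]
    linarith only [hcon, h3]
  have hP : η / 2 ≤ Pb q (fun w => Gd w ∧ KK w) := by
    have h3 := Pb_le_add hq0 KK Gd
    linarith only [hPG, hPK, h3]
  obtain ⟨w₀, hw₀, hG₀, hK₀, hH₀⟩ := pick hq S' m hS'le v Gd KK (2 * N * θ) (η / 2)
    (by positivity) (by positivity) hHs hP
  obtain ⟨Z, hZ⟩ : ∃ Z : W → Prop × ((Fin N → 𝒱) × B), Z = fun w => (Gd w, v w) := ⟨_, rfl⟩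
  rw [← hZ] at hH₀
  obtain ⟨μ, hμe⟩ : ∃ μ : W → ℝ, μ = cond q Z (Gd w₀, v w₀) := ⟨_, rfl⟩
  rw [← hμe] at hH₀
  have hμ : IsLaw μ := by
    have h3 : 0 < law q Z (Gd w₀, v w₀) := by
      have h4 := law_pos hq0 Z hw₀
      rw [hZ] at h4 ⊢
      exact h4
    rw [hμe]
    exact ⟨cond_nonneg hq0 Z _, sum_cond q Z h3.ne'⟩
  have hsupp : ∀ w, 0 < μ w → 0 < q w ∧ Gd w ∧ v w = v w₀ := by
    intro w hw
    rw [hμe, cond_pos_iff hq0] at hw
    have h3 := hw.2
    rw [hZ] at h3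
    simp only [Prod.mk.injEq] at h3
    exact ⟨hw.1, by rw [h3.1]; exact hG₀, h3.2⟩
  -- the fields of the legs are fixed
  have hleg : ∀ w, 0 < μ w → lgT β V ξT N z w = lgT β V ξT N z w₀ ∧
      lgN β V ξN N z w = lgN β V ξN N z w₀ ∧ bk (z 0 w) = bk (z 0 w₀) := by
    intro w hw
    obtain ⟨a1, -, a3⟩ := hsupp w hw
    have a4 : bk (z 0 w) = bk (z 0 w₀) := (Prod.ext_iff.mp a3).2
    have a5 : ∀ a : Fin N, V (z (2 * a) w) = V (z (2 * a) w₀) :=
      fun a => congrFun (Prod.ext_iff.mp a3).1 a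
    have a6 : β (z 0 w) = β (z 0 w₀) :=
      hC.bk_β _ _ (hpos 0 (by omega) w a1) (hpos 0 (by omega) w₀ hw₀) a4
    have a7 : ∀ a : Fin N, β (z (2 * a) w) = β (z (2 * a) w₀) := by
      intro a
      rw [← hβc w a1 (2 * a) (by have := a.2; omega), ← hβc w₀ hw₀ (2 * a) (by have := a.2; omega)]
      exact a6
    refine ⟨?_, ?_, a4⟩
    · funext a
      unfold lgT
      rw [a5 a, a7 a]
    · funext a
      unfold lgN
      rw [a5 a, a7 a]
  -- the bad minor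
  rw [hKK] at hK₀
  unfold Flat at hK₀
  push Not at hK₀
  obtain ⟨e, he⟩ := hK₀
  obtain ⟨A, hA⟩ : ∃ A : Fin (c + 1) → Pl N, A = (Fin.snoc (wT d N (lgT β V ξT N z w₀))
    (wH d j N (lgT β V ξT N z w₀) (lgN β V ξN N z w₀)) : Fin (c + 1) → Pl N) := ⟨_, rfl⟩
  have hAi : ∀ i : Fin c, A i.castSucc = wT d N (lgT β V ξT N z w₀) i := by
    intro i
    rw [hA]
    exact Fin.snoc_castSucc (α := fun _ => Pl N) _ _ i
  have hAl : A (Fin.last c) = wH d j N (lgT β V ξT N z w₀) (lgN β V ξN N z w₀) := by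
    rw [hA]
    exact Fin.snoc_last (α := fun _ => Pl N) _ _
  have hvf : ∀ a, VF d (lgT β V ξT N z w₀ a) := fun a => hC.ξT_vf _ _
  have hvN : ∀ a, (lgN β V ξN N z w₀ a).IsWeightedHomogeneous d (j - 1) := fun a => hC.ξN_hom _ _
  obtain ⟨f1, f2⟩ := h1 c j N d (lgT β V ξT N z w₀) (lgN β V ξN N z w₀) hd hj hvf hvN
  obtain ⟨g1, g2⟩ := hK2 (Real.exp θ) (Real.one_le_exp hθ0) (lgT β V ξT N z w₀)
    (lgN β V ξN N z w₀) hvf hvN (fun a i => hC.ξT_le _ _ i) (fun a => hC.ξN_le _ _)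
  have hAdeg : ∀ i, (A i).totalDegree ≤ D := by
    intro i
    refine Fin.lastCases ?_ (fun i => ?_) i
    · rw [hAl]
      exact f2.totalDegree_le.trans (by omega)
    · rw [hAi]
      exact (f1 i).totalDegree_le.trans (hDi i)
  have hexpK : ∀ K : ℕ, Real.exp θ ^ K = Real.exp (K * θ) := fun K => (Real.exp_nat_mul θ K).symm
  have hAcb : ∀ i, CB (A i) (Real.exp (τF * U)) := by
    have h3 : (K2 : ℝ) * Real.exp θ ^ K2 ≤ Real.exp (τF * U) := by
      have h4 : (K2 : ℝ) ≤ Real.exp (τF / 2 * U) := (le_max_left _ _).trans (hU1 U hUU1)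
      have h5 : Real.exp θ ^ K2 ≤ Real.exp (τF / 2 * U) := by
        rw [hexpK]
        refine Real.exp_le_exp.2 ?_
        rw [hθ]
        have h6 : (K2 : ℝ) * τ ≤ τF / 2 := by
          have : 0 ≤ (KT + 1 : ℝ) * τ := by positivity
          linarith only [t1, this]
        have := mul_le_mul_of_nonneg_right h6 hU0
        linarith only [this]
      calc (K2 : ℝ) * Real.exp θ ^ K2 ≤ Real.exp (τF / 2 * U) * Real.exp (τF / 2 * U) :=
            mul_le_mul h4 h5 (by positivity) (Real.exp_pos _).le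
        _ = Real.exp (τF * U) := by
          rw [← Real.exp_add]
          congr 1
          ring
    intro i
    refine Fin.lastCases ?_ (fun i => ?_) i
    · rw [hAl]
      exact fun k => (g2 k).trans h3
    · rw [hAi]
      exact fun k => (g1 i k).trans h3
  have he' : ¬ CB (Matrix.det (Matrix.of fun i k => pderiv (e k) (A i)))
      (Real.exp (-(κ * U))) := by
    rw [hA]
    exact he
  -- the cells
  set en : W → Ω := fun w => z (2 * N - 1) w with hen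
  set XT : W → Fin c → ℝ := fun w => ΘT (bk (z 0 w₀)) (pT (en w)) with hXT
  set ff : W → ℝ := fun w => FN (bk (z 0 w₀)) (pT (en w)) with hff
  set hh : W → ℝ := fun w => pN (en w) with hhh
  obtain ⟨ZZ, hZZ⟩ : ∃ ZZ : W → Fin (c + 1) → ℤ, ZZ = fun w => (Fin.snoc (fun i =>
    ⌊(2 : ℝ) ^ U * XT w i⌋) ⌊(2 : ℝ) ^ U * (hh w - ff w)⌋ : Fin (c + 1) → ℤ) := ⟨_, rfl⟩
  have hZT : ∀ w (i : Fin c), ZZ w i.castSucc = ⌊(2 : ℝ) ^ U * XT w i⌋ := by
    intro w i
    rw [hZZ]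
    exact Fin.snoc_castSucc (α := fun _ => ℤ) _ _ i
  have hZN : ∀ w, ZZ w (Fin.last c) = ⌊(2 : ℝ) ^ U * (hh w - ff w)⌋ := by
    intro w
    rw [hZZ]
    exact Fin.snoc_last (α := fun _ => ℤ) _ _
  have hpen : ∀ w, 0 < μ w → ∀ i, |pT (en w) i| ≤ C₀ := fun w hw =>
    hC.pT_le _ (hpos _ le_rfl w (hsupp w hw).1)
  have hwd : ∀ w, 0 < μ w →
      (∀ i : Fin c, |XT w i - eval (fun a : Fin N => (S' w a : ℝ) / 2 ^ m) (A i.castSucc)| ≤
        KT * Real.exp θ ^ KT * (Real.exp θ / 2 ^ U)) ∧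
      |hh w - ff w - eval (fun a : Fin N => (S' w a : ℝ) / 2 ^ m) (A (Fin.last c))| ≤
        KT * Real.exp θ ^ KT * (Real.exp θ / 2 ^ U) := by
    intro w hw
    obtain ⟨a1, a2, -⟩ := hsupp w hw
    obtain ⟨l1, l2, l3⟩ := hleg w hw
    rw [hGd] at a2
    obtain ⟨b1, b2⟩ := hKT hC hθ0 hθU (fun i => z i w) (hpos _ le_rfl w a1) (hg w a1) (hb w a1) a2.1 a2.2
    have e1 : (fun a : Fin N => (S' w a : ℝ) / 2 ^ m) =
        fun a : Fin N => ((tm (z (2 * a + 1) w) - tm (z (2 * a) w) : ℤ) : ℝ) / 2 ^ m := by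
      rw [hSS w a1]
    have e2 : (fun a : Fin N => ξT (V (z (2 * a) w)) (β (z (2 * a) w))) =
        lgT β V ξT N z w₀ := by rw [← l1]; rfl
    have e3 : (fun a : Fin N => ξN (V (z (2 * a) w)) (β (z (2 * a) w))) =
        lgN β V ξN N z w₀ := by rw [← l2]; rfl
    rw [e1]
    simp only [e2, e3, l3] at b1 b2
    refine ⟨fun i => ?_, ?_⟩
    · rw [hAi]
      exact b1 i
    · rw [hAl]
      exact b2
  have hcell : ∀ w, 0 < μ w → ∀ i, |(ZZ w i : ℝ) -
      2 ^ U * eval (fun a => (S' w a : ℝ) / 2 ^ m) (A i)| ≤ Real.exp (τF * U) := by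
    have h3 : (KT : ℝ) * Real.exp θ ^ KT * Real.exp θ + 1 ≤ Real.exp (τF * U) := by
      have h4 : (KT : ℝ) + 1 ≤ Real.exp (τF / 2 * U) := (le_max_right _ _).trans (hU1 U hUU1)
      have h5 : Real.exp θ ^ KT * Real.exp θ ≤ Real.exp (τF / 2 * U) := by
        rw [← pow_succ, hexpK]
        refine Real.exp_le_exp.2 ?_
        rw [hθ]
        have h6 : ((KT + 1 : ℕ) : ℝ) * τ ≤ τF / 2 := by
          have : 0 ≤ (K2 : ℝ) * τ := by positivity
          push_cast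
          linarith only [t1, this]
        have := mul_le_mul_of_nonneg_right h6 hU0
        linarith only [this]
      have h6 : (1 : ℝ) ≤ Real.exp θ ^ KT * Real.exp θ := by
        rw [← pow_succ]
        exact one_le_pow₀ (Real.one_le_exp hθ0)
      calc (KT : ℝ) * Real.exp θ ^ KT * Real.exp θ + 1
          ≤ (KT + 1) * (Real.exp θ ^ KT * Real.exp θ) := by nlinarith only [h6]
        _ ≤ Real.exp (τF / 2 * U) * Real.exp (τF / 2 * U) :=
            mul_le_mul h4 h5 (by positivity) (Real.exp_pos _).le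
        _ = Real.exp (τF * U) := by
          rw [← Real.exp_add]
          congr 1
          ring
    have h4 : ∀ (x y : ℝ), |x - y| ≤ KT * Real.exp θ ^ KT * (Real.exp θ / 2 ^ U) →
        |((⌊(2 : ℝ) ^ U * x⌋ : ℤ) : ℝ) - 2 ^ U * y| ≤ Real.exp (τF * U) := by
      intro x y hxy
      have h5 := Int.floor_le ((2 : ℝ) ^ U * x)
      have h6 := Int.lt_floor_add_one ((2 : ℝ) ^ U * x)
      have h7 : |(2 : ℝ) ^ U * x - 2 ^ U * y| ≤ KT * Real.exp θ ^ KT * Real.exp θ := by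
        rw [← mul_sub, abs_mul, abs_of_pos h2U]
        refine (mul_le_mul_of_nonneg_left hxy h2U.le).trans (le_of_eq ?_)
        field_simp
      rw [abs_le] at h7 ⊢
      constructor <;> linarith [h7.1, h7.2]
    intro w hw i
    obtain ⟨b1, b2⟩ := hwd w hw
    refine Fin.lastCases ?_ (fun i => ?_) i
    · rw [hZN]
      exact h4 _ _ b2
    · rw [hZT]
      exact h4 _ _ (b1 i)
  -- the lower bound
  have hlow := hF2 U m hUF hC.m_ge hmU W μ S' A e ZZ (fun w => 0 < μ w) hμ hS'le (by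
      refine le_trans ?_ hH₀
      have h3 : 2 * (2 * N * θ + 3 * N + 1) / (η / 2) = 8 * N * τ / η * U +
          4 * (3 * N + 1) / η := by
        rw [hθ]
        field_simp
        ring
      rw [h3]
      have h4 := mul_le_mul_of_nonneg_right t2 hU0
      have h5 := hU2 U hUU2
      linarith only [h4, h5]) hAdeg hAcb he' (by
      have h3 : Pb μ (fun w => ¬ 0 < μ w) = 0 := by
        unfold Pb
        refine Finset.sum_eq_zero fun w _ => ?_
        split_ifs with h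
        · have := hμ.nonneg w
          linarith only [this, h, not_lt.mp h]
        · rfl
      rw [h3]
      exact hτF.le) hcell
  -- the upper bound
  obtain ⟨P, hPe⟩ : ∃ P : ℕ, P = ⌊ρ * U⌋₊ := ⟨_, rfl⟩
  have hP1 : (P : ℝ) ≤ ρ * U := by
    rw [hPe]
    exact Nat.floor_le (by positivity)
  have hP2 : ρ * U - 1 ≤ P := by
    have := Nat.lt_floor_add_one (ρ * U)
    rw [← hPe] at this
    linarith only [this]
  have hPU : P ≤ U := by
    have h3 : (P : ℝ) ≤ U := hP1.trans (by nlinarith only [hρ1])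
    exact_mod_cast h3
  have hcl : ∀ w w', yc (en w) = yc (en w') → ∀ i, |pT (en w) i - pT (en w') i| ≤
      2 * C₀ / 2 ^ U := by
    intro w w' e i
    have a1 := hyc (en w) i
    have a2 := hyc (en w') i
    rw [e] at a1
    have a3 : |2 ^ U * pT (en w) i - 2 ^ U * pT (en w') i| ≤ 2 * C₀ := by
      rw [abs_le] at a1 a2 ⊢
      constructor <;> linarith only [a1, a2, a1.1, a1.2, a2.1, a2.2]
    rw [← mul_sub, abs_mul, abs_of_pos h2U] at a3
    rw [le_div_iff₀ h2U]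
    linarith only [a3]
  have hupp := upper hμ XT (fun w => yc (en w)) hh ff U P (2 * C₀ * Real.exp θ)
    (2 * C₀ * 2 ^ U + 2 * C₀) (2 * (BX * (K2 * Real.exp θ ^ K2) + KT * Real.exp θ ^ KT *
        (Real.exp θ / 2 ^ U)) + 2 * C₀ * Real.exp θ / 2 ^ U) ((1 - a) * P * Real.log 2 + θ) hPU
    (by positivity)
    (fun w w' hw hw' e i => by
      have a1 := hC.ΘT_lip (bk (z 0 w₀)) (pT (en w)) (pT (en w')) (hpen w hw) (hpen w' hw')
        (2 * C₀ / 2 ^ U) (hcl w w' e) i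
      refine a1.trans (le_of_eq ?_)
      ring)
    (fun w w' hw hw' e => by
      have a1 := hC.FN_lip (bk (z 0 w₀)) (pT (en w)) (pT (en w')) (hpen w hw) (hpen w' hw')
        (2 * C₀ / 2 ^ U) (hcl w w' e)
      refine a1.trans (le_of_eq ?_)
      ring)
    (fun w w' hw hw' i => by
      have a1 := hyc (en w) i
      have a2 := hyc (en w') i
      have a3 := hpen w hw i
      have a4 := hpen w' hw' i
      have a5 : |2 ^ U * pT (en w) i| ≤ C₀ * 2 ^ U := by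
        rw [abs_mul, abs_of_pos h2U, mul_comm]
        exact mul_le_mul_of_nonneg_right a3 h2U.le
      have a6 : |2 ^ U * pT (en w') i| ≤ C₀ * 2 ^ U := by
        rw [abs_mul, abs_of_pos h2U, mul_comm]
        exact mul_le_mul_of_nonneg_right a4 h2U.le
      push_cast
      rw [abs_le] at a1 a2 a5 a6 ⊢
      constructor <;> linarith only [a1, a2, a5, a6, a1.1, a1.2, a2.1, a2.2, a5.1, a5.2, a6.1, a6.2])
    (fun w w' hw hw' e => by
      obtain ⟨-, b2⟩ := hwd w hw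
      obtain ⟨-, b2'⟩ := hwd w' hw'
      have a1 := hC.FN_lip (bk (z 0 w₀)) (pT (en w)) (pT (en w')) (hpen w hw) (hpen w' hw')
        (2 * C₀ / 2 ^ U) (hcl w w' e)
      have a2 : |ff w - ff w'| ≤ 2 * C₀ * Real.exp θ / 2 ^ U := by
        refine a1.trans (le_of_eq ?_)
        ring
      have hev : ∀ w, |eval (fun a : Fin N => (S' w a : ℝ) / 2 ^ m) (A (Fin.last c))| ≤
          BX * (K2 * Real.exp θ ^ K2) := by
        intro w
        have b3 := Pool.Agent.H36.KBX.eval_bound (A (Fin.last c)) (hAdeg _)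
          (K2 * Real.exp θ ^ K2) 1 le_rfl (by rw [hAl]; exact g2)
          (fun a : Fin N => (S' w a : ℝ) / 2 ^ m) (fun a => by
            rw [abs_div, abs_of_pos h2m, div_le_one h2m]
            exact_mod_cast hS'le w a)
        rw [one_pow, mul_one] at b3
        rw [hBX]
        exact b3
      have c1 := hev w
      have c2 := hev w'
      rw [abs_le] at b2 b2' a2 c1 c2 ⊢
      constructor <;> linarith only [b2, b2', a2, c1, c2, b2.1, b2.2, b2'.1, b2'.2, a2.1, a2.2, c1.1, c1.2, c2.1, c2.2])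
    (by
      intro w hw
      obtain ⟨a1, -, -⟩ := hsupp w hw
      have hpw := hpos (2 * N - 1) le_rfl w a1
      refine le_trans ?_ (hcount P hP1 (z (2 * N - 1) w) hpw)
      have hfin : Set.Finite {k : ℤ | ∃ ω', 0 < p ω' ∧ β ω' = β (z (2 * N - 1) w) ∧
          yc ω' = yc (z (2 * N - 1) w) ∧ ⌊pN ω'⌋ = ⌊pN (z (2 * N - 1) w)⌋ ∧
          k = ⌊(2 : ℝ) ^ P * pN ω'⌋} := by
        refine (Set.finite_range (fun ω' : Ω => ⌊(2 : ℝ) ^ P * pN ω'⌋)).subset ?_
        rintro k ⟨ω', _, _, _, _, rfl⟩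
        exact ⟨ω', rfl⟩
      have hsub : {k : ℤ | ∃ w', 0 < μ w' ∧ yc (en w') = yc (en w) ∧ ⌊hh w'⌋ = ⌊hh w⌋ ∧
          k = ⌊(2 : ℝ) ^ P * hh w'⌋} ⊆
          {k : ℤ | ∃ ω', 0 < p ω' ∧ β ω' = β (z (2 * N - 1) w) ∧
          yc ω' = yc (z (2 * N - 1) w) ∧ ⌊pN ω'⌋ = ⌊pN (z (2 * N - 1) w)⌋ ∧
          k = ⌊(2 : ℝ) ^ P * pN ω'⌋} := by
        rintro k ⟨w', hw', e2, e3, rfl⟩
        obtain ⟨a1', -, -⟩ := hsupp w' hw'
        obtain ⟨-, -, l3⟩ := hleg w hw
        obtain ⟨-, -, l3'⟩ := hleg w' hw'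
        refine ⟨z (2 * N - 1) w', hpos _ le_rfl w' a1', ?_, e2, e3, rfl⟩
        rw [← hβc w' a1' _ le_rfl, ← hβc w a1 _ le_rfl]
        exact hC.bk_β _ _ (hpos 0 (by omega) w' a1') (hpos 0 (by omega) w a1)
          (l3'.trans l3.symm)
      exact_mod_cast Set.ncard_le_ncard hsub hfin)
    ZZ (fun w _ i => hZT w i) (fun w _ => hZN w)
  have hnum := hC₂ U P θ 0 hPU hθ0 le_rfl
  have hfinal := hlow.trans (hupp.trans hnum)
  have n1 := hU3 U hUU3
  have n2 := mul_le_mul_of_nonneg_right hκ2 hU0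
  have n3 : M * θ ≤ a * ρ * Real.log 2 / 4 * U := by
    rw [hθ]
    have := mul_le_mul_of_nonneg_right t5 hU0
    linarith only [this]
  have n4 : a * Real.log 2 * (ρ * U - 1) ≤ a * Real.log 2 * P :=
    mul_le_mul_of_nonneg_left hP2 (by positivity)
  have n5 : 0 ≤ a * ρ * Real.log 2 * U := by positivity
  rw [← hM] at hfinal
  push_cast at hfinal
  linarith only [n1, n2, n3, n4, n5, hfinal]

end Pool.STAT
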