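import Pool.Agent.H31.STAT.Maiw
import Pool.Agent.H90.STAT.Adx
import Pool.Agent.H36.STAT.Dgb
import Pool.Agent.H90.STAT.Trf
import Pool.Agent.H63.STAT.Plt
import Pool.Agent.H87.STAT.Nrm
import Pool.Agent.H75.STAT.LadT
import Pool.Agent.H35.SYS.Bxn
import Pool.Agent.H35.SYS.Nat
import Pool.Agent.H63.STAT.Flb
import Pool.Agent.H63.STAT.Frz
import Pool.Agent.H99.STAT.CmrwThm
import Pool.Agent.H82.STAT.Jbw
import Pool.Agent.H12.STAT.Jtw
import Pool.Agent.H87.STAT.Vch
import Pool.Agent.H19.STAT.Cpt2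
import Pool.Agent.H6.STAT.TrpM
import Pool.Agent.H64.STAT.Wcb
import Pool.Agent.H16.STAT.Okr
import Pool.Agent.H16.STAT.Nwl
import Pool.Agent.H20.STAT.Nonw
import Pool.Agent.H64.STAT.Final

/-!
# Layer 2 of the static part: MAIW and NONW

Both theorems without hypotheses.
-/

set_option autoImplicit false

namespace Pool.STAT

theorem bxn_thm : BxnStmt := Pool.SYS35.bxn_of AdxRow.adx_thm dgb_thm nrm_thm lad_thm

theorem nat_thm : NatStmt := Pool.SYS35.nat_of AdxRow.adx_thm dgb_thm nrm_thm lad_thm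

theorem plt_thm : PltStmt := plt_of AdxRow.adx_thm

theorem jbw_thm : JbwStmt := JBW.jbw_of AdxRow.adx_thm nrm_thm lad_thm dgb_thm bxn_thm cmrw_thm

theorem jtw_thm : JtwStmt := jtw_of jbw_thm lad_thm plt_thm

theorem flb_thm : FlbStmt := flb_of AdxRow.adx_thm Trf.ode_thm

theorem cpt_thm : CptStmt := cpt_of AdxRow.adx_thm dgb_thm lad_thm

theorem trp_thm : TrpStmt := trp_of AdxRow.adx_thm Trf.ode_thm flb_thm frz_thm nat_thm cpt_thm

theorem wcb_thm : WcbStmt := wcb_of jbw_thm jtw_thm nat_thm cpt_thm trp_thm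

theorem vch_thm : VchStmt := vch_of AdxRow.adx_thm

theorem nwl_thm : NwlStmt := nwl_of AdxRow.adx_thm dgb_thm nat_thm

/-- **Integer slopes**: a new label of some coordinate. -/
theorem maiw_thm : MaiwStmt :=
  maiw_of wcb_thm vch_thm nwl_thm okr_thm AdxRow.adx_thm wlab_thm wbig_thm wcnt_thm

/-- **The slope of the last coordinate is not an integer**: a new label. -/
theorem nonw_thm : NonwStmt :=
  Nonw.nonw_of AdxRow.adx_thm dgb_thm Trf.ode_thm lad_thm bxn_thm flb_thm jbw_thm jtw_thm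

end Pool.STAT
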