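import Pool.Agent.H64.STAT.Rows

/-!
# Walks with one more coordinate

The height becomes the last base coordinate: `wT` of the extended fields is `(wT, wH)`.
-/

set_option autoImplicit false

namespace Pool.STAT

open Finset MvPolynomial
open Pool.BFL (Pl CB Pb P2 MC alt)

/-- The vector field with one more coordinate. -/
noncomputable def exT {c : ℕ} (ξ : Fin c → Pl c) (b : Pl c) : Fin (c + 1) → Pl (c + 1) :=
  Fin.snoc (α := fun _ => Pl (c + 1)) (fun i => rename Fin.castSucc (ξ i))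
    (rename Fin.castSucc b)

/-- The weights with one more coordinate. -/
def exd {c : ℕ} (d : Fin c → ℕ) (j : ℕ) : Fin (c + 1) → ℕ := Fin.snoc (α := fun _ => ℕ) d j

theorem exT_castSucc {c : ℕ} (ξ : Fin c → Pl c) (b : Pl c) (i : Fin c) :
    exT ξ b i.castSucc = rename Fin.castSucc (ξ i) :=
  Fin.snoc_castSucc (α := fun _ => Pl (c + 1)) _ _ i

theorem exT_last {c : ℕ} (ξ : Fin c → Pl c) (b : Pl c) :
    exT ξ b (Fin.last c) = rename Fin.castSucc b :=
  Fin.snoc_last (α := fun _ => Pl (c + 1)) _ _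

theorem exd_castSucc {c : ℕ} (d : Fin c → ℕ) (j : ℕ) (i : Fin c) : exd d j i.castSucc = d i :=
  Fin.snoc_castSucc (α := fun _ => ℕ) _ _ i

theorem exd_last {c : ℕ} (d : Fin c → ℕ) (j : ℕ) : exd d j (Fin.last c) = j :=
  Fin.snoc_last (α := fun _ => ℕ) _ _

theorem lie_X {c : ℕ} (ξ : Fin c → Pl c) (i : Fin c) : lie ξ (X i) = ξ i :=
  mkDerivation_X ℝ ξ i

theorem lie_exT {c : ℕ} (ξ : Fin c → Pl c) (b : Pl c) (P : Pl c) :
    lie (exT ξ b) (rename Fin.castSucc P) = rename Fin.castSucc (lie ξ P) := by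
  induction P using MvPolynomial.induction_on with
  | C a =>
    rw [rename_C]
    have h1 : lie (exT ξ b) (C a) = 0 := (lie (exT ξ b)).map_algebraMap a
    have h2 : lie ξ (C a) = 0 := (lie ξ).map_algebraMap a
    rw [h1, h2, map_zero]
  | add p q hp hq => rw [map_add, map_add, map_add, map_add, hp, hq]
  | mul_X p i hp =>
    rw [map_mul, Derivation.leibniz, Derivation.leibniz, hp, rename_X, lie_X, lie_X,
      exT_castSucc]
    simp only [smul_eq_mul, map_add, map_mul, rename_X]

theorem iter_lie_exT {c : ℕ} (ξ : Fin c → Pl c) (b : Pl c) (P : Pl c) (r : ℕ) :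
    (lie (exT ξ b))^[r] (rename Fin.castSucc P) = rename Fin.castSucc ((lie ξ)^[r] P) := by
  induction r with
  | zero => rfl
  | succ r ih => rw [Function.iterate_succ_apply', ih, lie_exT, Function.iterate_succ_apply']

/-- The end point of the extended walk. -/
theorem wT_ext {c : ℕ} (d : Fin c → ℕ) (j : ℕ) : ∀ (N : ℕ) (ξ : Fin N → Fin c → Pl c)
    (b : Fin N → Pl c), (∀ i : Fin c, wT (exd d j) N (fun a => exT (ξ a) (b a)) i.castSucc =
      wT d N ξ i) ∧ wT (exd d j) N (fun a => exT (ξ a) (b a)) (Fin.last c) = wH d j N ξ b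
  | 0, _, _ => ⟨fun _ => rfl, rfl⟩
  | N + 1, ξ, b => by
    obtain ⟨h1, h2⟩ := wT_ext d j N (fun a => ξ a.succ) (fun a => b a.succ)
    have key : ∀ P : Pl c, bind₁ (fun k => rename Fin.succ (wT (exd d j) N
        (fun a => exT (ξ a.succ) (b a.succ)) k)) (rename Fin.castSucc P) =
        bind₁ (fun k => rename Fin.succ (wT d N (fun a => ξ a.succ) k)) P := by
      intro P
      rw [bind₁_rename]
      congr 2
      funext k
      simp only [Function.comp_apply]
      rw [h1 k]
    constructor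
    · intro i
      have e : ∀ r, (lie (exT (ξ 0) (b 0)))^[r] (X i.castSucc) =
          rename Fin.castSucc ((lie (ξ 0))^[r] (X i)) := by
        intro r
        rw [← iter_lie_exT, rename_X]
      simp only [wT]
      rw [exd_castSucc]
      refine Finset.sum_congr rfl fun r _ => ?_
      rw [e r, key]
    · simp only [wT, wH]
      rw [exd_last, Finset.sum_range_succ']
      refine (add_comm _ _).trans ?_
      congr 1
      · rw [Function.iterate_zero_apply, bind₁_X_right, h2]
        simp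
      · refine Finset.sum_congr rfl fun r _ => ?_
        rw [Function.iterate_succ_apply, lie_X, exT_last, iter_lie_exT, key]

/-- The minors of the extended walk. -/
theorem minT_ext {c N : ℕ} (d : Fin c → ℕ) (j : ℕ) (ξ : Fin N → Fin c → Pl c)
    (b : Fin N → Pl c) (e : Fin (c + 1) → Fin N) :
    minT (exd d j) (fun a => exT (ξ a) (b a)) e = minA d j ξ b e := by
  unfold minT minA
  congr 1
  ext1 i k
  simp only [Matrix.of_apply]
  congr 1
  refine Fin.lastCases ?_ (fun i => ?_) i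
  · rw [(wT_ext d j N ξ b).2, Fin.snoc_last]
  · rw [(wT_ext d j N ξ b).1 i, Fin.snoc_castSucc]

theorem tbig_ext {c N : ℕ} (d : Fin c → ℕ) (j : ℕ) (ξ : Fin N → Fin c → Pl c)
    (b : Fin N → Pl c) (κ : ℝ) (σ : Fin N → ℝ) :
    TBig (exd d j) (fun a => exT (ξ a) (b a)) κ σ ↔
      ∃ e : Fin (c + 1) → Fin N, κ ≤ |eval σ (minA d j ξ b e)| := by
  unfold TBig
  simp only [minT_ext]

/-- A base without coordinates. -/
theorem tbig_zero {N : ℕ} (d : Fin 0 → ℕ) (ξ : Fin N → Fin 0 → Pl 0) (κ : ℝ) (hκ : κ ≤ 1)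
    (σ : Fin N → ℝ) : TBig d ξ κ σ := by
  refine ⟨Fin.elim0, ?_⟩
  unfold minT
  rw [Matrix.det_isEmpty, map_one, abs_one]
  exact hκ

theorem weight_castSucc {c : ℕ} (d : Fin c → ℕ) (j : ℕ) (e : Fin c →₀ ℕ) :
    Finsupp.weight (exd d j) (Finsupp.mapDomain Fin.castSucc e) = Finsupp.weight d e := by
  rw [Finsupp.weight_apply, Finsupp.weight_apply, Finsupp.sum_mapDomain_index]
  · simp only [exd_castSucc]
  · intro b
    simp
  · intro b m₁ m₂
    rw [add_smul]

theorem wh_rename {c : ℕ} (d : Fin c → ℕ) (j : ℕ) {P : Pl c} {n : ℕ}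
    (h : P.IsWeightedHomogeneous d n) :
    (rename Fin.castSucc P).IsWeightedHomogeneous (exd d j) n := by
  intro e he
  obtain ⟨e', h1, h2⟩ := coeff_rename_ne_zero _ _ _ he
  rw [← h1, weight_castSucc]
  exact h h2

theorem vf_ext {c : ℕ} (d : Fin c → ℕ) (j : ℕ) {ξ : Fin c → Pl c} {b : Pl c} (h : VF d ξ)
    (hb : b.IsWeightedHomogeneous d (j - 1)) : VF (exd d j) (exT ξ b) := by
  intro i
  refine Fin.lastCases ?_ (fun i => ?_) i
  · rw [exT_last, exd_last]
    exact wh_rename d j hb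
  · rw [exT_castSucc, exd_castSucc]
    exact wh_rename d j (h i)

theorem cb_rename {c : ℕ} {P : Pl c} {r : ℝ} (hr : 0 ≤ r) (h : CB P r) :
    CB (rename Fin.castSucc P) r := by
  intro e
  by_cases he : coeff e (rename Fin.castSucc P) = 0
  · rw [he, abs_zero]
    exact hr
  · obtain ⟨e', h1, h2⟩ := coeff_rename_ne_zero _ _ _ he
    rw [← h1, coeff_rename_mapDomain _ (Fin.castSucc_injective c)]
    exact h e'

theorem exT_cb {c : ℕ} {ξ : Fin c → Pl c} {b : Pl c} {r : ℝ} (hr : 0 ≤ r) (h : ∀ i, CB (ξ i) r)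
    (hb : CB b r) (i : Fin (c + 1)) : CB (exT ξ b i) r := by
  refine Fin.lastCases ?_ (fun i => ?_) i
  · rw [exT_last]
    exact cb_rename hr hb
  · rw [exT_castSucc]
    exact cb_rename hr (h i)

end Pool.STAT
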