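import Pool.Agent.H31.STAT.Ext
import Pool.Agent.H39.BFL.Prob

/-!
# The step: a label for the height, or one more submersive coordinate
-/

set_option autoImplicit false

namespace Pool.STAT

open Finset MvPolynomial
open Pool.Agent.H49.Ent Pool.Agent.H32.Dense Pool.STK Pool.KS3
open Pool.BFL (Pl CB Pb P2 MC alt)
open Pool.Agent.H39.BFL

section

variable {c j U m : ℕ} {Ω G B 𝔅 𝒱 : Type} [Fintype Ω] {d : Fin c → ℕ} {C₀ θ η : ℝ} {p : Ω → ℝ}
  {g : Ω → G} {bk : Ω → B} {β : Ω → 𝔅} {V : Ω → 𝒱} {tm : Ω → ℤ} {pT : Ω → Fin c → ℝ}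
  {pN : Ω → ℝ} {ΘT : B → (Fin c → ℝ) → Fin c → ℝ} {FN : B → (Fin c → ℝ) → ℝ}
  {ξT : 𝒱 → 𝔅 → Fin c → Pl c} {ξN : 𝒱 → 𝔅 → Pl c}

/-- The data are monotone in the errors. -/
theorem WC.mono {θ' η' : ℝ} (hC : WC d j U m C₀ θ η p g bk β V tm pT pN ΘT FN ξT ξN)
    (hθ : θ ≤ θ') (hη : η ≤ η') : WC d j U m C₀ θ' η' p g bk β V tm pT pN ΘT FN ξT ξN := by
  have hp := hC.isLaw.nonneg
  have he : Real.exp θ ≤ Real.exp θ' := Real.exp_le_exp.2 hθ
  have h2U : (0 : ℝ) < 2 ^ U := by positivity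
  have he2 : Real.exp θ / 2 ^ U ≤ Real.exp θ' / 2 ^ U := div_le_div_of_nonneg_right he h2U.le
  obtain ⟨ω₀⟩ : Nonempty Ω := by
    by_contra hcon
    rw [not_nonempty_iff] at hcon
    have h1 := hC.isLaw.sum_one
    rw [Finset.univ_eq_empty, Finset.sum_empty] at h1
    exact zero_ne_one h1
  have hδ : ∀ (z z' : Fin c → ℝ) (δ : ℝ), (∀ i, |z i| ≤ C₀) → (∀ i, |z' i| ≤ C₀) →
      (∀ i, |z i - z' i| ≤ δ) → 0 ≤ δ := by
    intro z z' δ hz hz' hzz
    rcases Nat.eq_zero_or_pos c with h0 | h0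
    · subst h0
      exfalso
      have h1 := hC.FN_lip (bk ω₀) z z' hz hz' (-1) (fun i => i.elim0)
      have h2 := abs_nonneg (FN (bk ω₀) z - FN (bk ω₀) z')
      have h3 := Real.exp_pos θ
      linarith
    · exact (abs_nonneg _).trans (hzz ⟨0, h0⟩)
  exact
  { isLaw := hC.isLaw
    d_pos := hC.d_pos
    j_pos := hC.j_pos
    m_ge := hC.m_ge
    bk_β := hC.bk_β
    g_β := hC.g_β
    bk_tm := hC.bk_tm
    tm_g := hC.tm_g
    pT_le := hC.pT_le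
    ξT_vf := hC.ξT_vf
    ξT_le := fun v x i k => (hC.ξT_le v x i k).trans he
    ξN_hom := hC.ξN_hom
    ξN_le := fun v x k => (hC.ξN_le v x k).trans he
    ΘT_le := fun x z hz i => (hC.ΘT_le x z hz i).trans he
    ΘT_lip := fun x z z' hz hz' δ h i => (hC.ΘT_lip x z z' hz hz' δ h i).trans
      (mul_le_mul_of_nonneg_right he (hδ z z' δ hz hz' h))
    ΘT_inv := fun x z z' hz hz' δ h i => by
      have h1 := hC.ΘT_inv x z z' hz hz' δ h i
      have h2 : 0 ≤ δ := (abs_nonneg _).trans (h i)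
      exact h1.trans (mul_le_mul_of_nonneg_right he h2)
    FN_lip := fun x z z' hz hz' δ h => (hC.FN_lip x z z' hz hz' δ h).trans
      (mul_le_mul_of_nonneg_right he (hδ z z' δ hz hz' h))
    own := by
      refine le_trans (Pb_mono hp ?_) (hC.own.trans hη)
      intro ω _ h h1
      exact h ⟨fun i => (h1.1 i).trans he2, h1.2.trans he2⟩
    transport := by
      refine le_trans ?_ (hC.transport.trans hη)
      classical
      unfold P2
      refine Finset.sum_le_sum fun ω _ => Finset.sum_le_sum fun ω' _ => ?_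
      have hnn : 0 ≤ p ω * p ω' / law p g (g ω) :=
        div_nonneg (mul_nonneg (hp ω) (hp ω')) (law_nonneg hp g _)
      split_ifs with h1 h2 h2
      · exact le_rfl
      · exfalso
        refine h2 ⟨h1.1, fun h3 => h1.2 fun z hz => ⟨fun i => ((h3 z hz).1 i).trans he2,
          ((h3 z hz).2).trans he2⟩⟩
      · exact hnn
      · exact le_rfl
    timeFull := by
      have := hC.timeFull
      linarith
    indep := hC.indep.trans hθ }

/-- Monotonicity of `Sbm`. -/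
theorem Sbm.mono {N : ℕ} {κ κ' η' : ℝ} (h : Sbm d m p g bk β V tm ξT N κ η) (hκ : κ' ≤ κ)
    (hη : η ≤ η') : Sbm d m p g bk β V tm ξT N κ' η' := by
  intro W _ q z hMC
  refine le_trans (Pb_mono hMC.isLaw.nonneg ?_) ((h W q z hMC).trans hη)
  intro w _ h1 h2
  obtain ⟨e, he⟩ := h2
  exact h1 ⟨e, hκ.trans he⟩

/-- Monotonicity of `Flt`. -/
theorem Flt.mono {N : ℕ} {r r' η' : ℝ} (h : Flt d j p g bk β V ξT ξN N r η) (hr : r ≤ r')
    (hη : η' ≤ η) : Flt d j p g bk β V ξT ξN N r' η' := by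
  obtain ⟨W, i, q, z, hMC, h1⟩ := h
  refine ⟨W, i, q, z, hMC, (hη.trans h1).trans (Pb_mono hMC.isLaw.nonneg ?_)⟩
  intro w _ h2 e k
  exact (h2 e k).trans hr

end

/-- **The step.** Either there is a label for the height, or the walks with `2 L + 1` legs are
submersions onto the base and the height. -/
theorem sbm_step (hB : LabStmt) (hC : BigStmt) (c j L : ℕ) (d : Fin c → ℕ) (C₀ τ' η : ℝ)
    (hL : 1 ≤ L) (hC₀ : 1 ≤ C₀) (hτ' : 0 < τ') (hη : 0 < η) (κ₀ : ℝ) (hκ₀ : 0 < κ₀) :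
    ∃ (κ τ η' : ℝ), 0 < κ ∧ κ ≤ κ₀ ∧ 0 < τ ∧ 0 < η' ∧ ∃ U₀ : ℕ, ∀ U m : ℕ, U₀ ≤ U →
    (m : ℝ) ≤ C₀ * U →
    ∀ (Ω G B 𝔅 𝒱 : Type) [Fintype Ω] (p : Ω → ℝ) (g : Ω → G) (bk : Ω → B) (β : Ω → 𝔅)
      (V : Ω → 𝒱) (tm : Ω → ℤ) (pT : Ω → Fin c → ℝ) (pN : Ω → ℝ)
      (ΘT : B → (Fin c → ℝ) → Fin c → ℝ) (FN : B → (Fin c → ℝ) → ℝ)
      (ξT : 𝒱 → 𝔅 → Fin c → Pl c) (ξN : 𝒱 → 𝔅 → Pl c),
      WC d j U m C₀ (τ * U) τ p g bk β V tm pT pN ΘT FN ξT ξN →
      Sbm d m p g bk β V tm ξT L (Real.exp (-(τ * U))) τ →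
      (∃ Hf : B → Pl c, (∀ x, (Hf x).IsWeightedHomogeneous d j) ∧
        (∀ x, CB (Hf x) (Real.exp (κ * U / 4))) ∧
        η' ≤ P2 p g (fun ω ω' => ∀ z : Fin c → ℝ, (∀ i, |z i| ≤ C₀) →
          |FN (bk ω') z + eval (ΘT (bk ω') z) (Hf (bk ω')) -
            (FN (bk ω) z + eval (ΘT (bk ω) z) (Hf (bk ω)))| ≤ Real.exp (-(κ * U / 2)))) ∨
      Sbm (exd d j) m p g bk β V tm (fun v x => exT (ξT v x) (ξN v x)) (2 * L + 1)
        (Real.exp (-(τ' * U))) η := by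
  obtain ⟨κC, τC, hκC, hτC, UC, hC1⟩ := hC c j (2 * L + 1) d C₀ τ' η (by omega) hC₀ hτ' hη
  obtain ⟨κ, hκ⟩ : ∃ κ : ℝ, κ = min (min κC κ₀) 1 := ⟨_, rfl⟩
  have hκ0 : 0 < κ := by rw [hκ]; exact lt_min (lt_min hκC hκ₀) one_pos
  have hκ1 : κ ≤ 1 := by rw [hκ]; exact min_le_right _ _
  have hκ2 : κ ≤ κC := by rw [hκ]; exact (min_le_left _ _).trans (min_le_left _ _)
  have hκ3 : κ ≤ κ₀ := by rw [hκ]; exact (min_le_left _ _).trans (min_le_right _ _)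
  obtain ⟨τB, η', hτB, hη', UB, hB1⟩ := hB c j L d C₀ (η / 2) κ hL hC₀ (by positivity) hκ0 hκ1
  obtain ⟨τ, hτ⟩ : ∃ τ : ℝ, τ = min τB τC := ⟨_, rfl⟩
  have hτ0 : 0 < τ := by rw [hτ]; exact lt_min hτB hτC
  have hτ1 : τ ≤ τB := by rw [hτ]; exact min_le_left _ _
  have hτ2 : τ ≤ τC := by rw [hτ]; exact min_le_right _ _
  refine ⟨κ, τ, η', hκ0, hκ3, hτ0, hη', max UB UC, ?_⟩
  intro U m hU hmU Ω G B 𝔅 𝒱 _ p g bk β V tm pT pN ΘT FN ξT ξN hW hS
  have hU0 : (0 : ℝ) ≤ U := Nat.cast_nonneg U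
  by_cases hF : Flt d j p g bk β V ξT ξN (2 * L + 1) (Real.exp (-(κ * U))) (η / 2)
  · left
    refine hB1 U m (le_trans (le_max_left _ _) hU) hmU Ω G B 𝔅 𝒱 p g bk β V tm pT pN ΘT FN ξT ξN
      (hW.mono (mul_le_mul_of_nonneg_right hτ1 hU0) hτ1) (hS.mono ?_ hτ1) hF
    refine Real.exp_le_exp.2 ?_
    have := mul_le_mul_of_nonneg_right hτ1 hU0
    linarith
  · right
    have hF' : ¬ Flt d j p g bk β V ξT ξN (2 * L + 1) (Real.exp (-(κC * U))) (η / 2) := by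
      intro h
      refine hF (h.mono ?_ le_rfl)
      refine Real.exp_le_exp.2 ?_
      have := mul_le_mul_of_nonneg_right hκ2 hU0
      linarith
    intro W _ q z hMC
    have h1 := hC1 U m (le_trans (le_max_right _ _) hU) hmU Ω G B 𝔅 𝒱 p g bk β V tm pT pN ΘT FN
      ξT ξN (hW.mono (mul_le_mul_of_nonneg_right hτ2 hU0) hτ2) hF' W q z hMC
    refine le_trans (Pb_mono hMC.isLaw.nonneg ?_) h1
    intro w _ h2 h3
    refine h2 ?_
    exact (tbig_ext d j (lgT β V ξT (2 * L + 1) z w) (lgN β V ξN (2 * L + 1) z w) _ _).2 h3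

/-- The end point of a walk whose only coordinate is the time. -/
theorem wT_time (d : Fin 1 → ℕ) (hd : d 0 = 1) : ∀ (N : ℕ) (ξ : Fin N → Fin 1 → Pl 1),
    (∀ a, ξ a 0 = 1) → wT d N ξ 0 = ∑ a, X a
  | 0, _, _ => by rw [Finset.univ_eq_empty, Finset.sum_empty]; rfl
  | N + 1, ξ, hξ => by
    have h1 := wT_time d hd N (fun a => ξ a.succ) (fun a => hξ _)
    simp only [wT]
    rw [hd, Finset.sum_range_succ, Finset.sum_range_one, Function.iterate_zero_apply,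
      Function.iterate_one, lie_X, hξ, bind₁_X_right, h1, Fin.sum_univ_succ, map_sum, map_one]
    simp only [rename_X]
    simp only [Nat.factorial, Nat.cast_one, div_one, map_one, pow_zero, pow_one, one_mul, mul_one,
      Nat.succ_eq_add_one, zero_add]
    exact add_comm _ _

/-- If the only coordinate is the time then all walks are submersions. -/
theorem tbig_time {N : ℕ} (hN : 1 ≤ N) (d : Fin 1 → ℕ) (hd : d 0 = 1) (ξ : Fin N → Fin 1 → Pl 1)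
    (hξ : ∀ a, ξ a 0 = 1) (κ : ℝ) (hκ : κ ≤ 1) (σ : Fin N → ℝ) : TBig d ξ κ σ := by
  refine ⟨fun _ => ⟨0, hN⟩, ?_⟩
  unfold minT
  rw [Matrix.det_fin_one, Matrix.of_apply, wT_time d hd N ξ hξ, map_sum]
  rw [Finset.sum_eq_single (⟨0, hN⟩ : Fin N)]
  · rw [pderiv_X_self, map_one, abs_one]
    exact hκ
  · intro a _ ha
    rw [pderiv_X_of_ne ha]
  · intro h
    exact absurd (Finset.mem_univ _) h

end Pool.STAT
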