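import Pool.Agent.H31.STAT.Maiw0
import Pool.Agent.H31.STAT.Step

/-!
# Row 122 MAIW: assembly of layer 2
-/

set_option autoImplicit false

namespace Pool.STAT.M31

open Finset MvPolynomial
open Pool.Agent.H49.Ent Pool.Agent.H32.Dense Pool.STK Pool.KS3
open Pool.BFL (Pl CB Pb P2 MC alt)
open Pool.Agent.H39.BFL

/-- The weighted core of the coordinate `i`; the fields are those of the system with `n`
coordinates. -/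
def WCi (D : NDat) (K : ℕ) (d : ℕ → ℕ) (C₁ C₂ C₃ η : ℝ) (J z U k i n : ℕ) (q : D.Ω → ℝ) : Prop :=
  WC (fun l : Fin i => d l) (d i) (U * z) (2 * U * z) 2 (C₃ * z) η q
    (D.wn J ((k + U) * z)) (D.cs (k + 3 * U)) (D.cs (k + U)) (D.vf d z (U + 1) C₂ n)
    (D.tm J z (k + 3 * U)) (D.pT (k + U)) (D.pN d z (k + U) i)
    (D.thT K d z C₁ C₂ (k + U) (k + 3 * U)) (D.shN K d z C₁ C₂ (k + U) (k + 3 * U))
    (fun v _ => vfT d i (Real.exp ((C₂ + 1) * z)) v)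
    (fun v _ => vfN d i (Real.exp ((C₂ + 1) * z)) v)

/-- The walks over the coordinates before `i` are submersions. -/
def Sbi (D : NDat) (d : ℕ → ℕ) (C₂ : ℝ) (J z U k i n L : ℕ) (τ : ℝ) (q : D.Ω → ℝ) : Prop :=
  Sbm (fun l : Fin i => d l) (2 * U * z) q (D.wn J ((k + U) * z)) (D.cs (k + 3 * U))
    (D.cs (k + U)) (D.vf d z (U + 1) C₂ n) (D.tm J z (k + 3 * U))
    (fun v _ => vfT d i (Real.exp ((C₂ + 1) * z)) v) L (Real.exp (-(τ * ((U * z : ℕ) : ℝ)))) τ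

/-- The conclusion of the core: a label for the height. -/
def Hfi (D : NDat) (K : ℕ) (d : ℕ → ℕ) (C₁ C₂ κ₁ η' : ℝ) (J z U k i : ℕ) (q : D.Ω → ℝ) : Prop :=
  ∃ Hf : (ℕ → D.Γ) → Pl i,
    (∀ x, (Hf x).IsWeightedHomogeneous (fun l : Fin i => d l) (d i)) ∧
    (∀ x, CB (Hf x) (Real.exp (κ₁ * ((U * z : ℕ) : ℝ) / 4))) ∧
    η' ≤ P2 q (D.wn J ((k + U) * z)) (fun ω ω' => ∀ y : Fin i → ℝ, (∀ l, |y l| ≤ 2) →
      |D.shN K d z C₁ C₂ (k + U) (k + 3 * U) (D.cs (k + 3 * U) ω') y +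
        eval (D.thT K d z C₁ C₂ (k + U) (k + 3 * U) (D.cs (k + 3 * U) ω') y)
          (Hf (D.cs (k + 3 * U) ω')) -
        (D.shN K d z C₁ C₂ (k + U) (k + 3 * U) (D.cs (k + 3 * U) ω) y +
        eval (D.thT K d z C₁ C₂ (k + U) (k + 3 * U) (D.cs (k + 3 * U) ω) y)
          (Hf (D.cs (k + 3 * U) ω)))| ≤ Real.exp (-(κ₁ * ((U * z : ℕ) : ℝ) / 2)))

/-- The hypothesis on `V`. -/
def Ind (D : NDat) (d : ℕ → ℕ) (C₂ : ℝ) (z U k n : ℕ) (q : D.Ω → ℝ) : Prop :=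
  CH q (D.vf d z (U + 1) C₂ n) (D.c (k + U)) - CH q (D.vf d z (U + 1) C₂ n) (D.c (k + 3 * U)) ≤ z

/-- The core of the coordinate `i` from the system with `n` coordinates. -/
def Crs (n K : ℕ) (d : ℕ → ℕ) (C₁ C₂ C₃ : ℝ) (i : ℕ) : Prop :=
  ∀ (U M : ℕ) (η : ℝ), 1 ≤ U → 0 < η → ∃ κ : ℝ, 0 < κ ∧ ∃ z₀ : ℕ,
    ∀ (J z k : ℕ) (D : NDat) (q : D.Ω → ℝ), z₀ ≤ z → D.Ok n K J z M (fun i => d i) κ C₁ q →
      k + 3 * U ≤ M → Ind D d C₂ z U k n q →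
      Pb q (fun ω => ¬ D.GB K d z C₁ C₂ (k + 3 * U) i (D.cs (k + 3 * U) ω)) ≤ η ∧
      WCi D K d C₁ C₂ C₃ η J z U k i n q

/-- A label of the core gives a new label. -/
def Nws (n K A : ℕ) (d : ℕ → ℕ) (C₁ C₂ C₃ : ℝ) (i : ℕ) : Prop :=
  ∀ κ₁ η' : ℝ, 0 < κ₁ → κ₁ ≤ 1 → 0 < η' → ∃ K' U₁ : ℕ, 1 ≤ U₁ ∧ ∀ U M : ℕ, U₁ ≤ U →
    ∀ η : ℝ, 0 < η → η ≤ η' / 8 → ∃ (C₆ κ : ℝ) (z₀ : ℕ), 0 < κ ∧
    ∀ (J z k : ℕ) (D : NDat) (q : D.Ω → ℝ), z₀ ≤ z → D.Ok n K J z M (fun i => d i) κ C₁ q →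
      k + 3 * U ≤ M → Ind D d C₂ z U k n q →
      WCi D K d C₁ C₂ C₃ η J z U k i n q ∧
      (Hfi D K d C₁ C₂ κ₁ η' J z U k i q → D.NewLab J z i (k + U) (k + 3 * U) A K' C₆ (η' / 4) q)

theorem nws_of (hN : NwlStmt) (hO : OkrStmt) {n K A : ℕ} {d : ℕ → ℕ} {C₁ C₂ C₃ : ℝ}
    (hd0 : d 0 = 1) (hd : ∀ i, 1 ≤ d i) (hC₁ : 1 ≤ C₁) (hC₂ : 1 ≤ C₂) (hC₃ : 1 ≤ C₃) {i : ℕ}
    (hi : i ≤ n) (hC : Crs n K d C₁ C₂ C₃ i) : Nws n K A d C₁ C₂ C₃ i := by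
  intro κ₁ η' hκ₁ hκ₁' hη'
  obtain ⟨K', U₁, h1⟩ := hN i K A d C₁ C₂ C₃ κ₁ η' hd0 hd hC₁ hC₂ hC₃ hκ₁ hκ₁' hη'
  refine ⟨K', max U₁ 1, le_max_right _ _, ?_⟩
  intro U M hU η hη hηle
  obtain ⟨C₆, z₁, h2⟩ := h1 U M ((le_max_left _ _).trans hU)
  obtain ⟨κ, hκ, z₂, h3⟩ := hC U M η ((le_max_right _ _).trans hU) hη
  refine ⟨C₆, κ, max (max z₁ z₂) 1, hκ, ?_⟩
  intro J z k D q hz hOk hk hInd
  have hz1 : z₁ ≤ z := (le_max_left _ _).trans ((le_max_left _ _).trans hz)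
  have hz2 : z₂ ≤ z := (le_max_right _ _).trans ((le_max_left _ _).trans hz)
  have hz3 : 1 ≤ z := (le_max_right _ _).trans hz
  obtain ⟨h4, h5⟩ := h3 J z k D q hz2 hOk hk hInd
  refine ⟨h5, fun hH => ?_⟩
  refine h2 J z k (κ + 2 * n / z) D q hz1 (hO n i K J z M _ κ C₁ D q hi hz3 hOk) hk
    (h4.trans hηle) (h5.own.trans hηle) hH

/-- The tower: from the submersion over the coordinates before `i` to a new label. -/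
def Twr (n K A : ℕ) (d : ℕ → ℕ) (C₁ C₂ Cc a ρ : ℝ) (i L : ℕ) : Prop :=
  ∃ (τ η' : ℝ) (K' U₀ : ℕ), 0 < τ ∧ 0 < η' ∧ 1 ≤ U₀ ∧ ∀ U M : ℕ, U₀ ≤ U →
    ∃ (C₆ κ : ℝ) (z₀ : ℕ), 0 < κ ∧
    ∀ (J z k : ℕ) (D : NDat) (q : D.Ω → ℝ), z₀ ≤ z → D.Ok n K J z M (fun i => d i) κ C₁ q →
      k + 3 * U ≤ M → Ind D d C₂ z U k n q → D.Cnt d z n (k + U) U ρ a Cc q →
      Sbi D d C₂ J z U k i n L τ q →
      ∃ i', 1 ≤ i' ∧ i' ≤ n ∧ D.NewLab J z i' (k + U) (k + 3 * U) A K' C₆ η' q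

section

variable {n K A : ℕ} {d : ℕ → ℕ} {C₁ C₂ Cc a ρ : ℝ}

theorem cast_m (U z : ℕ) : ((2 * U * z : ℕ) : ℝ) ≤ 2 * ((U * z : ℕ) : ℝ) := by
  push_cast
  linarith

/-- The constants: `U ≥ C / τ`. -/
theorem big_U {C τ : ℝ} (hτ : 0 < τ) {U z : ℕ} (hU : ⌈C / τ⌉₊ ≤ U) :
    C * z ≤ τ * ((U * z : ℕ) : ℝ) := by
  have h1 : C / τ ≤ U := (Nat.le_ceil _).trans (by exact_mod_cast hU)
  rw [div_le_iff₀ hτ] at h1
  push_cast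
  have hz : (0 : ℝ) ≤ z := Nat.cast_nonneg _
  nlinarith

theorem le_Uz {U₀ U z : ℕ} (hU : U₀ ≤ U) (hz : 1 ≤ z) : U₀ ≤ U * z :=
  hU.trans (Nat.le_mul_of_pos_right _ hz)

/-- The top of the tower. -/
theorem twr_top (hL : LabStmt) (hC : CntStmt) (hn : 1 ≤ n)
    (hCc : 1 ≤ Cc) (ha : 0 < a) (hρ : 0 < ρ) (hρ1 : ρ ≤ 1) {C₃ : ℝ} (hC₃ : 1 ≤ C₃)
    (hW : Nws n K A d C₁ C₂ C₃ n) {L : ℕ} (hL1 : 1 ≤ L) : Twr n K A d C₁ C₂ Cc a ρ n L := by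
  obtain ⟨κC, hκC, hC1⟩ := hC n (d n) (2 * L + 1) (fun l : Fin n => d l) 2 a ρ (by omega)
    (by norm_num) ha hρ hρ1
  obtain ⟨τC, hτC, UC, hC2⟩ := hC1 (1 / 2) (by norm_num)
  obtain ⟨κ₁, hκ₁⟩ : ∃ κ₁ : ℝ, κ₁ = min κC 1 := ⟨_, rfl⟩
  have hκ0 : 0 < κ₁ := by rw [hκ₁]; exact lt_min hκC one_pos
  have hκ1 : κ₁ ≤ 1 := by rw [hκ₁]; exact min_le_right _ _
  have hκ2 : κ₁ ≤ κC := by rw [hκ₁]; exact min_le_left _ _
  obtain ⟨τB, η', hτB, hη', UB, hB1⟩ := hL n (d n) L (fun l : Fin n => d l) 2 (1 / 2) κ₁ hL1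
    (by norm_num) (by norm_num) hκ0 hκ1
  obtain ⟨K', U₁, hU₁, hW1⟩ := hW κ₁ η' hκ0 hκ1 hη'
  obtain ⟨τ, hτ⟩ : ∃ τ : ℝ, τ = min τC τB := ⟨_, rfl⟩
  have hτ0 : 0 < τ := by rw [hτ]; exact lt_min hτC hτB
  have hτ1 : τ ≤ τC := by rw [hτ]; exact min_le_left _ _
  have hτ2 : τ ≤ τB := by rw [hτ]; exact min_le_right _ _
  obtain ⟨U₀, hU₀⟩ : ∃ U₀ : ℕ, U₀ = max U₁ (max (max UC UB) (⌈(C₃ + Cc) / τ⌉₊)) := ⟨_, rfl⟩
  refine ⟨τ, η' / 4, K', U₀, hτ0, by positivity, ?_, ?_⟩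
  · rw [hU₀]
    exact hU₁.trans (le_max_left _ _)
  intro U M hU
  have hUa : U₁ ≤ U := le_trans (by rw [hU₀]; exact le_max_left _ _) hU
  have hUb : UC ≤ U := le_trans (by
    rw [hU₀]; exact (le_max_left _ _).trans ((le_max_left _ _).trans (le_max_right _ _))) hU
  have hUc : UB ≤ U := le_trans (by
    rw [hU₀]; exact (le_max_right _ _).trans ((le_max_left _ _).trans (le_max_right _ _))) hU
  have hUd : ⌈(C₃ + Cc) / τ⌉₊ ≤ U := le_trans (by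
    rw [hU₀]; exact (le_max_right _ _).trans (le_max_right _ _)) hU
  have hηp : 0 < min τ (η' / 8) := lt_min hτ0 (by positivity)
  obtain ⟨C₆, κ, z₀, hκ, hW2⟩ := hW1 U M hUa (min τ (η' / 8)) hηp (min_le_right _ _)
  refine ⟨C₆, κ, max z₀ 1, hκ, ?_⟩
  intro J z k D q hz hOk hk hInd hCnt hS
  have hz1 : 1 ≤ z := (le_max_right _ _).trans hz
  obtain ⟨hWC, hNew⟩ := hW2 J z k D q ((le_max_left _ _).trans hz) hOk hk hInd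
  refine ⟨n, hn, le_rfl, hNew ?_⟩
  have hbU := big_U (z := z) hτ0 hUd
  have hz0 : (0 : ℝ) ≤ z := Nat.cast_nonneg _
  have hUz0 : (0 : ℝ) ≤ ((U * z : ℕ) : ℝ) := Nat.cast_nonneg _
  have hθ : C₃ * z ≤ τ * ((U * z : ℕ) : ℝ) := by nlinarith
  have hκz : Cc * z ≤ τ * ((U * z : ℕ) : ℝ) := by nlinarith
  have hmulC : τ * ((U * z : ℕ) : ℝ) ≤ τC * ((U * z : ℕ) : ℝ) :=
    mul_le_mul_of_nonneg_right hτ1 hUz0
  have hmulB : τ * ((U * z : ℕ) : ℝ) ≤ τB * ((U * z : ℕ) : ℝ) :=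
    mul_le_mul_of_nonneg_right hτ2 hUz0
  unfold WCi at hWC
  have hWC1 := hWC.mono (θ' := τC * ((U * z : ℕ) : ℝ)) (η' := τC) (hθ.trans hmulC)
    ((min_le_left _ _).trans hτ1)
  have hWC2 := hWC.mono (θ' := τB * ((U * z : ℕ) : ℝ)) (η' := τB) (hθ.trans hmulB)
    ((min_le_left _ _).trans hτ2)
  have hFlt := hC2 (U * z) (2 * U * z) (le_Uz hUb hz1) (cast_m U z) _ _ _ _ _ q
    (D.wn J ((k + U) * z)) (D.cs (k + 3 * U)) (D.cs (k + U)) (D.vf d z (U + 1) C₂ n)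
    (D.tm J z (k + 3 * U)) (D.pT (k + U)) (D.pN d z (k + U) n)
    (D.thT K d z C₁ C₂ (k + U) (k + 3 * U)) (D.shN K d z C₁ C₂ (k + U) (k + 3 * U))
    (fun v _ => vfT d n (Real.exp ((C₂ + 1) * z)) v)
    (fun v _ => vfN d n (Real.exp ((C₂ + 1) * z)) v)
    (fun ω i => ⌊(2 : ℝ) ^ (U * z) * D.pT (k + U) ω i⌋) hWC1 ?_ ?_
  · refine hB1 (U * z) (2 * U * z) (le_Uz hUc hz1) (cast_m U z) _ _ _ _ _ q
      (D.wn J ((k + U) * z)) (D.cs (k + 3 * U)) (D.cs (k + U)) (D.vf d z (U + 1) C₂ n)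
      (D.tm J z (k + 3 * U)) (D.pT (k + U)) (D.pN d z (k + U) n)
      (D.thT K d z C₁ C₂ (k + U) (k + 3 * U)) (D.shN K d z C₁ C₂ (k + U) (k + 3 * U))
      (fun v _ => vfT d n (Real.exp ((C₂ + 1) * z)) v)
      (fun v _ => vfN d n (Real.exp ((C₂ + 1) * z)) v) hWC2 ?_ ?_
    · unfold Sbi at hS
      refine hS.mono (Real.exp_le_exp.2 ?_) hτ2
      linarith
    · refine hFlt.mono (Real.exp_le_exp.2 ?_) (by norm_num)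
      have := mul_le_mul_of_nonneg_right hκ2 hUz0
      linarith
  · intro ω i
    rw [abs_le]
    constructor
    · linarith [Int.lt_floor_add_one ((2 : ℝ) ^ (U * z) * D.pT (k + U) ω i)]
    · linarith [Int.floor_le ((2 : ℝ) ^ (U * z) * D.pT (k + U) ω i)]
  · intro P hP ω hω
    have hP' : (P : ℝ) ≤ ρ * (U * z) := by
      push_cast at hP
      exact hP
    have h1 := hCnt P hP' ω hω
    have hfin : Set.Finite {k' : ℤ | ∃ ω', 0 < q ω' ∧ D.c (k + U) ω' = D.c (k + U) ω ∧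
        (∀ i : Fin n, ⌊(2 : ℝ) ^ (U * z) * D.pT (k + U) ω' i⌋ =
          ⌊(2 : ℝ) ^ (U * z) * D.pT (k + U) ω i⌋) ∧
        ⌊D.pN d z (k + U) n ω'⌋ = ⌊D.pN d z (k + U) n ω⌋ ∧
        k' = ⌊(2 : ℝ) ^ P * D.pN d z (k + U) n ω'⌋} := by
      refine (Set.finite_range fun ω' : D.Ω => ⌊(2 : ℝ) ^ P * D.pN d z (k + U) n ω'⌋).subset ?_
      rintro k' ⟨ω', -, -, -, -, h⟩
      exact ⟨ω', h.symm⟩
    have h2 : (Set.ncard {k' : ℤ | ∃ ω', 0 < q ω' ∧ D.cs (k + U) ω' = D.cs (k + U) ω ∧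
        (fun i => ⌊(2 : ℝ) ^ (U * z) * D.pT (k + U) ω' i⌋ : Fin n → ℤ) =
          (fun i => ⌊(2 : ℝ) ^ (U * z) * D.pT (k + U) ω i⌋) ∧
        ⌊D.pN d z (k + U) n ω'⌋ = ⌊D.pN d z (k + U) n ω⌋ ∧
        k' = ⌊(2 : ℝ) ^ P * D.pN d z (k + U) n ω'⌋} : ℝ) ≤
        Real.exp ((1 - a) * P * Real.log 2 + Cc * z) := by
      refine le_trans ?_ h1
      refine Nat.cast_le.2 (Set.ncard_le_ncard ?_ hfin)
      rintro k' ⟨ω', g1, g2, g3, g4, g5⟩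
      refine ⟨ω', g1, ?_, fun i => congrFun g3 i, g4, g5⟩
      have g6 := congrFun g2 (k + U)
      simpa [NDat.cs] using g6
    refine h2.trans (Real.exp_le_exp.2 ?_)
    linarith [hκz.trans hmulC]

/-- A step of the tower. -/
theorem twr_step (hA : AdxStmt) (hL : LabStmt) (hB : BigStmt) (hd0 : d 0 = 1)
    (hd : ∀ i, 1 ≤ d i) (hC₂ : 1 ≤ C₂) {C₃ : ℝ} {i : ℕ} (hi1 : 1 ≤ i)
    (hi : i ≤ n) (hW : Nws n K A d C₁ C₂ C₃ i) {L : ℕ} (hL1 : 1 ≤ L)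
    (hT : Twr n K A d C₁ C₂ Cc a ρ (i + 1) (2 * L + 1)) : Twr n K A d C₁ C₂ Cc a ρ i L := by
  obtain ⟨τT, ηT, KT, UT, hτT, hηT, hUT, hT1⟩ := hT
  obtain ⟨κ₁, τ, η', hκ0, hκ1, hτ0, hη', UB, hB1⟩ := sbm_step hL hB i (d i) L
    (fun l : Fin i => d l) 2 τT τT hL1 (by norm_num) hτT hτT 1 one_pos
  obtain ⟨K', U₁, hU₁, hW1⟩ := hW κ₁ η' hκ0 hκ1 hη'
  obtain ⟨U₀, hU₀⟩ : ∃ U₀ : ℕ, U₀ = max U₁ (max (max UT UB) (⌈C₃ / τ⌉₊)) := ⟨_, rfl⟩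
  refine ⟨τ, min ηT (η' / 4), max KT K', U₀, hτ0, lt_min hηT (by positivity), ?_, ?_⟩
  · rw [hU₀]
    exact hU₁.trans (le_max_left _ _)
  intro U M hU
  have hUa : U₁ ≤ U := le_trans (by rw [hU₀]; exact le_max_left _ _) hU
  have hUb : UT ≤ U := le_trans (by
    rw [hU₀]; exact (le_max_left _ _).trans ((le_max_left _ _).trans (le_max_right _ _))) hU
  have hUc : UB ≤ U := le_trans (by
    rw [hU₀]; exact (le_max_right _ _).trans ((le_max_left _ _).trans (le_max_right _ _))) hU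
  have hUd : ⌈C₃ / τ⌉₊ ≤ U := le_trans (by
    rw [hU₀]; exact (le_max_right _ _).trans (le_max_right _ _)) hU
  obtain ⟨C₆T, κT, zT, hκT, hT2⟩ := hT1 U M hUb
  have hηp : 0 < min τ (η' / 8) := lt_min hτ0 (by positivity)
  obtain ⟨C₆, κ, z₀, hκ, hW2⟩ := hW1 U M hUa (min τ (η' / 8)) hηp (min_le_right _ _)
  refine ⟨max C₆T C₆, min κT κ, max (max zT z₀) 1, lt_min hκT hκ, ?_⟩
  intro J z k D q hz hOk hk hInd hCnt hS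
  have hz1 : 1 ≤ z := (le_max_right _ _).trans hz
  have hzT : zT ≤ z := (le_max_left _ _).trans ((le_max_left _ _).trans hz)
  have hz0' : z₀ ≤ z := (le_max_right _ _).trans ((le_max_left _ _).trans hz)
  have hq := hOk.isLaw.nonneg
  obtain ⟨hWC, hNew⟩ := hW2 J z k D q hz0' (ok_mono hOk (min_le_right _ _)) hk hInd
  have hUz0 : (0 : ℝ) ≤ ((U * z : ℕ) : ℝ) := Nat.cast_nonneg _
  have hθ : C₃ * z ≤ τ * ((U * z : ℕ) : ℝ) := big_U hτ0 hUd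
  unfold WCi at hWC
  have hWC1 := hWC.mono (θ' := τ * ((U * z : ℕ) : ℝ)) (η' := τ) hθ (min_le_left _ _)
  unfold Sbi at hS
  rcases hB1 (U * z) (2 * U * z) (le_Uz hUc hz1) (cast_m U z) _ _ _ _ _ q
      (D.wn J ((k + U) * z)) (D.cs (k + 3 * U)) (D.cs (k + U)) (D.vf d z (U + 1) C₂ n)
      (D.tm J z (k + 3 * U)) (D.pT (k + U)) (D.pN d z (k + U) i)
      (D.thT K d z C₁ C₂ (k + U) (k + 3 * U)) (D.shN K d z C₁ C₂ (k + U) (k + 3 * U))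
      (fun v _ => vfT d i (Real.exp ((C₂ + 1) * z)) v)
      (fun v _ => vfN d i (Real.exp ((C₂ + 1) * z)) v) hWC1 hS with h1 | h1
  · refine ⟨i, hi1, hi, newLab_mono hq (hNew h1) (le_max_right _ _) (le_max_right _ _)
      (min_le_right _ _)⟩
  · rw [exd_val] at h1
    have h2 : Sbi D d C₂ J z U k (i + 1) n (2 * L + 1) τT q := by
      unfold Sbi
      refine sbm_congr (fun ω => ?_) h1
      exact (vfT_sc hA hd0 hd hOk.R_tri C₂ hC₂ hz1 (U + 1) ω i hi).symm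
    obtain ⟨i', g1, g2, g3⟩ := hT2 J z k D q hzT (ok_mono hOk (min_le_left _ _)) hk hInd hCnt h2
    exact ⟨i', g1, g2, newLab_mono hq g3 (le_max_left _ _) (le_max_left _ _) (min_le_left _ _)⟩

/-- The tower. -/
theorem twr_all (hA : AdxStmt) (hL : LabStmt) (hB : BigStmt) (hC : CntStmt) (hd0 : d 0 = 1)
    (hd : ∀ i, 1 ≤ d i) (hC₂ : 1 ≤ C₂) (hCc : 1 ≤ Cc) (ha : 0 < a) (hρ : 0 < ρ) (hρ1 : ρ ≤ 1)
    (hW : ∀ i, 1 ≤ i → i ≤ n → ∃ C₃ : ℝ, 1 ≤ C₃ ∧ Nws n K A d C₁ C₂ C₃ i) :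
    ∀ r i L : ℕ, i + r = n → 1 ≤ i → 1 ≤ L → Twr n K A d C₁ C₂ Cc a ρ i L
  | 0, i, L, hr, hi, hL1 => by
    have hin : i = n := by omega
    subst hin
    obtain ⟨C₃, hC₃, h1⟩ := hW i hi le_rfl
    exact twr_top hL hC hi hCc ha hρ hρ1 hC₃ h1 hL1
  | r + 1, i, L, hr, hi, hL1 => by
    obtain ⟨C₃, hC₃, h1⟩ := hW i hi (by omega)
    exact twr_step hA hL hB hd0 hd hC₂ hi (by omega) h1 hL1
      (twr_all hA hL hB hC hd0 hd hC₂ hCc ha hρ hρ1 hW r (i + 1) (2 * L + 1) (by omega)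
        (by omega) (by omega))

end

/-- The core of the coordinate `i` from WCB. -/
theorem crs_of (hO : OkrStmt) {n K i : ℕ} {d : ℕ → ℕ} {C₁ C₂ C₃ : ℝ} (hi : i ≤ n)
    (hW : ∀ (U M : ℕ) (η : ℝ), 1 ≤ U →
    0 < η → ∃ κ₀ : ℝ, 0 < κ₀ ∧ ∃ z₀ : ℕ,
    ∀ (J z k : ℕ) (κ : ℝ) (D : NDat) (q : D.Ω → ℝ) (𝒱 : Type) (V : D.Ω → 𝒱)
      (f : 𝒱 → ℕ → PN), z₀ ≤ z → κ ≤ κ₀ → D.Ok i K J z M (fun i => d i) κ C₁ q →
      k + 3 * U ≤ M → (∀ ω, ∀ l ≤ i, f (V ω) l = D.vf d z (U + 1) C₂ i ω l) →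
      CH q V (D.c (k + U)) - CH q V (D.c (k + 3 * U)) ≤ z →
      Pb q (fun ω => ¬ D.GB K d z C₁ C₂ (k + 3 * U) i (D.cs (k + 3 * U) ω)) ≤ η ∧
      WC (fun l : Fin i => d l) (d i) (U * z) (2 * U * z) 2 (C₃ * z) η q
        (D.wn J ((k + U) * z)) (D.cs (k + 3 * U)) (D.cs (k + U)) V (D.tm J z (k + 3 * U))
        (D.pT (k + U)) (D.pN d z (k + U) i) (D.thT K d z C₁ C₂ (k + U) (k + 3 * U))
        (D.shN K d z C₁ C₂ (k + U) (k + 3 * U))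
        (fun v _ => vfT d i (Real.exp ((C₂ + 1) * z)) (f v))
        (fun v _ => vfN d i (Real.exp ((C₂ + 1) * z)) (f v))) :
    Crs n K d C₁ C₂ C₃ i := by
  intro U M η hU hη
  obtain ⟨κ₀, hκ₀, z₀, h1⟩ := hW U M η hU hη
  obtain ⟨z₁, hz₁⟩ : ∃ z₁ : ℕ, z₁ = ⌈2 * n / (κ₀ / 2)⌉₊ := ⟨_, rfl⟩
  refine ⟨κ₀ / 2, by positivity, max (max z₀ z₁) 1, ?_⟩
  intro J z k D q hz hOk hk hInd
  have hz0 : z₀ ≤ z := (le_max_left _ _).trans ((le_max_left _ _).trans hz)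
  have hz1 : z₁ ≤ z := (le_max_right _ _).trans ((le_max_left _ _).trans hz)
  have hz2 : 1 ≤ z := (le_max_right _ _).trans hz
  have hzp : (0 : ℝ) < z := by exact_mod_cast hz2
  have hOi := hO n i K J z M _ (κ₀ / 2) C₁ D q hi hz2 hOk
  have hκ : κ₀ / 2 + 2 * n / z ≤ κ₀ := by
    have h2 : 2 * (n : ℝ) / (κ₀ / 2) ≤ z := by
      refine (Nat.le_ceil _).trans ?_
      rw [← hz₁]
      exact_mod_cast hz1
    rw [div_le_iff₀ (by positivity)] at h2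
    have h3 : 2 * (n : ℝ) / z ≤ κ₀ / 2 := by
      rw [div_le_iff₀ hzp]
      linarith
    linarith
  refine h1 J z k _ D q (ℕ → PN) (D.vf d z (U + 1) C₂ n) (fun v => v) hz0 hκ hOi hk ?_ hInd
  intro ω l hl
  unfold NDat.vf
  rw [if_pos hl, if_pos (hl.trans hi)]

/-- Walks over the time alone. -/
theorem sbi_one (hA : AdxStmt) {D : NDat} {n K J z M U k : ℕ} {σ : ℕ → ℝ} {κ C₁ C₂ : ℝ}
    {q : D.Ω → ℝ} {d : ℕ → ℕ} (hd0 : d 0 = 1) (hd : ∀ i, 1 ≤ d i) (hC₂ : 1 ≤ C₂) (hz : 1 ≤ z)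
    (hOk : D.Ok n K J z M σ κ C₁ q) {τ : ℝ} (hτ : 0 < τ) : Sbi D d C₂ J z U k 1 n 1 τ q := by
  intro W _ r w hMC
  have h1 : Pb r (fun x => ¬ TBig (fun l : Fin 1 => d l)
      (lgT (D.cs (k + U)) (D.vf d z (U + 1) C₂ n)
        (fun v _ => vfT d 1 (Real.exp ((C₂ + 1) * z)) v) 1 w x)
      (Real.exp (-(τ * ((U * z : ℕ) : ℝ)))) (len (D.tm J z (k + 3 * U)) (2 * U * z) 1 w x)) ≤
      Pb r (fun _ => False) := by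
    refine Pb_mono hMC.isLaw.nonneg ?_
    intro x _ h2
    refine h2 (tbig_time le_rfl (fun l : Fin 1 => d l) hd0 _ (fun a => ?_) _ ?_ _)
    · exact vfT_one hA hd0 hd hOk.R_tri C₂ hC₂ hz (U + 1) _
    · exact Real.exp_le_one_iff.2 (by
        have : 0 ≤ τ * ((U * z : ℕ) : ℝ) := by positivity
        linarith)
  refine h1.trans ?_
  have h3 : Pb r (fun _ => False) = 0 := by
    unfold Pb
    simp
  rw [h3]
  exact hτ.le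

end Pool.STAT.M31

namespace Pool.STAT

open Finset MvPolynomial
open Pool.Agent.H49.Ent Pool.Agent.H32.Dense Pool.STK Pool.KS3
open Pool.BFL (Pl CB Pb P2 MC alt)

/-- Row 122: MAIW. -/
theorem maiw_of (hW : WcbStmt) (hV : VchStmt) (hN : NwlStmt) (hO : OkrStmt) (hA : AdxStmt)
    (hL : LabStmt) (hB : BigStmt) (hC : CntStmt) : MaiwStmt := by
  intro n K A d C₁ Cc a ρ hn hd0 hd hC₁ hCc ha hρ hρ1
  classical
  have hW1 := fun i (hi : 1 ≤ i) => hW i K d C₁ hi hd0 hd hC₁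
  choose C2 hC2a hC2b using hW1
  obtain ⟨C₂, hC₂⟩ : ∃ C₂ : ℝ, C₂ = 1 + ∑ i ∈ (Icc 1 n).attach,
    C2 i.1 (Finset.mem_Icc.1 i.2).1 := ⟨_, rfl⟩
  have hC₂1 : 1 ≤ C₂ := by
    rw [hC₂]
    have : 0 ≤ ∑ i ∈ (Icc 1 n).attach, C2 i.1 (Finset.mem_Icc.1 i.2).1 :=
      Finset.sum_nonneg fun i _ => by linarith [hC2a i.1 (Finset.mem_Icc.1 i.2).1]
    linarith
  have hC₂2 : ∀ i (hi : 1 ≤ i), i ≤ n → C2 i hi ≤ C₂ := by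
    intro i hi hin
    rw [hC₂]
    have h1 := Finset.single_le_sum (s := (Icc 1 n).attach)
      (f := fun i : {x // x ∈ Icc 1 n} => C2 i.1 (Finset.mem_Icc.1 i.2).1)
      (fun i _ => by linarith [hC2a i.1 (Finset.mem_Icc.1 i.2).1])
      (Finset.mem_attach _ ⟨i, Finset.mem_Icc.2 ⟨hi, hin⟩⟩)
    simp only at h1
    linarith
  have hNws : ∀ i, 1 ≤ i → i ≤ n → ∃ C₃ : ℝ, 1 ≤ C₃ ∧ M31.Nws n K A d C₁ C₂ C₃ i := by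
    intro i hi hin
    obtain ⟨C₃, hC₃, h1⟩ := hC2b i hi C₂ (hC₂2 i hi hin)
    exact ⟨C₃, hC₃, M31.nws_of hN hO hd0 hd hC₁ hC₂1 hC₃ hin (M31.crs_of hO hin h1)⟩
  obtain ⟨τ, η', K', U₀, hτ, hη', hU₀, hT⟩ := M31.twr_all hA hL hB hC hd0 hd hC₂1 hCc ha hρ hρ1
    hNws (n - 1) 1 1 (by omega) le_rfl le_rfl
  obtain ⟨CV, hCV, hV1⟩ := hV n K d C₂ hd0 hd hC₂1
  obtain ⟨Lv, hLv⟩ : ∃ Lv : ℕ, Lv = ⌈CV * U₀⌉₊ := ⟨_, rfl⟩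
  have hV2 := hV1 U₀ hU₀ Lv (by rw [hLv]; exact Nat.le_ceil _)
  obtain ⟨C₆, κ, z₀, hκ, hT1⟩ := hT U₀ ((2 * Lv + 3) * U₀) le_rfl
  refine ⟨U₀, (2 * Lv + 3) * U₀, K', C₆, η', κ, max z₀ 1, hU₀, hη', hκ, ?_⟩
  intro J z D q hz hOk hCnt
  have hz1 : 1 ≤ z := (le_max_right _ _).trans hz
  obtain ⟨l, hl, hInd⟩ := hV2 J z _ _ κ C₁ D q hz1 hOk le_rfl
  have hk : 2 * l * U₀ + 3 * U₀ ≤ (2 * Lv + 3) * U₀ := by
    have : 2 * l * U₀ + 3 * U₀ = (2 * l + 3) * U₀ := by ring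
    rw [this]
    exact Nat.mul_le_mul_right _ (by omega)
  obtain ⟨i, h1, h2, h3⟩ := hT1 J z (2 * l * U₀) D q ((le_max_left _ _).trans hz) hOk hk hInd
    (hCnt _ hk) (M31.sbi_one hA hd0 hd hC₂1 hz1 hOk hτ)
  exact ⟨2 * l * U₀, i, hk, h1, h2, h3⟩

end Pool.STAT
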