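import Pool.Agent.H31.STAT.Wts
import Pool.Agent.H39.BFL.Prob

/-!
# Row 122 MAIW, part 0: rounded fields, monotonicity
-/

set_option autoImplicit false

namespace Pool.STAT.M31

open Finset MvPolynomial
open Pool.Agent.H49.Ent Pool.Agent.H32.Dense Pool.STK Pool.KS3
open Pool.BFL (Pl CB Pb P2 MC alt)
open Pool.Agent.H39.BFL

/-! ### Rounding -/

theorem coeff_rnd (a S : ℝ) (F : PN) (k : ℕ →₀ ℕ) :
    (rnd a S F).coeff k =
      if k ∈ F.support then (if |F.coeff k| ≤ S then (⌊a * F.coeff k⌋ : ℝ) / a else 0) else 0 := by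
  classical
  unfold rnd
  rw [coeff_sum]
  simp only [coeff_monomial]
  rw [Finset.sum_ite_eq']

theorem rnd_vars (a S : ℝ) (F : PN) : (rnd a S F).vars ⊆ F.vars := by
  classical
  intro i hi
  rw [mem_vars_iff_mem_support] at hi ⊢
  obtain ⟨k, hk, hik⟩ := hi
  refine ⟨k, ?_, hik⟩
  rw [mem_support_iff, coeff_rnd] at hk
  by_contra h
  rw [if_neg h] at hk
  exact hk rfl

theorem rnd_hom (a S : ℝ) {F : PN} {d : ℕ → ℕ} {m : ℕ} (h : F.IsWeightedHomogeneous d m) :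
    (rnd a S F).IsWeightedHomogeneous d m := by
  classical
  intro k hk
  rw [coeff_rnd] at hk
  refine h (d := k) ?_
  by_contra h'
  rw [if_neg (by rw [mem_support_iff]; exact fun h2 => h2 h')] at hk
  exact hk rfl

theorem rnd_le {a S : ℝ} (ha : 1 ≤ a) (hS : 0 ≤ S) (F : PN) (k : ℕ →₀ ℕ) :
    |(rnd a S F).coeff k| ≤ S + 1 := by
  classical
  rw [coeff_rnd]
  split_ifs with h1 h2
  · have ha0 : 0 < a := by linarith
    rw [abs_div, abs_of_pos ha0, div_le_iff₀ ha0]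
    have h3 : |((⌊a * F.coeff k⌋ : ℤ) : ℝ) - a * F.coeff k| ≤ 1 := by
      rw [abs_le]
      constructor
      · linarith [Int.lt_floor_add_one (a * F.coeff k)]
      · linarith [Int.floor_le (a * F.coeff k)]
    have h4 : |a * F.coeff k| ≤ a * S := by
      rw [abs_mul, abs_of_pos ha0]
      exact mul_le_mul_of_nonneg_left h2 ha0.le
    have h5 : |((⌊a * F.coeff k⌋ : ℤ) : ℝ)| ≤ |((⌊a * F.coeff k⌋ : ℤ) : ℝ) - a * F.coeff k| +
        |a * F.coeff k| := by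
      have := abs_add_le (((⌊a * F.coeff k⌋ : ℤ) : ℝ) - a * F.coeff k) (a * F.coeff k)
      rwa [sub_add_cancel] at this
    nlinarith
  · rw [abs_zero]
    linarith
  · rw [abs_zero]
    linarith

theorem rnd_one (a S : ℝ) (n : ℕ) (ha : a = n) (hn : 1 ≤ n) (hS : 1 ≤ S) :
    rnd a S (1 : PN) = 1 := by
  classical
  ext k
  rw [coeff_rnd]
  have ha0 : a ≠ 0 := by
    rw [ha]
    exact_mod_cast (by omega : n ≠ 0)
  by_cases hk : k = 0
  · subst hk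
    have h1 : (1 : PN).coeff 0 = 1 := by rw [coeff_zero_one]
    rw [if_pos (by rw [mem_support_iff, h1]; exact one_ne_zero), h1, abs_one, if_pos hS, mul_one, ha]
    rw [Int.floor_natCast]
    rw [ha] at ha0
    push_cast
    exact div_self ha0
  · have h1 : (1 : PN).coeff k = 0 := by
      rw [coeff_one, if_neg (Ne.symm hk)]
    rw [if_neg (by rw [mem_support_iff, h1]; exact fun h => h rfl), h1]

/-! ### The rounded vector field of a sample -/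

section

variable {D : NDat} {n K J z M : ℕ} {σ : ℕ → ℝ} {κ C₁ : ℝ} {q : D.Ω → ℝ} {d : ℕ → ℕ}

theorem tri_atT {Φ : ℕ → PN} (h : TriN Φ) (t : ℝ) : TriN (atT t Φ) := by
  intro i
  unfold atT
  by_cases hi : i = 0
  · subst hi
    rw [Function.update_self]
    rw [vars_C]
    exact Finset.empty_subset _
  · rw [Function.update_of_ne hi]
    exact h i

theorem thr_le (C₂ : ℝ) (hC₂ : 1 ≤ C₂) (hz : 1 ≤ z) :
    Real.exp (C₂ * z) + 1 ≤ Real.exp ((C₂ + 1) * z) := by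
  have hz' : (1 : ℝ) ≤ z := by exact_mod_cast hz
  have h1 : Real.exp ((C₂ + 1) * z) = Real.exp (C₂ * z) * Real.exp z := by
    rw [← Real.exp_add]
    congr 1
    ring
  have h2 : (2 : ℝ) ≤ Real.exp z := by linarith [Real.add_one_le_exp (z : ℝ)]
  have h3 : 1 ≤ Real.exp (C₂ * z) := Real.one_le_exp (by positivity)
  rw [h1]
  nlinarith

/-- The truncation is not active on the values of `V`. -/
theorem vf_ok (hA : AdxStmt) (hd0 : d 0 = 1) (hd : ∀ i, 1 ≤ d i)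
    (hR : ∀ l, TriN (D.R l)) (C₂ : ℝ) (hC₂ : 1 ≤ C₂) (hz : 1 ≤ z) (y : ℕ) (ω : D.Ω) (i : ℕ)
    (hi : i ≤ n) :
    (D.vf d z y C₂ n ω i).vars ⊆ range i ∧
      (D.vf d z y C₂ n ω i).IsWeightedHomogeneous d (d i - 1) ∧
      ∀ k, |(D.vf d z y C₂ n ω i).coeff k| ≤ Real.exp ((C₂ + 1) * z) := by
  have h1 : TriN (D.Rt ω) := tri_atT (hR _) _
  obtain ⟨-, -, -, -, -, h2, h3, -⟩ := hA.2 d (D.Rt ω) hd0 hd h1
  unfold NDat.vf
  rw [if_pos hi]
  refine ⟨(rnd_vars _ _ _).trans (h2 i), rnd_hom _ _ (h3 i), fun k => ?_⟩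
  refine (rnd_le ?_ (Real.exp_pos _).le _ _).trans (thr_le C₂ hC₂ hz)
  exact one_le_pow₀ (by norm_num)

theorem vf_zero (C₂ : ℝ) (hC₂ : 1 ≤ C₂) (y : ℕ) (ω : D.Ω) :
    D.vf d z y C₂ n ω 0 = 1 := by
  unfold NDat.vf
  rw [if_pos (Nat.zero_le _)]
  have h1 : fld d (D.Rt ω) 0 = 1 := by
    unfold fld fixm
    simp
  rw [h1]
  refine rnd_one _ _ (2 ^ (y * z)) (by push_cast; rfl) Nat.one_le_two_pow ?_
  exact Real.one_le_exp (by positivity)

/-- The field of the time. -/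
theorem vfT_one (hA : AdxStmt) (hd0 : d 0 = 1) (hd : ∀ i, 1 ≤ d i)
    (hR : ∀ l, TriN (D.R l)) (C₂ : ℝ) (hC₂ : 1 ≤ C₂) (hz : 1 ≤ z) (y : ℕ) (ω : D.Ω) :
    vfT d 1 (Real.exp ((C₂ + 1) * z)) (D.vf d z y C₂ n ω) 0 = 1 := by
  rw [vfT_eq (n := 1)]
  · change toF 1 (D.vf d z y C₂ n ω 0) = 1
    rw [vf_zero C₂ hC₂, map_one]
  · intro i hi
    have h1 := vf_ok (n := n) hA hd0 hd hR C₂ hC₂ hz y ω i (by omega)
    refine ⟨h1.1.trans ?_, h1.2⟩
    intro x hx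
    rw [Finset.mem_range] at hx ⊢
    omega

/-- The fields of the coordinate `i + 1`. -/
theorem vfT_sc (hA : AdxStmt) (hd0 : d 0 = 1) (hd : ∀ i, 1 ≤ d i)
    (hR : ∀ l, TriN (D.R l)) (C₂ : ℝ) (hC₂ : 1 ≤ C₂) (hz : 1 ≤ z) (y : ℕ) (ω : D.Ω) (i : ℕ)
    (hi : i ≤ n) :
    vfT d (i + 1) (Real.exp ((C₂ + 1) * z)) (D.vf d z y C₂ n ω) =
      exT (vfT d i (Real.exp ((C₂ + 1) * z)) (D.vf d z y C₂ n ω))
        (vfN d i (Real.exp ((C₂ + 1) * z)) (D.vf d z y C₂ n ω)) :=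
  vfT_succ fun i' hi' => vf_ok hA hd0 hd hR C₂ hC₂ hz y ω i' (hi'.trans hi)

/-! ### Monotonicity -/

theorem ok_mono {κ' : ℝ} (h : D.Ok n K J z M σ κ C₁ q) (hκ : κ ≤ κ') :
    D.Ok n K J z M σ κ' C₁ q := by
  have h1 : κ * z ≤ κ' * z := mul_le_mul_of_nonneg_right hκ (Nat.cast_nonneg _)
  exact
  { h with
    time := by linarith [h.time]
    full := fun k hk => by linarith [h.full k hk] }

theorem P2_mono {Ω G : Type} [Fintype Ω] {p : Ω → ℝ} (hp : ∀ ω, 0 ≤ p ω) (g : Ω → G)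
    {A A' : Ω → Ω → Prop} (h : ∀ ω ω', g ω = g ω' → 0 < p ω → 0 < p ω' → A ω ω' → A' ω ω') :
    P2 p g A ≤ P2 p g A' := by
  classical
  unfold P2
  refine Finset.sum_le_sum fun ω _ => Finset.sum_le_sum fun ω' _ => ?_
  have hnn : 0 ≤ p ω * p ω' / law p g (g ω) :=
    div_nonneg (mul_nonneg (hp ω) (hp ω')) (law_nonneg hp g _)
  by_cases h0 : 0 < p ω ∧ 0 < p ω'
  · split_ifs with h1 h2 h2
    · exact le_rfl
    · exact absurd ⟨h1.1, h ω ω' h1.1 h0.1 h0.2 h1.2⟩ h2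
    · exact hnn
    · exact le_rfl
  · have h3 : p ω * p ω' / law p g (g ω) = 0 := by
      rcases not_and_or.1 h0 with h4 | h4
      · rw [le_antisymm (not_lt.1 h4) (hp ω), zero_mul, zero_div]
      · rw [le_antisymm (not_lt.1 h4) (hp ω'), mul_zero, zero_div]
    rw [h3]
    split_ifs <;> exact le_rfl

theorem newLab_mono {i v v' A K' K'' : ℕ} {C₆ C₆' η' η'' : ℝ} (hq : ∀ ω, 0 ≤ q ω)
    (h : D.NewLab J z i v v' A K' C₆ η' q) (hK : K' ≤ K'') (hC : C₆ ≤ C₆') (hη : η'' ≤ η') :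
    D.NewLab J z i v v' A K'' C₆' η'' q := by
  obtain ⟨G, h1, h2, h3⟩ := h
  refine ⟨G, fun x => (h1 x).trans hK, h2, (hη.trans h3).trans (P2_mono hq _ ?_)⟩
  intro ω ω' _ _ _ h4
  refine ⟨h4.1, h4.2.1, h4.2.2.1, fun b hb => (h4.2.2.2 b hb).trans ?_⟩
  refine div_le_div_of_nonneg_right (Real.exp_le_exp.2 ?_) (by positivity)
  exact mul_le_mul_of_nonneg_right hC (Nat.cast_nonneg _)

end

/-- `Sbm` depends only on the values of `V`. -/
theorem sbm_congr {c m : ℕ} {Ω G B 𝔅 𝒱 : Type} [Fintype Ω] {d : Fin c → ℕ} {p : Ω → ℝ}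
    {g : Ω → G} {bk : Ω → B} {β : Ω → 𝔅} {V : Ω → 𝒱} {tm : Ω → ℤ} {N : ℕ} {κ η : ℝ}
    {ξT ξT' : 𝒱 → 𝔅 → Fin c → Pl c} (h : ∀ ω, ξT (V ω) (β ω) = ξT' (V ω) (β ω))
    (hS : Sbm d m p g bk β V tm ξT N κ η) : Sbm d m p g bk β V tm ξT' N κ η := by
  intro W _ q z hMC
  have h1 := hS W q z hMC
  have h2 : ∀ w, lgT β V ξT N z w = lgT β V ξT' N z w := by
    intro w
    funext a
    exact h _
  simp only [h2] at h1
  exact h1

end Pool.STAT.M31
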