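import Pool.Agent.H31.STAT.Trc1

/-!
# Truncation of labels to a universal degree

Row 375 (TRC): a telescope of closed labels of bounded degree, from the radius one to a small
radius, is replaced on the smallest natural box by labels of a degree which depends only on the
slope and on the number of coordinates.
-/

set_option autoImplicit false

namespace Pool.TRC31

open Finset MvPolynomial Pool.STAT

/-- A telescope of labels: levels `0, …, m`, coordinates before `n`. -/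
structure Tel (S n K m : ℕ) (Φ : ℕ → ℕ → PN) (g : ℕ → ℕ → ℝ) (a : ℕ → ℝ) (h A : ℝ) : Prop where
  h_nn : 0 ≤ h
  A_nn : 0 ≤ A
  tri : ∀ k ≤ m, TriN (Φ k)
  deg : ∀ k ≤ m, ∀ i < n, (Φ k i).totalDegree ≤ K
  zero : ∀ i, 1 ≤ i → i < n → Φ 0 i = 0
  mono : ∀ k' k, k' ≤ k → k ≤ m → a k' ≤ a k
  step : ∀ k < m, a (k + 1) - a k ≤ h
  lower : ∀ k' k, k' ≤ k → k ≤ m → ∀ i, 1 ≤ i → i < n → a k - a k' - A ≤ g k i - g k' i
  upper : ∀ k ≤ m, ∀ i, 1 ≤ i → i < n → g m i - g k i ≤ S * (a m - a k) + A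
  time : ∀ k ≤ m, a m - a k ≤ g m 0 - g k 0
  uni : ∀ k < m, ∀ i, 1 ≤ i → i < n → ∀ b, BxE (g (k + 1)) (Φ (k + 1)) n b →
    |eval b (Φ (k + 1) i - Φ k i)| ≤ Real.exp (A - g k i)

/-- The point `b` is in the boxes of all levels, dilated by `exp A`, coordinates up to `i`. -/
def BxD (m : ℕ) (Φ : ℕ → ℕ → PN) (g : ℕ → ℕ → ℝ) (A : ℝ) (i : ℕ) (b : ℕ → ℝ) : Prop :=
  ∀ k ≤ m, ∀ j ≤ i, |b j - eval b (Φ k j)| ≤ Real.exp (A - g k j)

theorem BxD.mono {m : ℕ} {Φ : ℕ → ℕ → PN} {g : ℕ → ℕ → ℝ} {A : ℝ} {i j : ℕ} {b : ℕ → ℝ}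
    (h : BxD m Φ g A i b) (hij : j ≤ i) : BxD m Φ g A j b :=
  fun k hk l hl => h k hk l (hl.trans hij)

/-- The truncated labels of the coordinates before `l`, with their frame `ν`. -/
structure Good (A : ℝ) (m l : ℕ) (Φ : ℕ → ℕ → PN) (g : ℕ → ℕ → ℝ) (a b₀ : ℕ → ℝ) (M D : ℕ)
    (θ Λ B : ℝ) (Ψ ν : ℕ → PN) : Prop where
  vPsi : ∀ i < l, (Ψ i).vars ⊆ range i
  dPsi : ∀ i < l, (Ψ i).totalDegree ≤ D
  vnu : ∀ i < l, (ν i).vars ⊆ range (i + 1)
  eq : ∀ i < l, ν i = bind₁ ν (Ψ i) + C (Real.exp (-g m i)) * X i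
  ev : ∀ i < l, eval (0 : ℕ → ℝ) (ν i) = b₀ i
  Z : ∀ k, 1 ≤ k → k ≤ m → θ ≤ a m - a k → ∀ i < l,
    nrm d1 (Real.exp ((a m - a k - θ) / M)) (zet (g k) (Φ k) ν i) ≤ B
  er : ∀ b, ∀ i < l, BxD m Φ g A i b → |b i - eval b (Ψ i)| ≤ Real.exp (Λ - g m i)

theorem exp_div_pow (x y : ℝ) (N : ℕ) :
    (Real.exp x / Real.exp y) ^ N = Real.exp (N * (x - y)) := by
  rw [← Real.exp_sub, ← Real.exp_nat_mul]

/-! ### Exponents -/

section Expo

variable {S M : ℕ} {θ θ' Λ h A : ℝ}

theorem ex1 (hS : 1 ≤ S) (hM : 1 ≤ M) {v δ hj : ℝ} (hh : 0 ≤ h) (hhj : hj ≤ h)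
    (hd : 0 ≤ δ - hj) (hθ' : θ + M * (h + 2 * A) ≤ θ') (hv : θ' ≤ v) :
    (v + δ - θ') / ((S + 1 : ℕ) * M : ℝ) - (v - θ) / M ≤ (δ - hj) - 2 * A := by
  have hS' : (1 : ℝ) ≤ S := by exact_mod_cast hS
  have hM' : (1 : ℝ) ≤ M := by exact_mod_cast hM
  have hMp : (0 : ℝ) < M := by linarith only [hM']
  have hP : (0 : ℝ) < (S + 1 : ℕ) * M := by push_cast; positivity
  have e1 : (v - θ) / M = ((S + 1 : ℕ) * (v - θ)) / ((S + 1 : ℕ) * M : ℝ) := by
    rw [mul_div_mul_left]
    push_cast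
    positivity
  rw [e1, ← sub_div, div_le_iff₀ hP]
  push_cast
  have hvθ : M * (h + 2 * A) ≤ v - θ := by linarith only [hθ', hv]
  have h1 : ((S : ℝ) - 1) * (M * (h + 2 * A)) ≤ (S - 1) * (v - θ) :=
    mul_le_mul_of_nonneg_left hvθ (by linarith only [hS'])
  have h2 : (1 : ℝ) * (δ - hj) ≤ ((S + 1) * M) * (δ - hj) :=
    mul_le_mul_of_nonneg_right (by nlinarith only [hM']) hd
  have h3 : h ≤ (S + 1) * M * h := by nlinarith only [hS, hh, hM', mul_nonneg (by positivity : (0 : ℝ) ≤ S) hh]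
  nlinarith only [hhj, hθ', hv, h1, h2, h3]

theorem ex2 (hS : 1 ≤ S) (hM : 1 ≤ M) {v δ hj : ℝ} (hA : 0 ≤ A) (hh : 0 ≤ h) (hhj : hj ≤ h)
    (hδ : 0 ≤ δ) (hθ' : θ + M * (h + 2 * A) ≤ θ') (hv : θ' ≤ v) :
    (((S + 1) * M - 1 : ℕ) : ℝ) * ((v + δ - θ') / ((S + 1 : ℕ) * M : ℝ) - (v - θ) / M) ≤
      (δ - hj) - 2 * A := by
  have hS' : (1 : ℝ) ≤ S := by exact_mod_cast hS
  have hM' : (1 : ℝ) ≤ M := by exact_mod_cast hM
  have hMp : (0 : ℝ) < M := by linarith only [hM']
  have hP : (0 : ℝ) < (S + 1 : ℕ) * M := by push_cast; positivity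
  have hge : 1 ≤ (S + 1) * M := Nat.mul_pos (by omega) hM
  have ec : (((S + 1) * M - 1 : ℕ) : ℝ) = (S + 1) * M - 1 := by
    rw [Nat.cast_sub hge]
    push_cast
    ring
  have h0 : M * (h + 2 * A) ≥ h + 2 * A := by nlinarith only [hA, hM', hh]
  have h1 : ((S + 1 : ℝ) * M - 1) * ((v + δ - θ') / ((S + 1 : ℕ) * M : ℝ)) ≤ v + δ - θ' := by
    rw [mul_div_assoc', div_le_iff₀ hP]
    push_cast
    nlinarith only [hδ, hv]
  have h2 : (v - θ) ≤ ((S + 1 : ℝ) * M - 1) * ((v - θ) / M) := by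
    rw [mul_div_assoc', le_div_iff₀ hMp]
    have : 0 ≤ v - θ := by nlinarith only [hA, hh, hθ', hv, h0]
    nlinarith only [this, hS', hM', mul_nonneg this (by nlinarith only [hS', hM'] : (0 : ℝ) ≤ S * M - 1)]
  rw [ec, mul_sub]
  linarith only [hhj, hθ', h0, h1, h2]

theorem ex3a (hM : 1 ≤ M) {u u1 : ℝ} (hu : u ≤ u1) (hθ : θ ≤ θ') (hv : θ' ≤ u) :
    (u - θ') / ((S + 1 : ℕ) * M : ℝ) ≤ (u1 - θ) / M := by
  have hM' : (1 : ℝ) ≤ M := by exact_mod_cast hM
  have hMp : (0 : ℝ) < M := by linarith only [hM']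
  have h1 : (u - θ') / ((S + 1 : ℕ) * M : ℝ) ≤ (u - θ') / M := by
    refine div_le_div_of_nonneg_left (by linarith only [hv]) hMp ?_
    push_cast
    nlinarith only [hMp, mul_nonneg (by positivity : (0 : ℝ) ≤ S) hMp.le]
  refine h1.trans (div_le_div_of_nonneg_right (by linarith only [hu, hθ]) hMp.le)

theorem ex_mul (hM : 1 ≤ M) (u u1 : ℝ) :
    (((S + 1) * M : ℕ) : ℝ) * ((u - θ') / ((S + 1 : ℕ) * M : ℝ) - (u1 - θ) / M) =
      (u - θ') - (S + 1) * (u1 - θ) := by
  have hM' : (1 : ℝ) ≤ M := by exact_mod_cast hM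
  have hMp : (M : ℝ) ≠ 0 := by positivity
  have hS1 : ((S : ℝ) + 1) ≠ 0 := by positivity
  push_cast
  field_simp

theorem ex_mul2 (hM : 1 ≤ M) (u1 : ℝ) :
    (((S + 1) * M : ℕ) : ℝ) * (Λ - (u1 - θ) / M) = (S + 1) * M * Λ - (S + 1) * (u1 - θ) := by
  have hM' : (1 : ℝ) ≤ M := by exact_mod_cast hM
  have hMp : (M : ℝ) ≠ 0 := by positivity
  push_cast
  field_simp

end Expo

/-! ### The step -/

section Step

variable {S n K m : ℕ} {Φ : ℕ → ℕ → PN} {g : ℕ → ℕ → ℝ} {a b₀ : ℕ → ℝ} {h A : ℝ}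

theorem tel_sum (T : Tel S n K m Φ g a h A) {l : ℕ} (hl : 1 ≤ l) (hln : l < n) (k : ℕ) :
    Φ k l = ∑ j ∈ range k, (Φ (j + 1) l - Φ j l) := by
  rw [Finset.sum_range_sub (fun k => Φ k l) k, T.zero l hl hln, sub_zero]

/-- The last level which is used. -/
theorem top_exists (T : Tel S n K m Φ g a h A) {θ' : ℝ} (hθ' : 0 ≤ θ') : ∃ p ≤ m,
    (∀ k, 1 ≤ k → k ≤ p → θ' ≤ a m - a k) ∧ (∀ k ≤ m, θ' ≤ a m - a k → k ≤ p) ∧
    a m - a p ≤ θ' + h := by
  classical
  refine ⟨Nat.findGreatest (fun k => θ' ≤ a m - a k) m, Nat.findGreatest_le m, ?_, ?_, ?_⟩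
  · intro k hk hkp
    have h0 : Nat.findGreatest (fun k => θ' ≤ a m - a k) m ≠ 0 := by omega
    have h1 := Nat.findGreatest_of_ne_zero (P := fun k => θ' ≤ a m - a k) rfl h0
    have h2 := T.mono k _ hkp (Nat.findGreatest_le m)
    have h3 : θ' ≤ a m - a (Nat.findGreatest (fun k => θ' ≤ a m - a k) m) := h1
    linarith only [h1, h2]
  · intro k hk hθ
    exact Nat.le_findGreatest hk hθ
  · set p := Nat.findGreatest (fun k => θ' ≤ a m - a k) m with hp
    rcases Nat.lt_or_ge p m with h0 | h0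
    · have h1 : ¬ (θ' ≤ a m - a (p + 1)) :=
        Nat.findGreatest_is_greatest (P := fun k => θ' ≤ a m - a k) (n := m) (k := p + 1)
          (by omega) (by omega)
      have h2 := T.step p h0
      linarith only [h1, h2, not_le.1 h1]
    · have h1 : p = m := le_antisymm (Nat.findGreatest_le m) h0
      rw [h1, sub_self]
      exact add_nonneg hθ' T.h_nn

/-- The frame recovers the point. -/
theorem frame_pt {l M D : ℕ} {θ Λ B : ℝ} {Ψ ν : ℕ → PN}
    (H : Good A m l Φ g a b₀ M D θ Λ B Ψ ν) (b : ℕ → ℝ) : ∀ i < l,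
    eval (fun j => Real.exp (g m j) * (b j - eval b (Ψ j))) (ν i) = b i := by
  intro i
  induction i using Nat.strong_induction_on with
  | _ i ih =>
    intro hi
    rw [H.eq i hi, map_add, eval_bind', map_mul, eval_C, eval_X, ← mul_assoc, ← Real.exp_add,
      neg_add_cancel, Real.exp_zero, one_mul]
    rw [AdxRow.evl_congr (g := b) fun j hj => by
      have h1 := mem_range.1 (H.vPsi i hi hj)
      exact ih j h1 (by omega)]
    ring

/-- The frame and its inverse. -/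
theorem frame_inv {l M D : ℕ} {θ Λ B : ℝ} {Ψ ν : ℕ → PN}
    (H : Good A m l Φ g a b₀ M D θ Λ B Ψ ν) {i : ℕ} (hi : i < l) :
    bind₁ ν (C (Real.exp (g m i)) * (X i - Ψ i)) = X i := by
  rw [map_mul, bind₁_C_right, map_sub, bind₁_X_right]
  conv_lhs => rw [H.eq i hi]
  rw [add_sub_cancel_left, ← mul_assoc, ← C_mul, ← Real.exp_add, add_neg_cancel, Real.exp_zero,
    C_1, one_mul]

/-- The coarse coordinates of the new label. -/
theorem new_Z (hS : 1 ≤ S) (T : Tel S n K m Φ g a h A)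
    (hb : ∀ k ≤ m, BxE (g k) (Φ k) n b₀) {l M D : ℕ} (hl : 1 ≤ l) (hln : l < n) (hM : 1 ≤ M)
    {θ Λ B Q θ' : ℝ} (hθ : 0 ≤ θ) (hΛ : 0 ≤ Λ) (hQ0 : 0 ≤ Q) {Ψ ν : ℕ → PN}
    (H : Good A m l Φ g a b₀ M D θ Λ B Ψ ν)
    (hQ : ∀ j < m, θ ≤ a m - a (j + 1) → nrm d1 (Real.exp ((a m - a (j + 1) - θ) / M))
      (bind₁ ν (Φ (j + 1) l - Φ j l)) ≤ Q * Real.exp (A - g j l))
    (hθ' : θ' = (S + 1) * θ + M * (h + 2 * A) + S * h + 3 * A + (S + 1) * M * Λ)
    {p : ℕ} (hpm : p ≤ m) (hp1 : ∀ k, 1 ≤ k → k ≤ p → θ' ≤ a m - a k) {k : ℕ} (hk1 : 1 ≤ k)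
    (hkp : k ≤ p) :
    nrm d1 (Real.exp ((a m - a k - θ') / ((S + 1) * M : ℕ))) (C (Real.exp (g k l)) *
      (C (b₀ l) + lw ((S + 1) * M) (bind₁ ν (Φ p l)) + C (Real.exp (-g m l)) * X l -
        bind₁ ν (Φ k l))) ≤ 2 + m * Q := by
  have hS' : (1 : ℝ) ≤ S := by exact_mod_cast hS
  have hM' : (1 : ℝ) ≤ M := by exact_mod_cast hM
  have hh := T.h_nn
  have hA := T.A_nn
  have hkm : k ≤ m := hkp.trans hpm
  have hcast : (((S + 1) * M : ℕ) : ℝ) = ((S + 1 : ℕ) : ℝ) * M := by push_cast; ring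
  have hMM : 2 ≤ (S + 1) * M := by nlinarith only [hS, hM]
  have n1 : (0 : ℝ) ≤ S * h := by positivity
  have n2 : (0 : ℝ) ≤ (S + 1) * M * Λ := by positivity
  have n3 : (0 : ℝ) ≤ M * (h + 2 * A) := by positivity
  have n4 : (0 : ℝ) ≤ S * θ := by positivity
  have hθθ : θ + M * (h + 2 * A) ≤ θ' := by rw [hθ']; linarith only [hA, n1, n2, n4]
  have hθθ2 : (S + 1) * θ + S * h + 3 * A ≤ θ' := by rw [hθ']; linarith only [n2, n3]
  have hθθ1 : θ ≤ θ' := by linarith only [hθ', hA, n1, n2, n3, n4]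
  have hu : θ' ≤ a m - a k := hp1 k hk1 hkp
  set ρ : ℝ := Real.exp ((a m - a k - θ') / ((S + 1) * M : ℕ)) with hρd
  have hρ : 0 < ρ := Real.exp_pos _
  set FE : ℕ → PN := fun j => bind₁ ν (Φ (j + 1) l - Φ j l) with hFE
  set r : ℕ → ℝ := fun j => Real.exp ((a m - a (j + 1) - θ) / M) with hrd
  have hr : ∀ j, 0 < r j := fun j => Real.exp_pos _
  have hFk : ∀ q, bind₁ ν (Φ q l) = ∑ j ∈ range q, FE j := fun q => by
    conv_lhs => rw [tel_sum T hl hln q, map_sum]
  have hjQ : ∀ j < p, nrm d1 (r j) (FE j) ≤ Q * Real.exp (A - g j l) := fun j hj =>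
    hQ j (by omega) (hθθ1.trans (hp1 (j + 1) (by omega) (by omega)))
  -- the decomposition
  have hsplit : C (b₀ l) + lw ((S + 1) * M) (bind₁ ν (Φ p l)) + C (Real.exp (-g m l)) * X l -
        bind₁ ν (Φ k l) = C (b₀ l - coeff 0 (bind₁ ν (Φ k l))) +
        (∑ j ∈ Ico k p, lw ((S + 1) * M) (FE j) + -(∑ j ∈ range k, gew d1 ((S + 1) * M) (FE j))) +
        C (Real.exp (-g m l)) * X l := by
    have e1 : lw ((S + 1) * M) (bind₁ ν (Φ p l)) = lw ((S + 1) * M) (bind₁ ν (Φ k l)) +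
        ∑ j ∈ Ico k p, lw ((S + 1) * M) (FE j) := by
      rw [hFk p, hFk k, lw_sum, lw_sum, Finset.sum_range_add_sum_Ico _ hkp]
    have e2 : gew d1 ((S + 1) * M) (bind₁ ν (Φ k l)) =
        ∑ j ∈ range k, gew d1 ((S + 1) * M) (FE j) := by
      rw [hFk k, gew_sum']
    have e3 := split3 ((S + 1) * M) (bind₁ ν (Φ k l))
    rw [e1, ← e2, C_sub]
    linear_combination (-1 : PN) * e3
  exact by
   rw [hsplit]
   -- the constant term
   have c0 : Real.exp (g k l) * |b₀ l - coeff 0 (bind₁ ν (Φ k l))| ≤ 1 := by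
     have e1 : coeff 0 (bind₁ ν (Φ k l)) = eval b₀ (Φ k l) := by
       rw [← eval_zero_coeff, eval_bind']
       exact AdxRow.evl_congr fun j hj => H.ev j (mem_range.1 (T.tri k hkm l hj))
     rw [e1]
     calc Real.exp (g k l) * |b₀ l - eval b₀ (Φ k l)|
         ≤ Real.exp (g k l) * Real.exp (-g k l) :=
           mul_le_mul_of_nonneg_left (hb k hkm l hln) (Real.exp_pos _).le
       _ = 1 := by rw [← Real.exp_add, add_neg_cancel, Real.exp_zero]
   -- the linear term
   have c1 : Real.exp (g k l) * (Real.exp (-g m l) * ρ) ≤ 1 := by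
     rw [hρd, ← Real.exp_add, ← Real.exp_add, Real.exp_le_one_iff]
     have e1 := T.lower k m hkm le_rfl l hl hln
     have e2 : (a m - a k - θ') / ((S + 1) * M : ℕ) ≤ a m - a k - θ' := by
       refine div_le_self (by linarith only [hu]) ?_
       exact_mod_cast (by omega : 1 ≤ (S + 1) * M)
     have e3 : A ≤ θ' := by linarith only [hθ, hθ', hA, n1, n2, n3, n4, mul_nonneg (by positivity : (0 : ℝ) ≤ S + 1) hθ]
     linarith only [hθ, hθ', hA, n1, n2, n3, n4, e1, e2]
   -- the low parts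
   have c2 : ∀ j ∈ Ico k p, Real.exp (g k l) * nrm d1 ρ (lw ((S + 1) * M) (FE j)) ≤ Q := by
     intro j hj
     rw [Finset.mem_Ico] at hj
     have hjm : j < m := by omega
     have hv : θ' ≤ a m - a (j + 1) := hp1 (j + 1) (by omega) (by omega)
     have e0 := T.lower k j hj.1 hjm.le l hl hln
     have e1 := T.mono k j hj.1 hjm.le
     have e2 := T.mono k (j + 1) (by omega) hjm
     have e3 := T.step j hjm
     have x1 := ex1 (S := S) (M := M) (θ := θ) (θ' := θ') (h := h) (A := A) hS hM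
       (v := a m - a (j + 1)) (δ := a (j + 1) - a k) (hj := a (j + 1) - a j) hh e3
       (by linarith only [e1]) hθθ hv
     have x2 := ex2 (S := S) (M := M) (θ := θ) (θ' := θ') (h := h) (A := A) hS hM
       (v := a m - a (j + 1)) (δ := a (j + 1) - a k) (hj := a (j + 1) - a j) hA hh e3
       (by linarith only [e2]) hθθ hv
     have e4 : a m - a (j + 1) + (a (j + 1) - a k) - θ' = a m - a k - θ' := by ring
     have e5 : a (j + 1) - a k - (a (j + 1) - a j) = a j - a k := by ring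
     rw [e4, e5] at x1 x2
     rw [← hcast] at x1 x2
     have y := nrm_lw_scale (ρ := r j) (ρ' := ρ) (t := Real.exp (g j l - g k l - A)) (hr j) hρ
       hMM (by
         rw [hρd, hrd, ← Real.exp_sub]
         exact Real.exp_le_exp.2 (by linarith only [e0, x1])) (by
         rw [hρd, hrd, exp_div_pow]
         exact Real.exp_le_exp.2 (by linarith only [e0, x2])) (FE j)
     calc Real.exp (g k l) * nrm d1 ρ (lw ((S + 1) * M) (FE j))
         ≤ Real.exp (g k l) * (Real.exp (g j l - g k l - A) * (Q * Real.exp (A - g j l))) :=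
           mul_le_mul_of_nonneg_left (y.trans (mul_le_mul_of_nonneg_left (hjQ j hj.2)
             (Real.exp_pos _).le)) (Real.exp_pos _).le
       _ = Q * (Real.exp (g k l) * Real.exp (g j l - g k l - A) * Real.exp (A - g j l)) := by ring
       _ = Q := by
         rw [← Real.exp_add, ← Real.exp_add]
         rw [show g k l + (g j l - g k l - A) + (A - g j l) = 0 by ring, Real.exp_zero, mul_one]
   -- the high parts
   exact by
    have c3 : ∀ j ∈ range k, Real.exp (g k l) * nrm d1 ρ (gew d1 ((S + 1) * M) (FE j)) ≤ Q := by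
      intro j hj
      rw [Finset.mem_range] at hj
      have hjm : j < m := by omega
      have hv : θ' ≤ a m - a (j + 1) := hp1 (j + 1) (by omega) (by omega)
      have e0 := T.upper j hjm.le l hl hln
      have e1 := T.lower k m hkm le_rfl l hl hln
      have e2 := T.mono (j + 1) k (by omega) hkm
      have e3 := T.step j hjm
      have e4 : (S : ℝ) * (a m - a j) ≤ S * (a m - a (j + 1) + h) :=
        mul_le_mul_of_nonneg_left (by linarith only [e3]) (by linarith only [hS'])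
      have x3 := ex3a (S := S) (M := M) (θ := θ) (θ' := θ') hM (u := a m - a k)
        (u1 := a m - a (j + 1)) (by linarith only [e2]) hθθ1 hu
      rw [← hcast] at x3
      have x4 := ex_mul (S := S) (M := M) (θ := θ) (θ' := θ') hM (a m - a k) (a m - a (j + 1))
      rw [← hcast] at x4
      have y := NRM.nrm_gew_scale d1 hρ ((S + 1) * M) (FE j) (r j) (by
        rw [hρd, hrd]
        exact Real.exp_le_exp.2 x3)
      rw [hρd, hrd, exp_div_pow, x4, ← hρd] at y
      calc Real.exp (g k l) * nrm d1 ρ (gew d1 ((S + 1) * M) (FE j))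
          ≤ Real.exp (g k l) * (Real.exp ((a m - a k - θ') - (S + 1) * (a m - a (j + 1) - θ)) *
              (Q * Real.exp (A - g j l))) :=
            mul_le_mul_of_nonneg_left (y.trans (mul_le_mul_of_nonneg_left (hjQ j (by omega))
              (Real.exp_pos _).le)) (Real.exp_pos _).le
        _ = Q * (Real.exp (g k l) * Real.exp ((a m - a k - θ') -
              (S + 1) * (a m - a (j + 1) - θ)) * Real.exp (A - g j l)) := by ring
        _ ≤ Q * 1 := by
          refine mul_le_mul_of_nonneg_left ?_ hQ0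
          rw [← Real.exp_add, ← Real.exp_add, Real.exp_le_one_iff]
          nlinarith only [hθ, hθ', hA, n1, n2, n3, n4, hv, e0, e1, e4]
        _ = Q := mul_one _
    -- the sum
    exact by
     have hE : (0 : ℝ) ≤ Real.exp (g k l) := (Real.exp_pos _).le
     have s1 := NRM.nrm_mul d1 hρ (C (Real.exp (g k l)))
       (C (b₀ l - coeff 0 (bind₁ ν (Φ k l))) +
           (∑ j ∈ Ico k p, lw ((S + 1) * M) (FE j) + -(∑ j ∈ range k, gew d1 ((S + 1) * M) (FE j))) +
           C (Real.exp (-g m l)) * X l)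
     rw [NRM.nrm_C, abs_of_nonneg hE] at s1
     refine s1.trans ?_
     have s2 : nrm d1 ρ (C (b₀ l - coeff 0 (bind₁ ν (Φ k l))) +
           (∑ j ∈ Ico k p, lw ((S + 1) * M) (FE j) + -(∑ j ∈ range k, gew d1 ((S + 1) * M) (FE j))) +
           C (Real.exp (-g m l)) * X l) ≤ |b₀ l - coeff 0 (bind₁ ν (Φ k l))| +
           (∑ j ∈ Ico k p, nrm d1 ρ (lw ((S + 1) * M) (FE j)) +
             ∑ j ∈ range k, nrm d1 ρ (gew d1 ((S + 1) * M) (FE j))) + Real.exp (-g m l) * ρ := by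
       refine (NRM.nrm_add d1 hρ _ _).trans (add_le_add ((NRM.nrm_add d1 hρ _ _).trans
         (add_le_add (NRM.nrm_C _ _ _).le ((NRM.nrm_add d1 hρ _ _).trans (add_le_add
           (NRM.nrm_sum d1 hρ _ _) ?_)))) ?_)
       · rw [NRM.nrm_neg]
         exact NRM.nrm_sum d1 hρ _ _
       · refine (NRM.nrm_mul d1 hρ _ _).trans ?_
         rw [NRM.nrm_C, NRM.nrm_X, abs_of_pos (Real.exp_pos _), show d1 l = 1 from rfl, pow_one]
     refine (mul_le_mul_of_nonneg_left s2 hE).trans ?_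
     have s3 : ∑ j ∈ Ico k p, Real.exp (g k l) * nrm d1 ρ (lw ((S + 1) * M) (FE j)) ≤
         ((p - k : ℕ) : ℝ) * Q := by
       refine (Finset.sum_le_sum c2).trans ?_
       rw [Finset.sum_const, Nat.card_Ico, nsmul_eq_mul]
     have s4 : ∑ j ∈ range k, Real.exp (g k l) * nrm d1 ρ (gew d1 ((S + 1) * M) (FE j)) ≤
         (k : ℝ) * Q := by
       refine (Finset.sum_le_sum c3).trans ?_
       rw [Finset.sum_const, Finset.card_range, nsmul_eq_mul]
     rw [← Finset.mul_sum] at s3 s4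
     have s5 : ((p - k : ℕ) : ℝ) * Q + (k : ℝ) * Q ≤ m * Q := by
       rw [← add_mul]
       refine mul_le_mul_of_nonneg_right ?_ hQ0
       rw [← Nat.cast_add, Nat.sub_add_cancel hkp]
       exact_mod_cast hpm
     linarith only [c0, c1, s3, s4, s5]

/-- The error of the new label. -/
theorem new_er (hS : 1 ≤ S) (T : Tel S n K m Φ g a h A)
    (hb : ∀ k ≤ m, BxE (g k) (Φ k) n b₀) {l M D : ℕ} (hl : 1 ≤ l) (hln : l < n) (hM : 1 ≤ M)
    {θ Λ B Q θ' : ℝ} (hθ : 0 ≤ θ) (hΛ : 0 ≤ Λ) (hQ0 : 0 ≤ Q) {Ψ ν : ℕ → PN}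
    (H : Good A m l Φ g a b₀ M D θ Λ B Ψ ν)
    (hQ : ∀ j < m, θ ≤ a m - a (j + 1) → nrm d1 (Real.exp ((a m - a (j + 1) - θ) / M))
      (bind₁ ν (Φ (j + 1) l - Φ j l)) ≤ Q * Real.exp (A - g j l))
    (hθ' : θ' = (S + 1) * θ + M * (h + 2 * A) + S * h + 3 * A + (S + 1) * M * Λ)
    {p : ℕ} (hpm : p ≤ m) (hp1 : ∀ k, 1 ≤ k → k ≤ p → θ' ≤ a m - a k)
    (hp3 : a m - a p ≤ θ' + h) (b : ℕ → ℝ) (hbb : BxD m Φ g A l b) :
    |b l - eval b (C (b₀ l) + bind₁ (fun i => C (Real.exp (g m i)) * (X i - Ψ i))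
      (lw ((S + 1) * M) (bind₁ ν (Φ p l))))| ≤
      Real.exp (S * (θ' + h) + 2 * A + (2 + m * Q) - g m l) := by
  have hS' : (1 : ℝ) ≤ S := by exact_mod_cast hS
  have hM' : (1 : ℝ) ≤ M := by exact_mod_cast hM
  have hMp : (0 : ℝ) < M := by linarith only [hM']
  have hh := T.h_nn
  have hA := T.A_nn
  have hMM : 2 ≤ (S + 1) * M := by nlinarith only [hS, hM]
  have n1 : (0 : ℝ) ≤ S * h := by positivity
  have n2 : (0 : ℝ) ≤ (S + 1) * M * Λ := by positivity
  have n3 : (0 : ℝ) ≤ M * (h + 2 * A) := by positivity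
  have n4 : (0 : ℝ) ≤ S * θ := by positivity
  have n5 : (M : ℝ) * Λ ≤ (S + 1) * M * Λ := by
    nlinarith only [hS, hMp, hΛ, mul_nonneg (by positivity : (0 : ℝ) ≤ S) (mul_nonneg hMp.le hΛ)]
  have hθθ1 : θ ≤ θ' := by rw [hθ']; linarith only [hA, n1, n2, n3, n4]
  set FE : ℕ → PN := fun j => bind₁ ν (Φ (j + 1) l - Φ j l) with hFE
  set r : ℕ → ℝ := fun j => Real.exp ((a m - a (j + 1) - θ) / M) with hrd
  have hr : ∀ j, 0 < r j := fun j => Real.exp_pos _
  have hFp : bind₁ ν (Φ p l) = ∑ j ∈ range p, FE j := by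
    conv_lhs => rw [tel_sum T hl hln p, map_sum]
  set y : ℕ → ℝ := fun j => Real.exp (g m j) * (b j - eval b (Ψ j)) with hy
  have hyl : ∀ i < l, |y i| ≤ Real.exp Λ := by
    intro i hi
    rw [hy]
    simp only
    rw [abs_mul, abs_of_pos (Real.exp_pos _)]
    calc Real.exp (g m i) * |b i - eval b (Ψ i)|
        ≤ Real.exp (g m i) * Real.exp (Λ - g m i) :=
          mul_le_mul_of_nonneg_left (H.er b i hi (hbb.mono hi.le)) (Real.exp_pos _).le
      _ = Real.exp Λ := by rw [← Real.exp_add]; ring_nf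
  have e1 : eval b (C (b₀ l) + bind₁ (fun i => C (Real.exp (g m i)) * (X i - Ψ i))
      (lw ((S + 1) * M) (bind₁ ν (Φ p l)))) = b₀ l + eval y (lw ((S + 1) * M)
        (bind₁ ν (Φ p l))) := by
    have e0 : (fun j => eval b (C (Real.exp (g m j)) * (X j - Ψ j))) = y := by
      funext j
      rw [map_mul, eval_C, map_sub, eval_X]
    rw [map_add, eval_C, eval_bind', e0]
  exact by
   have e2 : eval y (bind₁ ν (Φ p l)) = eval b (Φ p l) := by
     rw [eval_bind']
     exact AdxRow.evl_congr fun j hj => frame_pt H b j (mem_range.1 (T.tri p hpm l hj))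
   have e3 : coeff 0 (bind₁ ν (Φ p l)) = eval b₀ (Φ p l) := by
     rw [← eval_zero_coeff, eval_bind']
     exact AdxRow.evl_congr fun j hj => H.ev j (mem_range.1 (T.tri p hpm l hj))
   have e4 : eval y (lw ((S + 1) * M) (bind₁ ν (Φ p l))) = eval b (Φ p l) - eval b₀ (Φ p l) -
       ∑ j ∈ range p, eval y (gew d1 ((S + 1) * M) (FE j)) := by
     have h1 := congrArg (eval y) (split3 ((S + 1) * M) (bind₁ ν (Φ p l)))
     rw [map_add, map_add, eval_C, e2, e3] at h1
     have h2 : eval y (gew d1 ((S + 1) * M) (bind₁ ν (Φ p l))) =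
         ∑ j ∈ range p, eval y (gew d1 ((S + 1) * M) (FE j)) := by
       rw [hFp, gew_sum', map_sum]
     rw [h2] at h1
     linarith only [h1]
   have e5 : b l - (b₀ l + eval y (lw ((S + 1) * M) (bind₁ ν (Φ p l)))) =
       (b l - eval b (Φ p l)) + (-(b₀ l - eval b₀ (Φ p l)) +
         ∑ j ∈ range p, eval y (gew d1 ((S + 1) * M) (FE j))) := by
     rw [e4]
     ring
   rw [e1, e5]
   -- the terms
   have t0 : Real.exp (A - g p l) ≤ Real.exp (S * (θ' + h) + 2 * A - g m l) := by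
     refine Real.exp_le_exp.2 ?_
     have h1 := T.upper p hpm l hl hln
     have h2 : (S : ℝ) * (a m - a p) ≤ S * (θ' + h) :=
       mul_le_mul_of_nonneg_left hp3 (by linarith only [hS'])
     linarith only [h1, h2]
   have t1 : |b l - eval b (Φ p l)| ≤ Real.exp (S * (θ' + h) + 2 * A - g m l) :=
     (hbb p hpm l le_rfl).trans t0
   exact by
    have t2 : |b₀ l - eval b₀ (Φ p l)| ≤ Real.exp (S * (θ' + h) + 2 * A - g m l) :=
      (hb p hpm l hln).trans ((Real.exp_le_exp.2 (by linarith only [hA])).trans t0)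
    have t3 : ∀ j ∈ range p, |eval y (gew d1 ((S + 1) * M) (FE j))| ≤ Q * Real.exp (-g m l) := by
      intro j hj
      rw [Finset.mem_range] at hj
      have hjm : j < m := by omega
      have hv : θ' ≤ a m - a (j + 1) := hp1 (j + 1) (by omega) (by omega)
      have f1 : Λ ≤ (a m - a (j + 1) - θ) / M := by
        rw [le_div_iff₀ hMp]
        nlinarith only [hθ', hA, n1, n3, n4, n5, hv]
      have f2 : FE j = bind₁ ν (Φ (j + 1) l - Φ j l) := rfl
      have hvE : (Φ (j + 1) l - Φ j l).vars ⊆ range l := by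
        classical
        refine (vars_sub_subset _).trans (Finset.union_subset (T.tri _ hjm l) (T.tri _ hjm.le l))
      have hvF : (FE j).vars ⊆ range l := by
        rw [f2]
        exact SYS35.vars_bind hvE H.vnu
      have f3 : |eval y (gew d1 ((S + 1) * M) (FE j))| ≤
          nrm d1 (Real.exp Λ) (gew d1 ((S + 1) * M) (FE j)) := by
        refine NRM.abs_eval_le d1 y _ fun i hi => ?_
        rw [show d1 i = 1 from rfl, pow_one]
        exact hyl i (mem_range.1 (hvF (SYS35.vars_gew d1 _ _ hi)))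
      have f4 := NRM.nrm_gew_scale d1 (Real.exp_pos Λ) ((S + 1) * M) (FE j) (r j) (by
        rw [hrd]
        exact Real.exp_le_exp.2 f1)
      have f5 := ex_mul2 (S := S) (M := M) (θ := θ) (Λ := Λ) hM (a m - a (j + 1))
      rw [hrd, exp_div_pow, f5] at f4
      have f6 := T.upper j hjm.le l hl hln
      have f7 : (S : ℝ) * (a m - a j) ≤ S * (a m - a (j + 1) + h) :=
        mul_le_mul_of_nonneg_left (by linarith only [T, hjm, T.step j hjm]) (by linarith only [hS'])
      refine f3.trans (f4.trans ?_)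
      calc Real.exp ((S + 1) * M * Λ - (S + 1) * (a m - a (j + 1) - θ)) * nrm d1 (r j) (FE j)
          ≤ Real.exp ((S + 1) * M * Λ - (S + 1) * (a m - a (j + 1) - θ)) *
            (Q * Real.exp (A - g j l)) :=
            mul_le_mul_of_nonneg_left (hQ j hjm (hθθ1.trans hv)) (Real.exp_pos _).le
        _ = Q * (Real.exp ((S + 1) * M * Λ - (S + 1) * (a m - a (j + 1) - θ)) *
            Real.exp (A - g j l)) := by ring
        _ ≤ Q * Real.exp (-g m l) := by
          refine mul_le_mul_of_nonneg_left ?_ hQ0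
          rw [← Real.exp_add]
          refine Real.exp_le_exp.2 ?_
          rw [hθ'] at hv
          nlinarith only [hA, n3, hv, f6, f7]
    exact by
     have t4 : |∑ j ∈ range p, eval y (gew d1 ((S + 1) * M) (FE j))| ≤
         m * Q * Real.exp (-g m l) := by
       refine (Finset.abs_sum_le_sum_abs _ _).trans ((Finset.sum_le_sum t3).trans ?_)
       rw [Finset.sum_const, Finset.card_range, nsmul_eq_mul, ← mul_assoc]
       refine mul_le_mul_of_nonneg_right (mul_le_mul_of_nonneg_right ?_ hQ0) (Real.exp_pos _).le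
       exact_mod_cast hpm
     have t5 : |(b l - eval b (Φ p l)) + (-(b₀ l - eval b₀ (Φ p l)) +
           ∑ j ∈ range p, eval y (gew d1 ((S + 1) * M) (FE j)))| ≤
         Real.exp (S * (θ' + h) + 2 * A - g m l) + (Real.exp (S * (θ' + h) + 2 * A - g m l) +
           m * Q * Real.exp (-g m l)) := by
       refine (abs_add_le _ _).trans (add_le_add t1 ((abs_add_le _ _).trans (add_le_add ?_ t4)))
       rw [abs_neg]
       exact t2
     refine t5.trans ?_
     have hX : 0 ≤ S * (θ' + h) + 2 * A := by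
       have : 0 ≤ (S : ℝ) * (θ' + h) := mul_nonneg (by linarith only [hS']) (by linarith only [hθ, hθ', hh, hA, n1, n2, n3, n4])
       linarith only [hA, this]
     have t6 : Real.exp (-g m l) ≤ Real.exp (S * (θ' + h) + 2 * A - g m l) :=
       Real.exp_le_exp.2 (by linarith only [hX])
     have hmQ : 0 ≤ (m : ℝ) * Q := by positivity
     have t7 : m * Q * Real.exp (-g m l) ≤ m * Q * Real.exp (S * (θ' + h) + 2 * A - g m l) :=
       mul_le_mul_of_nonneg_left t6 hmQ
     have t8 : (2 + m * Q) * Real.exp (S * (θ' + h) + 2 * A - g m l) ≤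
         Real.exp (2 + m * Q) * Real.exp (S * (θ' + h) + 2 * A - g m l) :=
       mul_le_mul_of_nonneg_right (by linarith only [Real.add_one_le_exp (2 + m * Q)]) (Real.exp_pos _).le
     calc _ ≤ (2 + m * Q) * Real.exp (S * (θ' + h) + 2 * A - g m l) := by linarith only [t7]
       _ ≤ _ := t8
       _ = _ := by
         rw [← Real.exp_add]
         ring_nf

theorem Good.mono {l M D D' : ℕ} {θ Λ B θ' Λ' B' : ℝ} {Ψ ν : ℕ → PN}
    (H : Good A m l Φ g a b₀ M D θ Λ B Ψ ν) (hD : D ≤ D') (hθ : θ ≤ θ') (hΛ : Λ ≤ Λ')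
    (hB : B ≤ B') : Good A m l Φ g a b₀ M D' θ' Λ' B' Ψ ν where
  vPsi := H.vPsi
  dPsi := fun i hi => (H.dPsi i hi).trans hD
  vnu := H.vnu
  eq := H.eq
  ev := H.ev
  Z := fun k hk hkm hu i hi => by
    refine (SYS35.nrm_mono (Real.exp_pos _).le (Real.exp_le_exp.2 ?_)).trans
      ((H.Z k hk hkm (hθ.trans hu) i hi).trans hB)
    exact div_le_div_of_nonneg_right (by linarith only [hθ]) (Nat.cast_nonneg M)
  er := fun b i hi hb => (H.er b i hi hb).trans (Real.exp_le_exp.2 (by linarith only [hΛ]))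

/-- One more coordinate. -/
theorem good_step (hS : 1 ≤ S) (T : Tel S n K m Φ g a h A)
    (hb : ∀ k ≤ m, BxE (g k) (Φ k) n b₀) {l M D : ℕ} (hl : 1 ≤ l) (hln : l < n) (hM : 1 ≤ M)
    (hD : 1 ≤ D) {θ Λ B Q θ' : ℝ} (hθ : 0 ≤ θ) (hΛ : 0 ≤ Λ) (hQ0 : 0 ≤ Q) {Ψ ν : ℕ → PN}
    (H : Good A m l Φ g a b₀ M D θ Λ B Ψ ν)
    (hQ : ∀ j < m, θ ≤ a m - a (j + 1) → nrm d1 (Real.exp ((a m - a (j + 1) - θ) / M))
      (bind₁ ν (Φ (j + 1) l - Φ j l)) ≤ Q * Real.exp (A - g j l))
    (hθ' : θ' = (S + 1) * θ + M * (h + 2 * A) + S * h + 3 * A + (S + 1) * M * Λ) :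
    ∃ Ψ' ν', Good A m (l + 1) Φ g a b₀ ((S + 1) * M) ((S + 1) * M * D) θ'
      (S * (θ' + h) + 2 * A + (2 + m * Q)) (max B (2 + m * Q)) Ψ' ν' := by
  classical
  have hS' : (1 : ℝ) ≤ S := by exact_mod_cast hS
  have hM' : (1 : ℝ) ≤ M := by exact_mod_cast hM
  have hMp : (0 : ℝ) < M := by linarith only [hM']
  have hh := T.h_nn
  have hA := T.A_nn
  have hMM : 2 ≤ (S + 1) * M := by nlinarith only [hS, hM]
  have n1 : (0 : ℝ) ≤ S * h := by positivity
  have n2 : (0 : ℝ) ≤ (S + 1) * M * Λ := by positivity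
  have n3 : (0 : ℝ) ≤ M * (h + 2 * A) := by positivity
  have n4 : (0 : ℝ) ≤ S * θ := by positivity
  have n5 : Λ ≤ (S + 1) * M * Λ := by
    have : (1 : ℝ) ≤ (S + 1) * M := by nlinarith only [hM']
    nlinarith only [hΛ, this]
  have hθθ1 : θ ≤ θ' := by rw [hθ']; linarith only [hA, n1, n2, n3, n4]
  have hΛθ : Λ ≤ θ' := by rw [hθ']; linarith only [hθ, hA, n1, n3, n4, n5]
  have hθ0 : 0 ≤ θ' := hθ.trans hθθ1
  obtain ⟨p, hpm, hp1, hp2, hp3⟩ := top_exists T hθ0
  set G : PN := lw ((S + 1) * M) (bind₁ ν (Φ p l)) with hG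
  set ξ : ℕ → PN := fun i => C (Real.exp (g m i)) * (X i - Ψ i) with hξ
  set Pl : PN := C (b₀ l) + bind₁ ξ G with hPl
  set Nl : PN := C (b₀ l) + G + C (Real.exp (-g m l)) * X l with hNl
  have hGv : G.vars ⊆ range l :=
    (vars_lw (by omega) _).trans (SYS35.vars_bind (T.tri p hpm l) H.vnu)
  have hGd : G.totalDegree ≤ (S + 1) * M - 1 := deg_lw (by omega) _
  have hΨ : ∀ i < l, Function.update Ψ l Pl i = Ψ i := fun i hi =>
    Function.update_of_ne (by omega) _ _
  have hΨl : Function.update Ψ l Pl l = Pl := Function.update_self _ _ _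
  have hν : ∀ i < l, Function.update ν l Nl i = ν i := fun i hi =>
    Function.update_of_ne (by omega) _ _
  exact by
   have hνl : Function.update ν l Nl l = Nl := Function.update_self _ _ _
   have hbind : ∀ (F : PN) (i : ℕ), i ≤ l → F.vars ⊆ range i →
       bind₁ (Function.update ν l Nl) F = bind₁ ν F := fun F i hi hF =>
     bind_congr_lt hF fun j hj => hν j (by omega)
   have hξv : ∀ i < l, (ξ i).vars ⊆ range (i + 1) := by
     intro i hi
     rw [hξ]
     refine (vars_mul _ _).trans (Finset.union_subset ?_ ?_)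
     · rw [vars_C]
       exact empty_subset _
     · refine (vars_sub_subset _).trans (Finset.union_subset ?_ ?_)
       · rw [vars_X]
         intro j hj
         rw [Finset.mem_singleton.1 hj]
         exact mem_range.2 (Nat.lt_succ_self i)
       · exact (H.vPsi i hi).trans (range_mono (Nat.le_succ i))
   have hξd : ∀ i < l, (ξ i).totalDegree ≤ D := by
     intro i hi
     rw [hξ]
     refine (totalDegree_mul _ _).trans ?_
     rw [totalDegree_C, zero_add]
     refine (totalDegree_sub _ _).trans (max_le ?_ (H.dPsi i hi))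
     rw [totalDegree_X]
     exact hD
   have hPv : Pl.vars ⊆ range l := by
     refine (vars_add_subset _ _).trans (Finset.union_subset ?_ (SYS35.vars_bind hGv hξv))
     rw [vars_C]
     exact empty_subset _
   refine ⟨Function.update Ψ l Pl, Function.update ν l Nl, ?_, ?_, ?_, ?_, ?_, ?_, ?_⟩
   · intro i hi
     rcases Nat.lt_succ_iff_lt_or_eq.1 hi with h1 | rfl
     · rw [hΨ i h1]
       exact H.vPsi i h1
     · rw [hΨl]
       exact hPv
   · intro i hi
     rcases Nat.lt_succ_iff_lt_or_eq.1 hi with h1 | rfl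
     · rw [hΨ i h1]
       refine (H.dPsi i h1).trans ?_
       calc D = 1 * D := (one_mul D).symm
         _ ≤ (S + 1) * M * D := Nat.mul_le_mul_right _ (by omega)
     · rw [hΨl]
       refine (totalDegree_add _ _).trans (max_le ?_ ?_)
       · rw [totalDegree_C]
         exact Nat.zero_le _
       · refine (SYS35.totalDegree_bind hGv hGd hξd).trans ?_
         exact Nat.mul_le_mul_right _ (by omega)
   · intro i hi
     rcases Nat.lt_succ_iff_lt_or_eq.1 hi with h1 | rfl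
     · rw [hν i h1]
       exact H.vnu i h1
     · rw [hνl]
       refine (vars_add_subset _ _).trans (Finset.union_subset
         ((vars_add_subset _ _).trans (Finset.union_subset ?_ ?_)) ?_)
       · rw [vars_C]
         exact empty_subset _
       · exact hGv.trans (range_mono (Nat.le_succ _))
       · refine (vars_mul _ _).trans (Finset.union_subset ?_ ?_)
         · rw [vars_C]
           exact empty_subset _
         · rw [vars_X]
           intro j hj
           rw [Finset.mem_singleton.1 hj]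
           exact mem_range.2 (Nat.lt_succ_self _)
   · intro i hi
     rcases Nat.lt_succ_iff_lt_or_eq.1 hi with h1 | rfl
     · rw [hν i h1, hΨ i h1, hbind (Ψ i) i h1.le (H.vPsi i h1)]
       exact H.eq i h1
     · rw [hνl, hΨl, hbind Pl _ le_rfl hPv]
       have e1 : bind₁ ν (bind₁ ξ G) = G := by
         rw [bind₁_bind₁]
         have e2 : bind₁ (fun i => bind₁ ν (ξ i)) G = bind₁ X G :=
           bind_congr_lt hGv fun j hj => frame_inv H hj
         rw [e2, bind₁_X_left, AlgHom.id_apply]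
       rw [hPl, map_add, bind₁_C_right, e1]
   · intro i hi
     rcases Nat.lt_succ_iff_lt_or_eq.1 hi with h1 | rfl
     · rw [hν i h1]
       exact H.ev i h1
     · rw [hνl, hNl, map_add, map_add, eval_C, hG, eval_zero_lw (by omega), map_mul, eval_X,
         Pi.zero_apply, mul_zero, add_zero, add_zero]
   · intro k hk hkm hu i hi
     rcases Nat.lt_succ_iff_lt_or_eq.1 hi with h1 | rfl
     · have e1 : zet (g k) (Φ k) (Function.update ν l Nl) i = zet (g k) (Φ k) ν i := by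
         unfold zet
         rw [hν i h1, hbind (Φ k i) i h1.le (T.tri k hkm i)]
       rw [e1]
       have e2 := ex3a (S := S) (M := M) (θ := θ) (θ' := θ') hM (u := a m - a k)
         (u1 := a m - a k) le_rfl hθθ1 hu
       have e3 : ((S + 1 : ℕ) : ℝ) * M = (((S + 1) * M : ℕ) : ℝ) := by push_cast; ring
       rw [e3] at e2
       exact (SYS35.nrm_mono (Real.exp_pos _).le (Real.exp_le_exp.2 e2)).trans
         ((H.Z k hk hkm (hθθ1.trans hu) i h1).trans (le_max_left _ _))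
     · have e1 : zet (g k) (Φ k) (Function.update ν i Nl) i =
           C (Real.exp (g k i)) * (Nl - bind₁ ν (Φ k i)) := by
         unfold zet
         rw [hνl, hbind (Φ k i) i le_rfl (T.tri k hkm i)]
       rw [e1]
       exact (new_Z hS T hb hl hln hM hθ hΛ hQ0 H hQ hθ' hpm hp1 hk (hp2 k hkm hu)).trans
         (le_max_right _ _)
   · intro b i hi hbb
     rcases Nat.lt_succ_iff_lt_or_eq.1 hi with h1 | rfl
     · rw [hΨ i h1]
       refine (H.er b i h1 hbb).trans (Real.exp_le_exp.2 ?_)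
       have e1 : θ' ≤ S * θ' := by nlinarith only [hθ', hθ, hS', hA, n1, n2, n3, n4]
       have e2 : (0 : ℝ) ≤ m * Q := by positivity
       nlinarith only [hθ, hθ', hA, n1, n3, n4, n5, e1, e2]
     · rw [hΨl]
       exact new_er hS T hb hl hln hM hθ hΛ hQ0 H hQ hθ' hpm hp1 hp3 b hbb

/-- The time. -/
theorem good_one (T : Tel S n K m Φ g a h A) (hn : 1 ≤ n)
    (hb : ∀ k ≤ m, BxE (g k) (Φ k) n b₀) :
    ∃ Ψ ν, Good A m 1 Φ g a b₀ 1 1 0 (A + 1) 2 Ψ ν := by
  refine ⟨fun _ => C (b₀ 0), fun _ => C (b₀ 0) + C (Real.exp (-g m 0)) * X 0,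
    ?_, ?_, ?_, ?_, ?_, ?_, ?_⟩
  · intro i hi
    rw [vars_C]
    exact empty_subset _
  · intro i hi
    rw [totalDegree_C]
    exact Nat.zero_le _
  · intro i hi
    classical
    obtain rfl : i = 0 := by omega
    refine (vars_add_subset _ _).trans (Finset.union_subset ?_ ?_)
    · rw [vars_C]
      exact empty_subset _
    · refine (vars_mul _ _).trans (Finset.union_subset ?_ ?_)
      · rw [vars_C]
        exact empty_subset _
      · rw [vars_X]
        intro j hj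
        rw [Finset.mem_singleton.1 hj]
        exact mem_range.2 (Nat.lt_succ_self _)
  · intro i hi
    obtain rfl : i = 0 := by omega
    rw [bind₁_C_right]
  · intro i hi
    obtain rfl : i = 0 := by omega
    rw [map_add, eval_C, map_mul, eval_X, Pi.zero_apply, mul_zero, add_zero]
  · intro k hk hkm hu i hi
    obtain rfl : i = 0 := by omega
    set ν : ℕ → PN := fun _ => C (b₀ 0) + C (Real.exp (-g m 0)) * X 0 with hν
    have hρ : 0 < Real.exp ((a m - a k - 0) / ((1 : ℕ) : ℝ)) := Real.exp_pos _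
    have e1 : bind₁ ν (Φ k 0) = C (eval b₀ (Φ k 0)) := by
      have h1 : bind₁ ν (Φ k 0) = bind₁ (fun i => C (b₀ i)) (Φ k 0) :=
        bind_congr_lt (T.tri k hkm 0) fun j hj => by omega
      rw [h1, bind₁, aeval_def, ← algebraMap_eq]
      exact (MvPolynomial.eval₂_comp_left (algebraMap ℝ PN) (RingHom.id ℝ) b₀ (Φ k 0)).symm
    have e2 : zet (g k) (Φ k) ν 0 = C (Real.exp (g k 0)) *
        (C (b₀ 0 - eval b₀ (Φ k 0)) + C (Real.exp (-g m 0)) * X 0) := by
      unfold zet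
      rw [e1, hν, C_sub]
      ring
    rw [e2]
    refine (NRM.nrm_mul d1 hρ _ _).trans ?_
    rw [NRM.nrm_C, abs_of_pos (Real.exp_pos _)]
    have s1 : nrm d1 (Real.exp ((a m - a k - 0) / ((1 : ℕ) : ℝ)))
        (C (b₀ 0 - eval b₀ (Φ k 0)) + C (Real.exp (-g m 0)) * X 0) ≤
        |b₀ 0 - eval b₀ (Φ k 0)| + Real.exp (-g m 0) * Real.exp (a m - a k) := by
      refine (NRM.nrm_add d1 hρ _ _).trans (add_le_add (NRM.nrm_C _ _ _).le ?_)
      refine (NRM.nrm_mul d1 hρ _ _).trans ?_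
      rw [NRM.nrm_C, NRM.nrm_X, abs_of_pos (Real.exp_pos _), show d1 0 = 1 from rfl, pow_one,
        Nat.cast_one, div_one, sub_zero]
    refine (mul_le_mul_of_nonneg_left s1 (Real.exp_pos _).le).trans ?_
    rw [mul_add]
    have s2 : Real.exp (g k 0) * |b₀ 0 - eval b₀ (Φ k 0)| ≤ 1 := by
      calc Real.exp (g k 0) * |b₀ 0 - eval b₀ (Φ k 0)|
          ≤ Real.exp (g k 0) * Real.exp (-g k 0) :=
            mul_le_mul_of_nonneg_left (hb k hkm 0 (by omega)) (Real.exp_pos _).le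
        _ = 1 := by rw [← Real.exp_add, add_neg_cancel, Real.exp_zero]
    have s3 : Real.exp (g k 0) * (Real.exp (-g m 0) * Real.exp (a m - a k)) ≤ 1 := by
      rw [← Real.exp_add, ← Real.exp_add, Real.exp_le_one_iff]
      linarith only [T, hkm, T.time k hkm]
    linarith only [s2, s3]
  · intro b i hi hbb
    obtain rfl : i = 0 := by omega
    have h1 := hbb m le_rfl 0 le_rfl
    have h2 := hb m le_rfl 0 (by omega)
    have h3 : eval b (Φ m 0) = eval b₀ (Φ m 0) :=
      AdxRow.evl_congr fun j hj => by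
        have := mem_range.1 (T.tri m le_rfl 0 hj)
        omega
    rw [eval_C]
    rw [h3] at h1
    have h4 : |b 0 - b₀ 0| ≤ Real.exp (A - g m 0) + Real.exp (A - g m 0) := by
      have h5 : b 0 - b₀ 0 = (b 0 - eval b₀ (Φ m 0)) - (b₀ 0 - eval b₀ (Φ m 0)) := by ring
      rw [h5]
      exact (abs_sub _ _).trans (add_le_add h1 (h2.trans (Real.exp_le_exp.2 (by
        linarith only [T, T.A_nn]))))
    refine h4.trans ?_
    rw [show A + 1 - g m 0 = (A - g m 0) + 1 by ring, Real.exp_add]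
    have h5 : (2 : ℝ) ≤ Real.exp 1 := by linarith [Real.add_one_le_exp (1 : ℝ)]
    nlinarith only [h5, Real.exp_pos (A - g m 0)]

end Step

theorem good_all (S n : ℕ) (hS : 1 ≤ S) : ∀ l, 1 ≤ l → l ≤ n → ∃ c : ℝ, 0 ≤ c ∧ ∀ K m : ℕ,
    ∃ Cc : ℝ, 1 ≤ Cc ∧ ∀ (Φ : ℕ → ℕ → PN) (g : ℕ → ℕ → ℝ) (a b₀ : ℕ → ℝ) (h A : ℝ),
      Tel S n K m Φ g a h A → (∀ k ≤ m, BxE (g k) (Φ k) n b₀) →
      ∃ Ψ ν, Good A m l Φ g a b₀ ((S + 1) ^ (l - 1)) ((S + 1) ^ l ^ 2) (c * (h + A) + Cc)
        (c * (h + A) + Cc) Cc Ψ ν := by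
  intro l
  induction l with
  | zero => intro h; omega
  | succ l ih =>
    intro _ hln
    rcases Nat.eq_zero_or_pos l with rfl | hl
    · refine ⟨1, zero_le_one, fun K m => ⟨2, by norm_num, ?_⟩⟩
      intro Φ g a b₀ h A T hb
      obtain ⟨Ψ, ν, H⟩ := good_one T (by omega) hb
      refine ⟨Ψ, ν, ?_⟩
      have hh := T.h_nn
      have hA := T.A_nn
      have h1 := H.mono (D' := (S + 1) ^ (0 + 1) ^ 2) (θ' := 1 * (h + A) + 2)
        (Λ' := 1 * (h + A) + 2) (B' := 2) (Nat.one_le_pow _ _ (by omega)) (by linarith only [hh, hA])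
        (by linarith only [hh]) le_rfl
      exact h1
    · obtain ⟨c, hc, H0⟩ := ih hl (by omega)
      set M : ℕ := (S + 1) ^ (l - 1) with hMd
      have hM : 1 ≤ M := Nat.one_le_pow _ _ (by omega)
      set c1 : ℝ := (S + 1) * c + 2 * M + S + 3 + (S + 1) * M * c with hc1
      have hc1n : 0 ≤ c1 := by positivity
      refine ⟨S * c1 + S + 2 + c1, by positivity, fun K m => ?_⟩
      obtain ⟨Cc, hCc, H1⟩ := H0 K m
      obtain ⟨Cq, hCq, K1, hkey⟩ := key n K K
      set Q : ℝ := Cq * Cc ^ K1 with hQd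
      have hQ0 : 0 ≤ Q := by positivity
      set C1 : ℝ := (S + 1) * Cc + (S + 1) * M * Cc with hC1
      have hC1n : 0 ≤ C1 := by positivity
      refine ⟨S * C1 + C1 + (2 + m * Q) + Cc, ?_, ?_⟩
      · have : (0 : ℝ) ≤ S * C1 := by positivity
        have : (0 : ℝ) ≤ m * Q := by positivity
        linarith
      intro Φ g a b₀ h A T hb
      obtain ⟨Ψ, ν, H⟩ := H1 Φ g a b₀ h A T hb
      have hh := T.h_nn
      have hA := T.A_nn
      have hθ0 : 0 ≤ c * (h + A) + Cc := by positivity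
      have hQ : ∀ j < m, c * (h + A) + Cc ≤ a m - a (j + 1) →
          nrm d1 (Real.exp ((a m - a (j + 1) - (c * (h + A) + Cc)) / M))
            (bind₁ ν (Φ (j + 1) l - Φ j l)) ≤ Q * Real.exp (A - g j l) := by
        intro j hj hu
        classical
        exact hkey (g (j + 1)) (Φ (j + 1)) (T.tri (j + 1) hj)
          (fun i hi => T.deg (j + 1) hj i hi) (Φ (j + 1) l - Φ j l) l (by omega)
          ((vars_sub_subset _).trans (Finset.union_subset (T.tri _ hj l) (T.tri _ hj.le l)))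
          ((totalDegree_sub _ _).trans (max_le (T.deg (j + 1) hj l (by omega))
            (T.deg j hj.le l (by omega)))) _ (fun b hbx => T.uni j hj l hl (by omega) b hbx)
          ν _ Cc (Real.exp_pos _) hCc (fun i hi => H.Z (j + 1) (by omega) hj hu i hi)
      obtain ⟨Ψ', ν', H'⟩ := good_step hS T hb hl (by omega) hM
        (Nat.one_le_pow _ _ (by omega)) hθ0 hθ0 hQ0 H hQ rfl
      refine ⟨Ψ', ν', ?_⟩
      have e1 : (S + 1) * M = (S + 1) ^ (l + 1 - 1) := by
        rw [hMd, ← pow_succ', Nat.sub_add_cancel hl, Nat.add_sub_cancel]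
      have e2 : (S + 1) * M * (S + 1) ^ l ^ 2 ≤ (S + 1) ^ (l + 1) ^ 2 := by
        rw [e1, ← pow_add]
        refine Nat.pow_le_pow_right (by omega) ?_
        rw [Nat.add_sub_cancel]
        nlinarith only [hl]
      have q1 : (0 : ℝ) ≤ m * Q := by positivity
      have q2 : (0 : ℝ) ≤ S * c1 := by positivity
      have q3 : (0 : ℝ) ≤ S * C1 := by positivity
      have e3 : (S + 1) * (c * (h + A) + Cc) + M * (h + 2 * A) + S * h + 3 * A +
          (S + 1) * M * (c * (h + A) + Cc) ≤ c1 * (h + A) + C1 := by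
        rw [hc1, hC1]
        have : (0 : ℝ) ≤ M * h := by positivity
        have : (0 : ℝ) ≤ S * A := by positivity
        nlinarith
      have hhA : 0 ≤ h + A := by positivity
      have g1 : 0 ≤ S * c1 * (h + A) := mul_nonneg q2 hhA
      have g2 : 0 ≤ c1 * (h + A) := mul_nonneg hc1n hhA
      have g3 : 0 ≤ (S : ℝ) * (h + A) := by positivity
      have e4 := H'.mono (D' := (S + 1) ^ (l + 1) ^ 2)
        (θ' := (S * c1 + S + 2 + c1) * (h + A) + (S * C1 + C1 + (2 + m * Q) + Cc))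
        (Λ' := (S * c1 + S + 2 + c1) * (h + A) + (S * C1 + C1 + (2 + m * Q) + Cc))
        (B' := S * C1 + C1 + (2 + m * Q) + Cc) e2 (by nlinarith only [hCc, hh, hA, q1, q3, e3, g1, g3]) (by
          have e5 := mul_le_mul_of_nonneg_left e3 (by positivity : (0 : ℝ) ≤ S)
          have : (0 : ℝ) ≤ S * A := by positivity
          nlinarith only [hCc, hC1n, hh, g2, e5, this]) (max_le (by linarith only [hC1n, q1, q3]) (by linarith only [hCc, hC1n, q3]))
      rw [e1] at e4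
      exact e4

/-- **TRC.** Labels of a universal degree. The point `b₀` is in all the boxes. For every `b`
in the dilated boxes the error is at most `exp (c (h + A) + Cc - g m i)`. -/
theorem trc (S n : ℕ) (hS : 1 ≤ S) : ∃ c : ℝ, 0 ≤ c ∧ ∀ K m : ℕ, ∃ Cc : ℝ, 0 ≤ Cc ∧
    ∀ (Φ : ℕ → ℕ → PN) (g : ℕ → ℕ → ℝ) (a b₀ : ℕ → ℝ) (h A : ℝ),
      Tel S n K m Φ g a h A → (∀ k ≤ m, BxE (g k) (Φ k) n b₀) →
      ∃ Ψ : ℕ → PN, TriN Ψ ∧ (∀ i, (Ψ i).totalDegree ≤ (S + 1) ^ n ^ 2) ∧
        ∀ b, ∀ i < n, BxD m Φ g A i b →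
          |b i - eval b (Ψ i)| ≤ Real.exp (c * (h + A) + Cc - g m i) := by
  rcases Nat.eq_zero_or_pos n with rfl | hn
  · refine ⟨0, le_rfl, fun K m => ⟨0, le_rfl, ?_⟩⟩
    intro Φ g a b₀ h A _ _
    refine ⟨0, fun i => ?_, fun i => ?_, fun b i hi => by omega⟩
    · rw [Pi.zero_apply, vars_0]
      exact empty_subset _
    · rw [Pi.zero_apply, totalDegree_zero]
      exact Nat.zero_le _
  · obtain ⟨c, hc, H0⟩ := good_all S n hS n hn le_rfl
    refine ⟨c, hc, fun K m => ?_⟩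
    obtain ⟨Cc, hCc, H1⟩ := H0 K m
    refine ⟨Cc, by linarith only [hCc], ?_⟩
    intro Φ g a b₀ h A T hb
    obtain ⟨Ψ, ν, H⟩ := H1 Φ g a b₀ h A T hb
    refine ⟨fun i => if i < n then Ψ i else 0, fun i => ?_, fun i => ?_, fun b i hi hbb => ?_⟩
    · dsimp only
      split_ifs with hi
      · exact H.vPsi i hi
      · rw [vars_0]
        exact empty_subset _
    · dsimp only
      split_ifs with hi
      · exact H.dPsi i hi
      · rw [totalDegree_zero]
        exact Nat.zero_le _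
    · dsimp only
      rw [if_pos hi]
      exact H.er b i hi hbb

end Pool.TRC31
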