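import Pool.Agent.H90.STAT.Adx
import Pool.Agent.H35.SYS.Bxn
import Pool.Agent.H87.STAT.Nrm

/-!
# Truncation of labels to a universal degree: norms

Rows 375 (TRC). The norm is the sum of the absolute values of the coefficients times the powers
of the radius.
-/

set_option autoImplicit false

namespace Pool.TRC31

open Finset MvPolynomial Pool.STAT

/-- All weights are one. -/
def d1 : ℕ → ℕ := fun _ => 1

/-- The part of degree between `1` and `M - 1`. -/
noncomputable def lw (M : ℕ) (F : PN) : PN := trw d1 M F - C (coeff 0 F)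

theorem weight_eq_zero {κ : ℕ →₀ ℕ} : Finsupp.weight d1 κ = 0 ↔ κ = 0 := by
  constructor
  · intro h
    ext i
    by_contra hi
    have h1 : i ∈ κ.support := Finsupp.mem_support_iff.2 hi
    rw [Finsupp.weight_apply, Finsupp.sum, Finset.sum_eq_zero_iff] at h
    have h2 := h i h1
    simp only [d1, smul_eq_mul, mul_one] at h2
    exact hi h2
  · rintro rfl
    exact map_zero _

theorem weight_deg {κ : ℕ →₀ ℕ} : Finsupp.weight d1 κ = κ.sum fun _ e => e := by
  rw [Finsupp.weight_apply, Finsupp.sum, Finsupp.sum]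
  exact Finset.sum_congr rfl fun i _ => by simp [d1]

theorem coeff_lw {M : ℕ} (hM : 1 ≤ M) (F : PN) (κ : ℕ →₀ ℕ) :
    coeff κ (lw M F) = if κ ≠ 0 ∧ Finsupp.weight d1 κ < M then coeff κ F else 0 := by
  classical
  unfold lw
  rw [coeff_sub, NRM.coeff_trw, coeff_C]
  by_cases h0 : κ = 0
  · subst h0
    simp only [map_zero, ne_eq, not_true_eq_false, false_and, if_false, if_true]
    rw [if_pos (by omega), sub_self]
  · rw [if_neg (Ne.symm h0), sub_zero]
    simp only [ne_eq, h0, not_false_eq_true, true_and]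

theorem lw_add (M : ℕ) (F G : PN) : lw M (F + G) = lw M F + lw M G := by
  unfold lw
  have h : trw d1 M (F + G) = trw d1 M F + trw d1 M G := by
    ext κ
    rw [coeff_add, NRM.coeff_trw, NRM.coeff_trw, NRM.coeff_trw, coeff_add]
    split_ifs <;> ring
  rw [h, coeff_add, map_add]
  ring

theorem lw_zero (M : ℕ) : lw M (0 : PN) = 0 := by
  have h := lw_add M 0 0
  rw [add_zero] at h
  have h2 : lw M (0 : PN) + lw M 0 = lw M 0 + 0 := by rw [add_zero]; exact h.symm
  exact add_left_cancel h2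

theorem lw_sum {ι : Type*} (M : ℕ) (s : Finset ι) (F : ι → PN) :
    lw M (∑ i ∈ s, F i) = ∑ i ∈ s, lw M (F i) := by
  classical
  induction s using Finset.induction_on with
  | empty => simp [lw_zero]
  | insert a s ha ih => rw [sum_insert ha, sum_insert ha, lw_add, ih]

theorem gew_add' (M : ℕ) (F G : PN) : gew d1 M (F + G) = gew d1 M F + gew d1 M G := by
  ext κ
  rw [coeff_add, NRM.coeff_gew, NRM.coeff_gew, NRM.coeff_gew, coeff_add]
  split_ifs <;> ring

theorem gew_zero' (M : ℕ) : gew d1 M (0 : PN) = 0 := by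
  ext κ
  rw [NRM.coeff_gew, coeff_zero]
  split_ifs <;> rfl

theorem gew_sum' {ι : Type*} (M : ℕ) (s : Finset ι) (F : ι → PN) :
    gew d1 M (∑ i ∈ s, F i) = ∑ i ∈ s, gew d1 M (F i) := by
  classical
  induction s using Finset.induction_on with
  | empty => simp [gew_zero']
  | insert a s ha ih => rw [sum_insert ha, sum_insert ha, gew_add', ih]

/-- The three parts of a polynomial. -/
theorem split3 (M : ℕ) (F : PN) : F = C (coeff 0 F) + lw M F + gew d1 M F := by
  unfold lw gew
  ring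

theorem support_lw {M : ℕ} (hM : 1 ≤ M) (F : PN) : (lw M F).support ⊆ F.support := by
  intro κ hκ
  rw [mem_support_iff, coeff_lw hM] at hκ
  rw [mem_support_iff]
  intro h
  rw [h] at hκ
  simp at hκ

theorem vars_lw {M : ℕ} (hM : 1 ≤ M) (F : PN) : (lw M F).vars ⊆ F.vars :=
  SYS35.vars_sub_of_support (support_lw hM F)

theorem deg_lw {M : ℕ} (hM : 1 ≤ M) (F : PN) : (lw M F).totalDegree ≤ M - 1 := by
  refine Finset.sup_le fun κ hκ => ?_
  rw [mem_support_iff, coeff_lw hM] at hκ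
  by_cases h : κ ≠ 0 ∧ Finsupp.weight d1 κ < M
  · rw [← weight_deg]
    omega
  · rw [if_neg h] at hκ
    exact absurd rfl hκ

theorem eval_zero_coeff (F : PN) : eval (0 : ℕ → ℝ) F = coeff 0 F := by
  have h : eval (0 : ℕ → ℝ) = (constantCoeff : PN →+* ℝ) := by
    refine ringHom_ext (fun r => ?_) fun i => ?_
    · rw [eval_C, constantCoeff_C]
    · rw [eval_X, constantCoeff_X, Pi.zero_apply]
  rw [h, constantCoeff_eq]

theorem eval_zero_lw {M : ℕ} (hM : 1 ≤ M) (F : PN) : eval (0 : ℕ → ℝ) (lw M F) = 0 := by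
  rw [eval_zero_coeff, coeff_lw hM, if_neg (by simp)]

/-- The norm of the low part at another radius. -/
theorem nrm_lw_scale {ρ ρ' t : ℝ} (hρ : 0 < ρ) (hρ' : 0 < ρ') {M : ℕ} (hM : 2 ≤ M)
    (h1 : ρ' / ρ ≤ t) (h2 : (ρ' / ρ) ^ (M - 1) ≤ t) (F : PN) :
    nrm d1 ρ' (lw M F) ≤ t * nrm d1 ρ F := by
  have ht : 0 < t := (div_pos hρ' hρ).trans_le h1
  refine NRM.nrm_mono d1 _ _ fun κ => ?_
  rw [coeff_lw (by omega)]
  split_ifs with hk
  · set e := Finsupp.weight d1 κ with he
    have he1 : 1 ≤ e := by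
      rw [Nat.one_le_iff_ne_zero, he]
      exact fun h => hk.1 (weight_eq_zero.1 h)
    have he2 : e ≤ M - 1 := by omega
    have h3 : (ρ' / ρ) ^ e ≤ t := by
      rcases le_total 1 (ρ' / ρ) with h | h
      · exact (pow_le_pow_right₀ h he2).trans h2
      · refine le_trans ?_ h1
        calc (ρ' / ρ) ^ e ≤ (ρ' / ρ) ^ 1 := pow_le_pow_of_le_one (div_pos hρ' hρ).le h he1
          _ = ρ' / ρ := pow_one _
    have h4 : ρ' ^ e = (ρ' / ρ) ^ e * ρ ^ e := by
      rw [← mul_pow, div_mul_cancel₀ _ hρ.ne']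
    calc |coeff κ F| * ρ' ^ e = (ρ' / ρ) ^ e * (|coeff κ F| * ρ ^ e) := by rw [h4]; ring
      _ ≤ t * (|coeff κ F| * ρ ^ e) :=
        mul_le_mul_of_nonneg_right h3 (mul_nonneg (abs_nonneg _) (pow_pos hρ _).le)
  · rw [abs_zero, zero_mul]
    exact mul_nonneg ht.le (mul_nonneg (abs_nonneg _) (pow_pos hρ _).le)

end Pool.TRC31
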