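import Pool.Agent.H31.STAT.Trc0

/-!
# Truncation of labels: natural frames and compositions

Row 375 (TRC).
-/

set_option autoImplicit false

namespace Pool.TRC31

open Finset MvPolynomial Pool.STAT

/-- The point `b` is in the natural box of the triangular system `Φ`, with sides `exp (-g i)`,
coordinates before `n`. -/
def BxE (g : ℕ → ℝ) (Φ : ℕ → PN) (n : ℕ) (b : ℕ → ℝ) : Prop :=
  ∀ i < n, |b i - eval b (Φ i)| ≤ Real.exp (-g i)

/-- Natural coordinates with sides `exp (-g i)`: absolute coordinates as polynomials of the natural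
ones. -/
noncomputable def nue (g : ℕ → ℝ) (Φ : ℕ → PN) : ℕ → PN :=
  fixm fun ν i => bind₁ ν (Φ i) + C (Real.exp (-g i)) * X i

/-- The natural coordinates of `Φ` at the point `ν`. -/
noncomputable def zet (g : ℕ → ℝ) (Φ ν : ℕ → PN) (i : ℕ) : PN :=
  C (Real.exp (g i)) * (ν i - bind₁ ν (Φ i))

variable {g : ℕ → ℝ} {Φ : ℕ → PN}

theorem bind_congr_lt {ν ν' : ℕ → PN} {F : PN} {i : ℕ} (hF : F.vars ⊆ range i)
    (h : ∀ j < i, ν j = ν' j) : bind₁ ν F = bind₁ ν' F :=
  AdxRow.bnd_congr fun j hj => h j (mem_range.1 (hF hj))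

theorem eval_bind' (b : ℕ → ℝ) (f : ℕ → PN) (F : PN) :
    eval b (bind₁ f F) = eval (fun j => eval b (f j)) F :=
  eval₂Hom_bind₁ (RingHom.id ℝ) b f F

theorem nue_eq (hΦ : TriN Φ) (i : ℕ) :
    nue g Φ i = bind₁ (nue g Φ) (Φ i) + C (Real.exp (-g i)) * X i :=
  AdxRow.fixm_eq (S := fun (ν : ℕ → PN) i => bind₁ ν (Φ i) + C (Real.exp (-g i)) * X i)
    (fun i f f' h => by
      show bind₁ f (Φ i) + C (Real.exp (-g i)) * X i = bind₁ f' (Φ i) + C (Real.exp (-g i)) * X i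
      rw [bind_congr_lt (hΦ i) h]) i

theorem nue_deg (hΦ : TriN Φ) {n K : ℕ} (hK : ∀ i < n, (Φ i).totalDegree ≤ K) :
    ∀ i < n, (nue g Φ i).totalDegree ≤ (K + 1) ^ i := by
  intro i
  induction i using Nat.strong_induction_on with
  | _ i ih =>
    intro hi
    rw [nue_eq hΦ]
    refine (totalDegree_add _ _).trans (max_le ?_ ?_)
    · rcases Nat.eq_zero_or_pos i with h0 | h0
      · have h1 : (bind₁ (nue g Φ) (Φ i)).totalDegree ≤ K * 0 :=
          SYS35.totalDegree_bind (hΦ i) (hK i hi) fun j hj => by omega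
        omega
      · have h1 : (bind₁ (nue g Φ) (Φ i)).totalDegree ≤ K * (K + 1) ^ (i - 1) :=
          SYS35.totalDegree_bind (hΦ i) (hK i hi) fun j hj =>
            (ih j hj (by omega)).trans (Nat.pow_le_pow_right (by omega) (by omega))
        refine h1.trans ?_
        calc K * (K + 1) ^ (i - 1) ≤ (K + 1) * (K + 1) ^ (i - 1) :=
              Nat.mul_le_mul_right _ (Nat.le_succ K)
          _ = (K + 1) ^ (i - 1 + 1) := by rw [pow_succ]; ring
          _ = (K + 1) ^ i := by rw [Nat.sub_add_cancel h0]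
    · refine (totalDegree_mul _ _).trans ?_
      rw [totalDegree_C, zero_add, totalDegree_X]
      exact Nat.one_le_pow _ _ (by omega)

theorem nue_vars (hΦ : TriN Φ) (i : ℕ) : (nue g Φ i).vars ⊆ range (i + 1) := by
  classical
  induction i using Nat.strong_induction_on with
  | _ i ih =>
    rw [nue_eq hΦ]
    refine (vars_add_subset _ _).trans (Finset.union_subset ?_ ?_)
    · exact (SYS35.vars_bind (hΦ i) ih).trans (range_mono (Nat.le_succ i))
    · refine (vars_mul _ _).trans (Finset.union_subset ?_ ?_)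
      · rw [vars_C]
        exact empty_subset _
      · rw [vars_X]
        intro j hj
        rw [Finset.mem_singleton.1 hj]
        exact mem_range.2 (Nat.lt_succ_self i)

theorem nue_box (hΦ : TriN Φ) {n : ℕ} (η : ℕ → ℝ) (hη : ∀ i < n, |η i| ≤ 1) :
    BxE g Φ n fun i => eval η (nue g Φ i) := by
  intro i hi
  have h : eval η (nue g Φ i) = eval (fun i => eval η (nue g Φ i)) (Φ i) +
      Real.exp (-g i) * η i := by
    conv_lhs => rw [nue_eq hΦ]
    rw [map_add, eval_bind', map_mul, eval_C, eval_X]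
  show |eval η (nue g Φ i) - eval (fun i => eval η (nue g Φ i)) (Φ i)| ≤ _
  rw [h, add_sub_cancel_left, abs_mul, abs_of_pos (Real.exp_pos _)]
  exact mul_le_of_le_one_right (Real.exp_pos _).le (hη i hi)

theorem zet_comp (hΦ : TriN Φ) (ν : ℕ → PN) (i : ℕ) : bind₁ (zet g Φ ν) (nue g Φ i) = ν i := by
  induction i using Nat.strong_induction_on with
  | _ i ih =>
    rw [nue_eq hΦ, map_add, bind₁_bind₁, map_mul, bind₁_C_right, bind₁_X_right]
    rw [bind_congr_lt (ν' := ν) (hΦ i) ih]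
    unfold zet
    rw [← mul_assoc, ← C_mul, ← Real.exp_add, neg_add_cancel, Real.exp_zero, C_1, one_mul]
    ring

/-- The composition of a polynomial bounded on the natural box with a frame. -/
theorem key (n K K' : ℕ) : ∃ Cq : ℝ, 1 ≤ Cq ∧ ∃ K1 : ℕ, ∀ (g : ℕ → ℝ) (Φ : ℕ → PN), TriN Φ →
    (∀ i < n, (Φ i).totalDegree ≤ K) → ∀ (E : PN) (l : ℕ), l ≤ n → E.vars ⊆ range l →
    E.totalDegree ≤ K' → ∀ s : ℝ, (∀ b, BxE g Φ n b → |eval b E| ≤ s) →
    ∀ (ν : ℕ → PN) (r B : ℝ), 0 < r → 1 ≤ B → (∀ i < l, nrm d1 r (zet g Φ ν i) ≤ B) →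
      nrm d1 r (bind₁ ν E) ≤ Cq * B ^ K1 * s := by
  obtain ⟨Cq, hC1, hC⟩ := SYS35.nrm_of_sup n (K' * (K + 1) ^ n)
  refine ⟨Cq, hC1, K' * (K + 1) ^ n, ?_⟩
  intro g Φ hΦ hK E l hl hv hd s hs ν r B hr hB hζ
  set Eh : PN := bind₁ (nue g Φ) E with hEh
  have hvl : Eh.vars ⊆ range l := SYS35.vars_bind hv fun i _ => nue_vars hΦ i
  have hvn : Eh.vars ⊆ range n := hvl.trans (range_mono hl)
  have hdeg : Eh.totalDegree ≤ K' * (K + 1) ^ n :=
    SYS35.totalDegree_bind hv hd fun i hi => (nue_deg hΦ hK i (by omega)).trans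
      (Nat.pow_le_pow_right (by omega) (by omega))
  have hsup : ∀ b : ℕ → ℝ, (∀ i < n, |b i| ≤ (1 : ℝ) ^ d1 i) → |eval b Eh| ≤ s := by
    intro η hη
    rw [hEh, eval_bind']
    exact hs _ (nue_box hΦ η fun i hi => by
      have := hη i hi
      rwa [one_pow] at this)
  have h1 : nrm d1 1 Eh ≤ Cq * s := hC d1 1 Eh s one_pos hvn hdeg hsup
  have h2 : bind₁ ν E = bind₁ (zet g Φ ν) Eh := by
    rw [hEh, bind₁_bind₁]
    exact (bind_congr_lt hv fun j _ => zet_comp hΦ ν j).symm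
  have h3 : nrm d1 r (bind₁ (zet g Φ ν) Eh) ≤ nrm d1 B Eh := by
    refine NRM.nrm_bind d1 hr _ _ B (by linarith) fun i hi => ?_
    rw [show d1 i = 1 from rfl, pow_one]
    exact hζ i (mem_range.1 (hvl hi))
  have h4 : nrm d1 (B * 1) Eh ≤ B ^ (K' * (K + 1) ^ n) * nrm d1 1 Eh := by
    refine SYS35.nrm_scale (fun k hk => ?_) hB zero_le_one
    rw [weight_deg]
    exact (le_totalDegree hk).trans hdeg
  rw [mul_one] at h4
  have hBp : 0 ≤ B ^ (K' * (K + 1) ^ n) := pow_nonneg (by linarith) _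
  calc nrm d1 r (bind₁ ν E) ≤ nrm d1 B Eh := h2 ▸ h3
    _ ≤ B ^ (K' * (K + 1) ^ n) * nrm d1 1 Eh := h4
    _ ≤ B ^ (K' * (K + 1) ^ n) * (Cq * s) := mul_le_mul_of_nonneg_left h1 hBp
    _ = Cq * B ^ (K' * (K + 1) ^ n) * s := by ring

end Pool.TRC31
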