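import Pool.Agent.H31.STAT.Trc

/-!
# Truncation of labels: the line side

Row 375 (TRC). The line side at the window `wd m`: the labels are those of the radii `r k` and the
windows `wd k`, with the back extension `v` of the window. Only the parameters of the telescope
change.
-/

set_option autoImplicit false

namespace Pool.TRC31

open Finset MvPolynomial Pool.STAT

/-- The radii of the line side. -/
noncomputable def rdl (m : ℕ) (r wd : ℕ → ℝ) (k : ℕ) : ℝ := r m - min (r m - r k) (wd m - wd k)

/-- The telescope of the line side. -/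
theorem line_tel {S n K m : ℕ} {Φ : ℕ → ℕ → PN} {g : ℕ → ℕ → ℝ} {r wd : ℕ → ℝ} {h A wb v : ℝ}
    (h_nn : 0 ≤ h) (A_nn : 0 ≤ A) (tri : ∀ k ≤ m, TriN (Φ k))
    (deg : ∀ k ≤ m, ∀ i < n, (Φ k i).totalDegree ≤ K)
    (zero : ∀ i, 1 ≤ i → i < n → Φ 0 i = 0)
    (mono : ∀ k' k, k' ≤ k → k ≤ m → r k' ≤ r k)
    (step : ∀ k < m, r (k + 1) - r k ≤ h)
    (wk : ∀ k < m, wd k = min (r k) wb) (wm : wd m = wb + v) (wle : wb + v ≤ r m)
    (v_nn : 0 ≤ v) (hv : r m - (wb + v) ≤ v)
    (lower : ∀ k' k, k' ≤ k → k ≤ m → ∀ i, 1 ≤ i → i < n → r k - r k' - A ≤ g k i - g k' i)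
    (upper : ∀ k ≤ m, ∀ i, 1 ≤ i → i < n → g m i - g k i ≤ S * (r m - r k) + A)
    (time : ∀ k ≤ m, wd m - wd k ≤ g m 0 - g k 0)
    (uni : ∀ k < m, ∀ i, 1 ≤ i → i < n → ∀ b, BxE (g (k + 1)) (Φ (k + 1)) n b →
      |eval b (Φ (k + 1) i - Φ k i)| ≤ Real.exp (A - g k i)) :
    Tel (2 * S) n K m Φ g (rdl m r wd) h A := by
  have wmono : ∀ k' k, k' ≤ k → k ≤ m → wd k' ≤ wd k := by
    intro k' k h1 h2
    rcases Nat.lt_or_ge k' m with h3 | h3
    · rcases Nat.lt_or_ge k m with h4 | h4
      · rw [wk k' h3, wk k h4]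
        exact min_le_min_right _ (mono k' k h1 h2)
      · obtain rfl : k = m := le_antisymm h2 h4
        rw [wk k' h3, wm]
        exact (min_le_right _ _).trans (by linarith)
    · obtain rfl : k' = k := by omega
      exact le_rfl
  have winc : ∀ k' k, k' ≤ k → k < m → wd k - wd k' ≤ r k - r k' := by
    intro k' k h1 h2
    rw [wk k h2, wk k' (by omega)]
    have h3 := mono k' k h1 h2.le
    rcases le_total (r k') wb with h4 | h4
    · rw [min_eq_left h4]
      linarith [min_le_left (r k) wb]
    · rw [min_eq_right h4]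
      linarith [min_le_right (r k) wb]
  have hm0 : rdl m r wd m = r m := by
    unfold rdl
    simp
  have key : ∀ k' k, k' ≤ k → k ≤ m → rdl m r wd k - rdl m r wd k' ≤ r k - r k' := by
    intro k' k h1 h2
    rcases Nat.lt_or_ge k m with h3 | h3
    · unfold rdl
      have h4 := winc k' k h1 h3
      rcases le_total (r m - r k) (wd m - wd k) with h5 | h5
      · rw [min_eq_left h5]
        linarith [min_le_left (r m - r k') (wd m - wd k')]
      · rw [min_eq_right h5]
        linarith [min_le_right (r m - r k') (wd m - wd k')]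
    · obtain rfl : k = m := le_antisymm h2 h3
      rw [hm0]
      unfold rdl
      linarith [min_le_left (r k - r k') (wd k - wd k')]
  refine ⟨h_nn, A_nn, tri, deg, zero, ?_, ?_, ?_, ?_, ?_, uni⟩
  · intro k' k h1 h2
    unfold rdl
    have h3 := min_le_min (sub_le_sub_left (mono k' k h1 h2) (r m))
      (sub_le_sub_left (wmono k' k h1 h2) (wd m))
    linarith
  · intro k hk
    exact (key k (k + 1) (Nat.le_succ k) hk).trans (step k hk)
  · intro k' k h1 h2 i hi hin
    have h3 := key k' k h1 h2
    have h4 := lower k' k h1 h2 i hi hin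
    linarith
  · intro k hk i hi hin
    have h3 := upper k hk i hi hin
    have h4 : r m - r k ≤ 2 * (rdl m r wd m - rdl m r wd k) := by
      rw [hm0]
      unfold rdl
      have h5 := mono k m hk le_rfl
      rcases Nat.lt_or_ge k m with h6 | h6
      · have h7 : r m - r k ≤ 2 * (wd m - wd k) := by
          rw [wm, wk k h6]
          rcases le_total (r k) wb with h8 | h8
          · rw [min_eq_left h8]
            linarith
          · rw [min_eq_right h8]
            linarith
        rcases le_total (r m - r k) (wd m - wd k) with h8 | h8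
        · rw [min_eq_left h8]
          linarith
        · rw [min_eq_right h8]
          linarith
      · obtain rfl : k = m := le_antisymm hk h6
        simp
    have h5 : (S : ℝ) * (r m - r k) ≤ S * (2 * (rdl m r wd m - rdl m r wd k)) :=
      mul_le_mul_of_nonneg_left h4 (Nat.cast_nonneg S)
    push_cast
    linarith
  · intro k hk
    rw [hm0]
    unfold rdl
    have h3 := min_le_right (r m - r k) (wd m - wd k)
    have h4 := time k hk
    linarith

end Pool.TRC31
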