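import Pool.Agent.H31.STAT.Trw
import Pool.Agent.H39.BFL.VisL

/-!
# The end point of a walk in the adapted coordinates of its first block
-/

set_option autoImplicit false

namespace Pool.STAT

open Finset Real MvPolynomial
open Pool.Agent.H49.Ent Pool.Agent.H32.Dense Pool.STK Pool.KS3
open Pool.BFL (Pl CB Pb P2 MC alt)
open Pool.Agent.H39.BFL

/-- The transport along one leg. -/
def TrL {c : ℕ} {Ω B 𝔅 𝒱 : Type} (d : Fin c → ℕ) (j U m : ℕ) (C₀ θ : ℝ) (bk : Ω → B)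
    (β : Ω → 𝔅) (V : Ω → 𝒱) (tm : Ω → ℤ) (ΘT : B → (Fin c → ℝ) → Fin c → ℝ)
    (FN : B → (Fin c → ℝ) → ℝ) (ξT : 𝒱 → 𝔅 → Fin c → Pl c) (ξN : 𝒱 → 𝔅 → Pl c)
    (ω ω' : Ω) : Prop :=
  ∀ z : Fin c → ℝ, (∀ i, |z i| ≤ C₀) →
    (∀ i, |ΘT (bk ω') z i - eval (ΘT (bk ω) z)
      (flow d (ξT (V ω) (β ω)) (-(((tm ω' - tm ω : ℤ) : ℝ) / 2 ^ m)) i)| ≤
      Real.exp θ / 2 ^ U) ∧
    |FN (bk ω') z - FN (bk ω) z + eval (ΘT (bk ω) z)
      (hfl j (ξT (V ω) (β ω)) (ξN (V ω) (β ω)) (-(((tm ω' - tm ω : ℤ) : ℝ) / 2 ^ m)))| ≤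
      Real.exp θ / 2 ^ U

/-- The own position. -/
def Own {c : ℕ} {Ω B : Type} (U : ℕ) (θ : ℝ) (bk : Ω → B) (pT : Ω → Fin c → ℝ) (pN : Ω → ℝ)
    (ΘT : B → (Fin c → ℝ) → Fin c → ℝ) (FN : B → (Fin c → ℝ) → ℝ) (ω : Ω) : Prop :=
  (∀ i, |ΘT (bk ω) (pT ω) i| ≤ Real.exp θ / 2 ^ U) ∧
    |pN ω - FN (bk ω) (pT ω)| ≤ Real.exp θ / 2 ^ U

section

variable {c j U m : ℕ} {Ω G B 𝔅 𝒱 : Type} [Fintype Ω] {d : Fin c → ℕ} {C₀ θ η : ℝ} {p : Ω → ℝ}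
  {g : Ω → G} {bk : Ω → B} {β : Ω → 𝔅} {V : Ω → 𝒱} {tm : Ω → ℤ} {pT : Ω → Fin c → ℝ}
  {pN : Ω → ℝ} {ΘT : B → (Fin c → ℝ) → Fin c → ℝ} {FN : B → (Fin c → ℝ) → ℝ}
  {ξT : 𝒱 → 𝔅 → Fin c → Pl c} {ξN : 𝒱 → 𝔅 → Pl c}

/-- The end point of a walk, for one sequence of points. -/
theorem walk_det (hT : TrwStmt) (d : Fin c → ℕ) (hd : ∀ i, 1 ≤ d i) (hj : 1 ≤ j) (N : ℕ)
    (hN : 1 ≤ N) : ∃ K : ℕ, ∀ {Ω G B 𝔅 𝒱 : Type} [Fintype Ω] {U m : ℕ} {C₀ θ η : ℝ} {p : Ω → ℝ}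
    {g : Ω → G} {bk : Ω → B} {β : Ω → 𝔅} {V : Ω → 𝒱} {tm : Ω → ℤ} {pT : Ω → Fin c → ℝ}
    {pN : Ω → ℝ} {ΘT : B → (Fin c → ℝ) → Fin c → ℝ} {FN : B → (Fin c → ℝ) → ℝ}
    {ξT : 𝒱 → 𝔅 → Fin c → Pl c} {ξN : 𝒱 → 𝔅 → Pl c},
    WC d j U m C₀ θ η p g bk β V tm pT pN ΘT FN ξT ξN → 0 ≤ θ → Real.exp θ ≤ 2 ^ U →
    ∀ z : ℕ → Ω, 0 < p (z (2 * N - 1)) → (∀ a < N, g (z (2 * a)) = g (z (2 * a + 1))) →
    (∀ a, a + 1 < N → bk (z (2 * a + 1)) = bk (z (2 * a + 2))) →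
    (∀ a : Fin N, TrL d j U m C₀ θ bk β V tm ΘT FN ξT ξN (z (2 * a)) (z (2 * a + 1))) →
    Own U θ bk pT pN ΘT FN (z (2 * N - 1)) →
    (∀ i, |ΘT (bk (z 0)) (pT (z (2 * N - 1))) i -
      eval (fun a : Fin N => ((tm (z (2 * a + 1)) - tm (z (2 * a)) : ℤ) : ℝ) / 2 ^ m)
        (wT d N (fun a : Fin N => ξT (V (z (2 * a))) (β (z (2 * a)))) i)| ≤
        K * Real.exp θ ^ K * (Real.exp θ / 2 ^ U)) ∧
    |pN (z (2 * N - 1)) - FN (bk (z 0)) (pT (z (2 * N - 1))) -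
      eval (fun a : Fin N => ((tm (z (2 * a + 1)) - tm (z (2 * a)) : ℤ) : ℝ) / 2 ^ m)
        (wH d j N (fun a : Fin N => ξT (V (z (2 * a))) (β (z (2 * a))))
          (fun a : Fin N => ξN (V (z (2 * a))) (β (z (2 * a)))))| ≤
        K * Real.exp θ ^ K * (Real.exp θ / 2 ^ U) := by
  obtain ⟨K, hK⟩ := hT c j N d hd hj
  refine ⟨K, ?_⟩
  intro Ω G B 𝔅 𝒱 _ U m C₀ θ η p g bk β V tm pT pN ΘT FN ξT ξN hC hθ hθU z hpz hg hb htr hown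
  have h2m : (0 : ℝ) < 2 ^ m := by positivity
  have h2U : (0 : ℝ) < 2 ^ U := by positivity
  set en : Fin c → ℝ := pT (z (2 * N - 1)) with hen
  set blk : ℕ → B := fun a => if a = 0 then bk (z 0) else bk (z (2 * a - 1)) with hblk
  have hblk0 : blk 0 = bk (z 0) := by simp [hblk]
  have hblkN : blk N = bk (z (2 * N - 1)) := by
    have : N ≠ 0 := by omega
    simp [hblk, this]
  have hblk1 : ∀ a : Fin N, blk (a + 1) = bk (z (2 * a + 1)) := by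
    intro a
    have e : 2 * ((a : ℕ) + 1) - 1 = 2 * a + 1 := by omega
    simp only [hblk]
    rw [if_neg (by omega), e]
  have hblk2 : ∀ a : Fin N, blk a = bk (z (2 * a)) := by
    intro a
    rcases Nat.eq_zero_or_pos (a : ℕ) with h0 | h0
    · simp [hblk, h0]
    · obtain ⟨a', ha'⟩ : ∃ a', a' + 1 = (a : ℕ) := ⟨a - 1, by omega⟩
      have h1 := hb a' (by have := a.2; omega)
      have e : 2 * (a : ℕ) - 1 = 2 * a' + 1 := by omega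
      have e2 : 2 * (a : ℕ) = 2 * a' + 2 := by omega
      simp only [hblk]
      rw [if_neg (by omega), e, e2]
      exact h1
  have hen1 : ∀ i, |en i| ≤ C₀ := fun i => hC.pT_le _ hpz i
  have key := hK (Real.exp θ) (Real.exp θ / 2 ^ U) (Real.one_le_exp hθ) (by positivity)
    (by rw [div_le_one h2U]; exact hθU)
    (fun a : Fin N => ξT (V (z (2 * a))) (β (z (2 * a))))
    (fun a : Fin N => ξN (V (z (2 * a))) (β (z (2 * a))))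
    (fun a : Fin N => ((tm (z (2 * a + 1)) - tm (z (2 * a)) : ℤ) : ℝ) / 2 ^ m)
    (fun a => ΘT (blk a) en) (fun a => FN (blk a) en) (pN (z (2 * N - 1)))
    (fun a => hC.ξT_vf _ _) (fun a => hC.ξN_hom _ _) (fun a i => hC.ξT_le _ _ i)
    (fun a => hC.ξN_le _ _) (fun a => by
      rw [abs_div, abs_of_pos h2m, div_le_one h2m]
      exact_mod_cast hC.tm_g _ _ (hg a a.2))
    (fun a _ i => hC.ΘT_le _ _ hen1 i)
    (fun a i => by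
      rw [hblk1 a, hblk2 a]
      exact (htr a en hen1).1 i)
    (fun a => by
      rw [hblk1 a, hblk2 a]
      exact (htr a en hen1).2)
    (fun i => by
      rw [hblkN]
      exact hown.1 i)
    (by
      rw [hblkN]
      exact hown.2)
  rw [hblk0] at key
  exact key

/-- Transport along all the legs. -/
theorem trl_all {N : ℕ} {W : Type} [Fintype W] {q : W → ℝ} {z : ℕ → W → Ω}
    (hC : WC d j U m C₀ θ η p g bk β V tm pT pN ΘT FN ξT ξN)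
    (hMC : MC p (alt g bk) (2 * N - 1) q z) :
    Pb q (fun w => ∃ a : Fin N, ¬ TrL d j U m C₀ θ bk β V tm ΘT FN ξT ξN (z (2 * a) w)
      (z (2 * a + 1) w)) ≤ N * η := by
  have hq0 := hMC.isLaw.nonneg
  have h1 := Pb_ex hq0 (fun (a : Fin N) w => ¬ TrL d j U m C₀ θ bk β V tm ΘT FN ξT ξN
    (z (2 * a) w) (z (2 * a + 1) w)) η (fun a => by
      have h2 := hMC.pair (2 * a) (by have := a.2; omega)
        (fun ω ω' => ¬ TrL d j U m C₀ θ bk β V tm ΘT FN ξT ξN ω ω')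
      rw [h2, P2_alt g bk (by omega)]
      exact hC.transport)
  rwa [Fintype.card_fin] at h1

/-- The own position at the end. -/
theorem own_end {N : ℕ} {W : Type} [Fintype W] {q : W → ℝ} {z : ℕ → W → Ω}
    (hC : WC d j U m C₀ θ η p g bk β V tm pT pN ΘT FN ξT ξN)
    (hMC : MC p (alt g bk) (2 * N - 1) q z) :
    Pb q (fun w => ¬ Own U θ bk pT pN ΘT FN (z (2 * N - 1) w)) ≤ η := by
  have h3 := Pool.Agent.H67.BFL.Pb_marg (hMC.marg (2 * N - 1) le_rfl)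
    (fun ω => ¬ Own U θ bk pT pN ΘT FN ω)
  rw [h3]
  exact hC.own

/-- The good event. -/
theorem gd_prob {N : ℕ} {W : Type} [Fintype W] {q : W → ℝ} {z : ℕ → W → Ω}
    (hC : WC d j U m C₀ θ η p g bk β V tm pT pN ΘT FN ξT ξN)
    (hMC : MC p (alt g bk) (2 * N - 1) q z) :
    Pb q (fun w => ¬ ((∀ a : Fin N, TrL d j U m C₀ θ bk β V tm ΘT FN ξT ξN (z (2 * a) w)
      (z (2 * a + 1) w)) ∧ Own U θ bk pT pN ΘT FN (z (2 * N - 1) w))) ≤ (N + 1) * η := by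
  have hq0 := hMC.isLaw.nonneg
  have h1 := Pb_or_le hq0 (trl_all hC hMC) (own_end hC hMC)
  have h2 : (N + 1) * η = N * η + η := by ring
  rw [h2]
  refine (Pb_mono hq0 ?_).trans h1
  intro w hw hnot
  by_contra hcon
  push Not at hcon
  exact hnot ⟨hcon.1, hcon.2⟩

end

end Pool.STAT
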