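import Pool.Agent.H31.STAT.Trc1

/-!
# Widening of a box with moving centres

Row 375 (TRC). A polynomial of bounded degree which is bounded on a triangular box of side one
with bounded centres is bounded on the large fixed box.
-/

set_option autoImplicit false

namespace Pool.TRC31

open Finset MvPolynomial Pool.STAT

/-- One variable: from an interval of length two to a long interval. -/
theorem wid_one (D : ℕ) : ∃ Cq : ℝ, 1 ≤ Cq ∧ ∀ (Q : PN) (j n : ℕ) (y : ℕ → ℝ) (c R s : ℝ), 1 ≤ R →
    Q.vars ⊆ range n → Q.totalDegree ≤ D →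
    (∀ t : ℝ, |t - c| ≤ 1 → |eval (Function.update y j t) Q| ≤ s) →
    ∀ t : ℝ, |t - c| ≤ R → |eval (Function.update y j t) Q| ≤ Cq * R ^ D * s := by
  classical
  obtain ⟨Cq, hC1, hC⟩ := SYS35.nrm_of_sup 1 D
  refine ⟨Cq, hC1, ?_⟩
  intro Q j n y c R s hR hv hd hs t ht
  set f : ℕ → PN := fun l => if l = j then C c + X 0 else C (y l) with hf
  set G : PN := bind₁ f Q with hG
  have hfv : ∀ l, (f l).vars ⊆ range 1 := by
    intro l
    rw [hf]
    dsimp only
    split_ifs
    · refine (vars_add_subset _ _).trans (Finset.union_subset ?_ ?_)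
      · rw [vars_C]
        exact empty_subset _
      · rw [vars_X]
        intro i hi
        rw [Finset.mem_singleton.1 hi]
        exact mem_range.2 one_pos
    · rw [vars_C]
      exact empty_subset _
  have hfd : ∀ l < n, (f l).totalDegree ≤ 1 := by
    intro l _
    rw [hf]
    dsimp only
    split_ifs
    · refine (totalDegree_add _ _).trans (max_le ?_ ?_)
      · rw [totalDegree_C]
        exact Nat.zero_le _
      · rw [totalDegree_X]
    · rw [totalDegree_C]
      exact Nat.zero_le _
  have hGv : G.vars ⊆ range 1 := AdxRow.vars_bnd hv fun l _ => hfv l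
  have hGd : G.totalDegree ≤ D := by
    have := SYS35.totalDegree_bind (f := f) hv hd hfd
    rwa [mul_one] at this
  have hGe : ∀ b : ℕ → ℝ, eval b G = eval (Function.update y j (c + b 0)) Q := by
    intro b
    rw [hG, eval_bind']
    congr 2
    funext l
    rw [hf]
    dsimp only
    by_cases hl : l = j
    · rw [if_pos hl, hl, Function.update_self, map_add, eval_C, eval_X]
    · rw [if_neg hl, Function.update_of_ne hl, eval_C]
  have h1 : nrm d1 1 G ≤ Cq * s := hC d1 1 G s one_pos hGv hGd fun b hb => by
    rw [hGe]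
    refine hs _ ?_
    have := hb 0 one_pos
    rw [one_pow] at this
    rwa [add_sub_cancel_left]
  have h2 : eval (Function.update y j t) Q = eval (fun _ => t - c) G := by
    rw [hGe]
    congr 3
    ring
  have h3 : |eval (fun _ => t - c) G| ≤ nrm d1 R G :=
    NRM.abs_eval_le d1 _ _ fun i _ => by
      rw [show d1 i = 1 from rfl, pow_one]
      exact ht
  have h4 : nrm d1 (R * 1) G ≤ R ^ D * nrm d1 1 G :=
    SYS35.nrm_scale (fun k hk => by
      rw [weight_deg]
      exact (le_totalDegree hk).trans hGd) hR zero_le_one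
  rw [mul_one] at h4
  have hRp : 0 ≤ R ^ D := pow_nonneg (by linarith) _
  rw [h2]
  calc |eval (fun _ => t - c) G| ≤ nrm d1 R G := h3
    _ ≤ R ^ D * nrm d1 1 G := h4
    _ ≤ R ^ D * (Cq * s) := mul_le_mul_of_nonneg_left h1 hRp
    _ = Cq * R ^ D * s := by ring

/-- **WID.** Widening of a triangular box with moving centres. -/
theorem wid (i D : ℕ) : ∃ Cc : ℕ, 1 ≤ Cc ∧ ∀ (Q : PN) (R s : ℝ) (del : ℕ → (ℕ → ℝ) → ℝ), 1 ≤ R →
    Q.vars ⊆ range i → Q.totalDegree ≤ D →
    (∀ j, ∀ y y' : ℕ → ℝ, (∀ l < j, y l = y' l) → del j y = del j y') →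
    (∀ j < i, ∀ y : ℕ → ℝ, (∀ l < j, |y l - del l y| ≤ 1) → |del j y| ≤ R) →
    (∀ y : ℕ → ℝ, (∀ j < i, |y j - del j y| ≤ 1) → |eval y Q| ≤ s) →
    ∀ y : ℕ → ℝ, (∀ j < i, |y j| ≤ R) → |eval y Q| ≤ (Cc * R) ^ Cc * s := by
  classical
  obtain ⟨Cq, hCq, hone⟩ := wid_one D
  induction i with
  | zero =>
    refine ⟨1, le_rfl, ?_⟩
    intro Q R s del hR hv hd _ _ hs y _
    have h1 := hs y fun j hj => by omega
    have hs0 : 0 ≤ s := (abs_nonneg _).trans h1
    rw [Nat.cast_one, one_mul, pow_one]
    nlinarith
  | succ i ih =>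
    obtain ⟨C', hC', H⟩ := ih
    obtain ⟨N, hN⟩ := exists_nat_ge Cq
    refine ⟨C' + D + 1 + 2 + N, by omega, ?_⟩
    intro Q R s del hR hv hd hdep hdel hs y hy
    have hRp : (0 : ℝ) < R := by linarith
    -- the bound is nonnegative
    have hs0 : 0 ≤ s := by
      set y0 : ℕ → ℝ := fixm fun f j => del j f with hy0
      have h1 : ∀ j, y0 j = del j y0 := fun j =>
        AdxRow.fixm_eq (S := fun (f : ℕ → ℝ) j => del j f) (fun j f f' h => hdep j f f' h) j
      exact (abs_nonneg _).trans (hs y0 fun j _ => by
        rw [← h1, sub_self, abs_zero]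
        exact zero_le_one)
    set s' : ℝ := Cq * (2 * R) ^ D * s with hs'
    set f : ℕ → PN := Function.update X i (C (y i)) with hf
    set Qt : PN := bind₁ f Q with hQt
    have hQe : ∀ b : ℕ → ℝ, eval b Qt = eval (Function.update b i (y i)) Q := by
      intro b
      rw [hQt, eval_bind']
      congr 2
      funext l
      rw [hf]
      by_cases hl : l = i
      · rw [hl, Function.update_self, Function.update_self, eval_C]
      · rw [Function.update_of_ne hl, Function.update_of_ne hl, eval_X]
    have hQv : Qt.vars ⊆ range i := by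
      refine AdxRow.vars_bnd hv fun l hl => ?_
      rw [hf]
      by_cases h : l = i
      · rw [h, Function.update_self, vars_C]
        exact empty_subset _
      · rw [Function.update_of_ne h, vars_X]
        intro k hk
        rw [Finset.mem_singleton.1 hk]
        exact mem_range.2 (by omega)
    have hQd : Qt.totalDegree ≤ D := by
      have := SYS35.totalDegree_bind (f := f) (K' := 1) hv hd fun l _ => by
        rw [hf]
        by_cases h : l = i
        · rw [h, Function.update_self, totalDegree_C]
          exact Nat.zero_le _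
        · rw [Function.update_of_ne h, totalDegree_X]
      rwa [mul_one] at this
    have h1 := H Qt R s' del hR hQv hQd hdep (fun j hj => hdel j (by omega)) (by
      intro z hz
      rw [hQe]
      have hc := hdel i (Nat.lt_succ_self i) z hz
      refine hone Q i (i + 1) z (del i z) (2 * R) s (by linarith) hv hd ?_ (y i) ?_
      · intro t ht
        refine hs _ fun j hj => ?_
        have e1 : ∀ l ≤ i, del l (Function.update z i t) = del l z := fun l hl =>
          hdep l _ _ fun k hk => Function.update_of_ne (by omega) _ _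
        rcases Nat.lt_succ_iff_lt_or_eq.1 hj with h | rfl
        · rw [Function.update_of_ne (by omega), e1 j h.le]
          exact hz j h
        · rw [Function.update_self, e1 j le_rfl]
          exact ht
      · calc |y i - del i z| ≤ |y i| + |del i z| := abs_sub _ _
          _ ≤ R + R := add_le_add (hy i (Nat.lt_succ_self i)) hc
          _ = 2 * R := by ring) y fun j hj => hy j (by omega)
    rw [hQe, Function.update_eq_self] at h1
    refine h1.trans ?_
    set T : ℕ := C' + D + 1 + 2 + N with hT
    have hTR : (1 : ℝ) ≤ T := by exact_mod_cast (by omega : 1 ≤ T)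
    have hT1 : (1 : ℝ) ≤ T * R := by nlinarith
    have b1 : ((C' : ℝ) * R) ^ C' ≤ (T * R) ^ C' := by
      refine pow_le_pow_left₀ (by positivity) (mul_le_mul_of_nonneg_right ?_ hRp.le) _
      exact_mod_cast (by omega : C' ≤ T)
    have b2 : (2 * R) ^ D ≤ (T * R) ^ D := by
      refine pow_le_pow_left₀ (by positivity) (mul_le_mul_of_nonneg_right ?_ hRp.le) _
      exact_mod_cast (by omega : 2 ≤ T)
    have b3 : Cq ≤ T * R := by
      have h2 : (N : ℝ) ≤ T := by exact_mod_cast (by omega : N ≤ T)
      nlinarith
    calc ((C' : ℝ) * R) ^ C' * s' = ((C' : ℝ) * R) ^ C' * (Cq * (2 * R) ^ D) * s := by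
          rw [hs']; ring
      _ ≤ (T * R) ^ C' * (T * R * (T * R) ^ D) * s := by
          refine mul_le_mul_of_nonneg_right (mul_le_mul b1 (mul_le_mul b3 b2 (by positivity)
            (by positivity)) (by positivity) (by positivity)) hs0
      _ = (T * R) ^ (C' + (1 + D)) * s := by rw [pow_add, pow_add, pow_one]
      _ ≤ (T * R) ^ T * s :=
          mul_le_mul_of_nonneg_right (pow_le_pow_right₀ hT1 (by omega)) hs0

end Pool.TRC31
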