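import Pool.Agent.H31.STAT.Ext
import Pool.Agent.H19.STAT.Sys

/-!
# Row 120 WTS: the height as the last coordinate of the base
-/

set_option autoImplicit false

namespace Pool.STAT

open Finset MvPolynomial
open Pool.Agent.H49.Ent Pool.Agent.H32.Dense Pool.STK Pool.KS3
open Pool.BFL (Pl CB Pb P2 MC alt)

/-- A polynomial in the first `n` variables comes from `toF`. -/
theorem ren_toF {n : ℕ} {F : PN} (hF : F.vars ⊆ range n) :
    rename (fun l : Fin n => (l : ℕ)) (toF n F) = F := by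
  obtain ⟨G, hG⟩ := exists_rename_eq_of_vars_subset_range F (fun l : Fin n => (l : ℕ))
    Fin.val_injective (by
      intro x hx
      exact ⟨⟨x, Finset.mem_range.1 (hF hx)⟩, rfl⟩)
  have h1 : toF n F = G := by
    rw [← hG]
    unfold toF
    rw [aeval_rename]
    have h2 : ((fun j => if h : j < n then (X ⟨j, h⟩ : Pl n) else 0) ∘ fun l : Fin n => (l : ℕ)) =
        X := by
      funext l
      simp
    rw [h2, aeval_X_left, AlgHom.id_apply]
  rw [h1, hG]

theorem toF_succ {n : ℕ} {F : PN} (hF : F.vars ⊆ range n) :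
    toF (n + 1) F = rename Fin.castSucc (toF n F) := by
  conv_lhs => rw [← ren_toF hF]
  unfold toF
  rw [aeval_rename]
  have h2 : ((fun j => if h : j < n + 1 then (X ⟨j, h⟩ : Pl (n + 1)) else 0) ∘
      fun l : Fin n => (l : ℕ)) = fun l => X l.castSucc := by
    funext l
    have := l.2
    simp only [Function.comp_apply]
    rw [dif_pos (by omega)]
    rfl
  have h3 : (aeval fun l : Fin n => (X l.castSucc : Pl (n + 1))) =
      (rename Fin.castSucc : Pl n →ₐ[ℝ] Pl (n + 1)) := by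
    apply MvPolynomial.algHom_ext
    intro i
    rw [aeval_X, rename_X]
  rw [h2, h3]

theorem coeff_toF {n : ℕ} {F : PN} (hF : F.vars ⊆ range n) (k : Fin n →₀ ℕ) :
    coeff k (toF n F) = coeff (Finsupp.mapDomain (fun l : Fin n => (l : ℕ)) k) F := by
  conv_rhs => rw [← ren_toF hF]
  rw [coeff_rename_mapDomain _ Fin.val_injective]

theorem weight_val {n : ℕ} (d : ℕ → ℕ) (k : Fin n →₀ ℕ) :
    Finsupp.weight d (Finsupp.mapDomain (fun l : Fin n => (l : ℕ)) k) =
      Finsupp.weight (fun l : Fin n => d l) k := by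
  rw [Finsupp.weight_apply, Finsupp.weight_apply, Finsupp.sum_mapDomain_index]
  · intro b
    simp
  · intro b m₁ m₂
    rw [add_smul]

theorem toF_hom {n : ℕ} {F : PN} (hF : F.vars ⊆ range n) {d : ℕ → ℕ} {m : ℕ}
    (h : F.IsWeightedHomogeneous d m) :
    (toF n F).IsWeightedHomogeneous (fun l : Fin n => d l) m := by
  intro k hk
  rw [coeff_toF hF] at hk
  rw [← weight_val]
  exact h hk

theorem toF_cb {n : ℕ} {F : PN} (hF : F.vars ⊆ range n) {S : ℝ} (h : ∀ k, |F.coeff k| ≤ S) :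
    CB (toF n F) S := by
  intro k
  rw [coeff_toF hF]
  exact h _

/-- The truncation is not active. -/
theorem vfT_eq {d : ℕ → ℕ} {n : ℕ} {S : ℝ} {f : ℕ → PN}
    (h : ∀ i < n, (f i).vars ⊆ range n ∧ (f i).IsWeightedHomogeneous d (d i - 1) ∧
      ∀ k, |(f i).coeff k| ≤ S) : vfT d n S f = fun i : Fin n => toF n (f i) := by
  unfold vfT
  rw [if_pos]
  intro i
  obtain ⟨h1, h2, h3⟩ := h i i.2
  exact ⟨toF_hom h1 h2, toF_cb h1 h3⟩

theorem vfN_eq {d : ℕ → ℕ} {n : ℕ} {S : ℝ} {f : ℕ → PN}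
    (h : (f n).vars ⊆ range n ∧ (f n).IsWeightedHomogeneous d (d n - 1) ∧
      ∀ k, |(f n).coeff k| ≤ S) : vfN d n S f = toF n (f n) := by
  unfold vfN
  rw [if_pos]
  exact ⟨toF_hom h.1 h.2.1, toF_cb h.1 h.2.2⟩

theorem exd_val (d : ℕ → ℕ) (c : ℕ) :
    exd (fun i : Fin c => d i) (d c) = fun i : Fin (c + 1) => d i := by
  funext i
  refine Fin.lastCases ?_ (fun i => ?_) i
  · rw [exd_last]
    rfl
  · rw [exd_castSucc]
    rfl

/-- The fields of the coordinate `c + 1` are the extended ones. -/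
theorem vfT_succ {d : ℕ → ℕ} {c : ℕ} {S : ℝ} {f : ℕ → PN}
    (h : ∀ i ≤ c, (f i).vars ⊆ range i ∧ (f i).IsWeightedHomogeneous d (d i - 1) ∧
      ∀ k, |(f i).coeff k| ≤ S) : vfT d (c + 1) S f = exT (vfT d c S f) (vfN d c S f) := by
  rw [vfT_eq (n := c + 1) (fun i hi => ?_), vfT_eq (n := c) (fun i hi => ?_),
    vfN_eq (h c le_rfl)]
  · funext i
    refine Fin.lastCases ?_ (fun i => ?_) i
    · rw [exT_last, Fin.val_last, toF_succ (h c le_rfl).1]
    · rw [exT_castSucc, Fin.val_castSucc, toF_succ]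
      refine (h i i.2.le).1.trans ?_
      intro x hx
      rw [Finset.mem_range] at hx ⊢
      have := i.2
      omega
  · refine ⟨(h i hi.le).1.trans ?_, (h i hi.le).2⟩
    intro x hx
    rw [Finset.mem_range] at hx ⊢
    omega
  · have hi' : i ≤ c := by omega
    refine ⟨(h i hi').1.trans ?_, (h i hi').2⟩
    intro x hx
    rw [Finset.mem_range] at hx ⊢
    omega

/-- Row 120. -/
theorem wts_thm : WtsStmt := by
  intro c N d _ S f _ h e
  rw [← minT_ext, exd_val]
  congr 1
  funext a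
  exact vfT_succ (h a)

end Pool.STAT
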